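import Pool.Agent.U374.St.Tower
set_option autoImplicit false

/-!
The divisors of products of polynomials of simplex type are divisors of Steinberg towers, and
further examples.
-/

namespace Pool.Agent.U374.St

open Pool.Agent.N65.TL

variable {K : Type*} [Field K] {n : ℕ}

theorem subst_eq_sum (M : Fin n → Fin n → ℤ) (T : LP K n) :
    subst M T = T.coeff.sum fun x c => AddMonoidAlgebra.single (∑ i, x i • M i) c := rfl

theorem subst_add (M : Fin n → Fin n → ℤ) (A B : LP K n) :
    subst M (A + B) = subst M A + subst M B := by
  rw [subst_eq_sum, subst_eq_sum, subst_eq_sum, AddMonoidAlgebra.coeff_add]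
  exact Finsupp.sum_add_index' (fun _ => AddMonoidAlgebra.single_zero _)
    (fun _ _ _ => AddMonoidAlgebra.single_add _ _ _)

theorem subst_single (M : Fin n → Fin n → ℤ) (x : Fin n → ℤ) (c : K) :
    subst M (AddMonoidAlgebra.single x c) = AddMonoidAlgebra.single (∑ i, x i • M i) c := by
  rw [subst_eq_sum, AddMonoidAlgebra.coeff_single]
  exact Finsupp.sum_single_index (AddMonoidAlgebra.single_zero _)

theorem subst_sum (M : Fin n → Fin n → ℤ) {ι : Type*} (s : Finset ι) (A : ι → LP K n) :
    subst M (∑ i ∈ s, A i) = ∑ i ∈ s, subst M (A i) := by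
  classical
  induction s using Finset.induction_on with
  | empty => rw [Finset.sum_empty, Finset.sum_empty, subst_eq_sum, AddMonoidAlgebra.coeff_zero,
      Finsupp.sum_zero_index]
  | insert j s hj ih => rw [Finset.sum_insert hj, Finset.sum_insert hj, subst_add, ih]

theorem Tower.prod {k : ℕ} {ι : Type*} (s : Finset ι) (G : ι → LP K n)
    (h : ∀ i ∈ s, Tower k (G i)) : Tower k (∏ i ∈ s, G i) := by
  classical
  induction s using Finset.induction_on with
  | empty =>
    rw [Finset.prod_empty, AddMonoidAlgebra.one_def]
    exact Tower.const k 0 1 1 one_ne_zero (one_pow 1) fun _ _ => rfl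
  | insert j s hj ih =>
    rw [Finset.prod_insert hj]
    exact Tower.mul (h j (Finset.mem_insert_self _ _))
      (ih fun i hi => h i (Finset.mem_insert_of_mem hi))

/-- The polynomials `ε_0 + ∑_i ε_i z_(e_i)` are Steinberg towers. -/
theorem tower_linear {ι : Type*} [Fintype ι] (e : ι → Fin n) (he : Function.Injective e)
    (ε0 : K) (ε : ι → K) (h0 : ∃ k : ℕ, k ≠ 0 ∧ ε0 ^ k = 1)
    (h : ∀ i, ∃ k : ℕ, k ≠ 0 ∧ ε i ^ k = 1) :
    Tower n (AddMonoidAlgebra.single 0 ε0 +
      ∑ i, AddMonoidAlgebra.single (Pi.single (e i) 1) (ε i) : LP K n) := by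
  classical
  have key : ∀ k : ℕ, k ≤ n → Tower k (AddMonoidAlgebra.single 0 ε0 +
      ∑ i ∈ Finset.univ.filter (fun i => (e i).val < k),
        AddMonoidAlgebra.single (Pi.single (e i) 1) (ε i) : LP K n) := by
    intro k
    induction k with
    | zero =>
      intro _
      have h1 : Finset.univ.filter (fun i => (e i).val < 0) = ∅ := by
        ext i
        simp
      rw [h1, Finset.sum_empty, add_zero]
      obtain ⟨j, hj, hj1⟩ := h0
      exact Tower.const 0 0 ε0 j hj hj1 fun _ _ => rfl
    | succ k ih =>
      intro hk
      have ih' := ih (by omega)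
      by_cases hi : ∃ i, (e i).val = k
      · obtain ⟨i, hi⟩ := hi
        have h1 : Finset.univ.filter (fun i => (e i).val < k + 1) =
            insert i (Finset.univ.filter (fun i => (e i).val < k)) := by
          ext i'
          simp only [Finset.mem_filter, Finset.mem_univ, true_and, Finset.mem_insert]
          constructor
          · intro h2
            by_cases h3 : (e i').val < k
            · exact Or.inr h3
            · exact Or.inl (he (Fin.ext (by omega)))
          · rintro (rfl | h2)
            · omega
            · omega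
        have h2 : i ∉ Finset.univ.filter (fun i => (e i).val < k) := by
          simp [hi]
        obtain ⟨j, hj, hj1⟩ := h i
        have h3 := Tower.step (e i) hi 1 one_ne_zero
          (Tower.const (K := K) k 0 (ε i) j hj hj1 fun _ _ => rfl) ih'
        rw [AddMonoidAlgebra.single_mul_single, zero_add, mul_one] at h3
        rw [h1, Finset.sum_insert h2, add_left_comm]
        exact h3
      · have h1 : Finset.univ.filter (fun i => (e i).val < k + 1) =
            Finset.univ.filter (fun i => (e i).val < k) := by
          ext i'
          simp only [Finset.mem_filter, Finset.mem_univ, true_and]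
          constructor
          · intro h2
            by_contra h3
            exact hi ⟨i', by omega⟩
          · intro h2
            omega
        rw [h1]
        exact Tower.lift ih'
  have h1 := key n le_rfl
  have h2 : Finset.univ.filter (fun i => (e i).val < n) = Finset.univ := by
    ext i
    simp
  rwa [h2] at h1

/-- The polynomials of simplex type are Steinberg towers. -/
theorem tower_of_simplexType {G : LP K n} (hG : SimplexType G) : Tower n G := by
  classical
  obtain ⟨d, m, ε, hm, hε, rfl⟩ := hG
  have hlin := (affineIndependent_iff_linearIndependent_vsub ℤ m 0).1 hm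
  obtain ⟨e, M, he, hM, hdet⟩ := exists_complete _ hlin
  have h1 := tower_linear (K := K) e he (ε 0) (fun i => ε i) (hε 0) fun i => hε i
  have h2 := Tower.mono (k := n) M hdet (fun _ _ j hj => absurd j.isLt (not_lt.2 hj))
    (fun i hi => absurd i.isLt (not_lt.2 hi)) h1
  rw [subst_add, subst_single, subst_sum] at h2
  have h3 : ∀ i, (∑ j, (Pi.single (e i) (1 : ℤ) : Fin n → ℤ) j • M j) = M (e i) := by
    intro i
    rw [Finset.sum_eq_single (e i)]
    · rw [Pi.single_eq_same, one_smul]
    · intro j _ hj
      rw [Pi.single_eq_of_ne hj, zero_smul]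
    · intro h
      exact absurd (Finset.mem_univ _) h
  have h4 : (∑ j, (0 : Fin n → ℤ) j • M j) = 0 :=
    Finset.sum_eq_zero fun j _ => by rw [Pi.zero_apply, zero_smul]
  have h5 := Tower.mul (Tower.const (K := K) n (m 0) 1 1 one_ne_zero (one_pow 1)
    fun i hi => absurd i.isLt (not_lt.2 hi)) h2
  have h6 : (∑ i, AddMonoidAlgebra.single (m i) (ε i) : LP K n) =
      AddMonoidAlgebra.single (m 0) 1 * (AddMonoidAlgebra.single (∑ j, (0 : Fin n → ℤ) j • M j)
        (ε 0) + ∑ i, subst M (AddMonoidAlgebra.single (Pi.single (e i) 1) (ε i))) := by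
    rw [h4, mul_add, AddMonoidAlgebra.single_mul_single, add_zero, one_mul, Finset.mul_sum,
      ← Finset.add_sum_erase Finset.univ _ (Finset.mem_univ (0 : Fin (d + 1)))]
    congr 1
    rw [Finset.sum_subtype (Finset.univ.erase (0 : Fin (d + 1))) (p := fun i => i ≠ 0)
      (fun i => by simp)]
    refine Finset.sum_congr rfl fun i _ => ?_
    rw [subst_single, h3, AddMonoidAlgebra.single_mul_single, one_mul, hM, vsub_eq_sub,
      add_sub_cancel]
  rw [h6]
  exact h5

/-- The divisors of products of polynomials of simplex type are divisors of Steinberg towers. -/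
theorem tameS_of_tame {W : LP K n} (hW : Tame W) : TameS W := by
  obtain ⟨Q, r, G, hQ0, hQ, hG, hprod⟩ := hW
  refine ⟨Q, hQ0, hQ, ?_⟩
  rw [hprod]
  exact Tower.prod _ _ fun j _ => tower_of_simplexType (hG j)

end Pool.Agent.U374.St
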