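import Pool.Agent.U374.St.Pure
set_option autoImplicit false

/-!
Curves `λ z^b ∏_e P_e(z) ^ (m_e + 1) = 1` in the torus with the coordinates `z_0, z_1`: definitions,
and the combinations of the symbols `{P_e, P_e'}`, `{P_e, z_i}`, `{z_0, z_1}` which are unramified.
-/

namespace Pool.Agent.U374.St

open scoped WithZero

open Pool.Agent.TH826.MK

open Pool.Agent.N65.TL

section defs

variable {K : Type*} [Field K] {r : ℕ}

/-- `ζ` is a root of unity. -/
def Root (ζ : K) : Prop := ∃ j : ℕ, j ≠ 0 ∧ ζ ^ j = 1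

/-- The face polynomial of `P` for the functional `a` is a monomial `ζ z^n`. -/
def MonoFace (P : LP K 2) (a : Fin 2 → ℤ) : Prop :=
  ∃ (n : Fin 2 → ℤ) (ζ : K), Root ζ ∧ face a P = AddMonoidAlgebra.single n ζ

/-- The face polynomial of `P` for the functional `a` is a binomial `ζ z^n + ζ' z^n'`. -/
def BinFace (P : LP K 2) (a : Fin 2 → ℤ) : Prop :=
  ∃ (n n' : Fin 2 → ℤ) (ζ ζ' : K), n ≠ n' ∧ Root ζ ∧ Root ζ' ∧
    face a P = AddMonoidAlgebra.single n ζ + AddMonoidAlgebra.single n' ζ'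

/-- The data of a curve `λ z^b ∏_e P_e(z) ^ (m_e + 1) = 1`. -/
structure Arr (K : Type*) [Field K] (r : ℕ) where
  /-- the Laurent polynomials -/
  P : Fin r → LP K 2
  /-- the multiplicities -/
  m : Fin r → ℕ
  /-- the exponent of the monomial -/
  b : Fin 2 → ℤ

variable (A : Arr K r)

/-- The Laurent polynomials `P_e` and the variables `z_0`, `z_1`. -/
noncomputable def Arr.poly : Fin r ⊕ Fin 2 → LP K 2 :=
  Sum.elim A.P fun l => AddMonoidAlgebra.single (Pi.single l 1) 1

/-- The Laurent polynomial `z^b ∏_e P_e ^ (m_e + 1)`. -/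
noncomputable def Arr.W : LP K 2 := AddMonoidAlgebra.single A.b 1 * ∏ e, A.P e ^ (A.m e + 1)

/-- The conditions: integral coefficients, and the polynomials of the proper faces of the Newton
polygons are monomials or binomials with roots of unity as coefficients. -/
structure Arr.Admissible (A : Arr K r) : Prop where
  /-- integral coefficients -/
  int : ∀ e, Integral (A.P e)
  /-- the faces -/
  faces : ∀ e (a : Fin 2 → ℤ), a ≠ 0 → MonoFace (A.P e) a ∨ BinFace (A.P e) a

/-- The coordinate ring of the curve `λ z^b ∏_e P_e(z) ^ (m_e + 1) = 1`, `z_i ≠ 0`. -/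
abbrev Arr.Ring (lam : K) : Type _ := HRing (s := 1) A.W lam⁻¹

/-- The units `P_e`, `z_0`, `z_1` of the coordinate ring. -/
noncomputable def Arr.unit (lam : K) (e : Fin r ⊕ Fin 2) : (A.Ring lam)ˣ :=
  open Classical in
    if h : IsUnit (hmk (s := 1) A.W lam⁻¹ (A.poly e)) then h.unit else 1

/-- The combination `∑_(i, j) β_(i, j) {P_i, P_j}`, where `P_i` runs through the `P_e` and the
`z_l`. -/
noncomputable def Arr.cls (lam : K) (β : Fin r ⊕ Fin 2 → Fin r ⊕ Fin 2 → ℤ) :
    KQ (A.Ring lam) 2 :=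
  ∑ i, ∑ j, (β i j : ℚ) • symb ![A.unit lam i, A.unit lam j]

/-- The conditions on the coefficients `β`: for every functional `a ≠ 0` there are vertices `n_i` of
the faces of the Newton polygons of the `P_i` on which `a` is maximal, such that
`∑_(i, j) β_(i, j) det (n_i, n_j) = 0`, `∑_j (β_(i, j) - β_(j, i)) a(n_j) = 0` if the face of `P_i`
is not a vertex, and `β_(i, j) = 0` for `i ≠ j` if neither face is a vertex. -/
def Arr.Adm (β : Fin r ⊕ Fin 2 → Fin r ⊕ Fin 2 → ℤ) : Prop :=
  ∀ a : Fin 2 → ℤ, a ≠ 0 → ∃ n : Fin r ⊕ Fin 2 → Fin 2 → ℤ,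
    (∀ i, (face a (A.poly i)).coeff (n i) ≠ 0) ∧
    ∑ i, ∑ j, β i j * (n i 0 * n j 1 - n i 1 * n j 0) = 0 ∧
    (∀ i, ¬ MonoFace (A.poly i) a →
      ∑ l, a l * ∑ j, (β i j - β j i) * n j l = 0) ∧
    ∀ i j, i ≠ j → ¬ MonoFace (A.poly i) a → ¬ MonoFace (A.poly j) a → β i j = 0

end defs

section face

variable {K : Type*} [Field K] {n : ℕ}

theorem coeff_face (a : Fin n → ℤ) (W : LP K n) (x : Fin n → ℤ) (h : (face a W).coeff x ≠ 0) :
    (face a W).coeff x = W.coeff x ∧ W.coeff x ≠ 0 ∧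
      ∀ m', W.coeff m' ≠ 0 → ∑ i, a i * m' i ≤ ∑ i, a i * x i := by
  classical
  unfold face at h ⊢
  rw [AddMonoidAlgebra.coeff_sum, Finsupp.finsetSum_apply] at h ⊢
  obtain ⟨m, hm, hne⟩ := Finset.exists_ne_zero_of_sum_ne_zero h
  have hxm : x = m := by
    by_contra hc
    rw [AddMonoidAlgebra.coeff_single] at hne
    exact hne (Finsupp.single_eq_of_ne hc)
  subst hxm
  obtain ⟨h1, h2⟩ := Finset.mem_filter.1 hm
  refine ⟨?_, Finsupp.mem_support_iff.1 h1, h2⟩
  rw [Finset.sum_eq_single x]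
  · rw [AddMonoidAlgebra.coeff_single, Finsupp.single_eq_same]
  · intro m _ hne
    rw [AddMonoidAlgebra.coeff_single]
    exact Finsupp.single_eq_of_ne (Ne.symm hne)
  · intro h3
    exact absurd hm h3

theorem face_single (a : Fin n → ℤ) (m : Fin n → ℤ) {c : K} (hc : c ≠ 0) :
    face a (AddMonoidAlgebra.single m c : LP K n) = AddMonoidAlgebra.single m c := by
  classical
  unfold face
  have h0 : (AddMonoidAlgebra.single m c : LP K n).coeff.support = {m} := by
    rw [AddMonoidAlgebra.coeff_single, Finsupp.support_single m hc]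
  have h2 : ∀ m' : Fin n → ℤ, (AddMonoidAlgebra.single m c : LP K n).coeff m' ≠ 0 → m' = m := by
    intro m' h
    have h3 := Finsupp.mem_support_iff.2 h
    rw [h0] at h3
    exact Finset.mem_singleton.1 h3
  have h1 : ((AddMonoidAlgebra.single m c : LP K n).coeff.support.filter fun x => ∀ m',
      (AddMonoidAlgebra.single m c : LP K n).coeff m' ≠ 0 →
        ∑ i, a i * m' i ≤ ∑ i, a i * x i) = {m} := by
    rw [h0]
    ext x
    rw [Finset.mem_filter, Finset.mem_singleton]
    constructor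
    · exact fun h => h.1
    · rintro rfl
      exact ⟨rfl, fun m' hm' => by rw [h2 m' hm']⟩
  rw [h1, Finset.sum_singleton, AddMonoidAlgebra.coeff_single, Finsupp.single_eq_same]

variable {L : Type*} [Field L]

/-- The difference of a Laurent polynomial and its face polynomial is smaller than the monomials of
the face. -/
theorem face_close (φ : K →+* L) (v : Valuation L ℤᵐ⁰) (z : Fin n → Lˣ) {k : Fin n → ℤ}
    (hvm : ∀ m : Fin n → ℤ, v ((mon z m : Lˣ) : L) = WithZero.exp (∑ j, k j * m j))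
    {P : LP K n} (hP : Integral P) {x : Fin n → ℤ} (hx : (face k P).coeff x ≠ 0) :
    v (lev φ z P - lev φ z (face k P)) < v ((mon z x : Lˣ) : L) := by
  classical
  obtain ⟨-, -, hmax⟩ := coeff_face k P x hx
  have h1 : lev φ z P - lev φ z (face k P) = ∑ m ∈ P.coeff.support.filter (fun m => ¬ ∀ m',
      P.coeff m' ≠ 0 → ∑ i, k i * m' i ≤ ∑ i, k i * m i),
      φ (P.coeff m) * ((mon z m : Lˣ) : L) := by
    rw [lev_eq φ z P, ← Finset.sum_filter_add_sum_filter_not P.coeff.support (fun m => ∀ m',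
      P.coeff m' ≠ 0 → ∑ i, k i * m' i ≤ ∑ i, k i * m i)]
    have h2 : lev φ z (face k P) = ∑ m ∈ P.coeff.support.filter (fun m => ∀ m',
      P.coeff m' ≠ 0 → ∑ i, k i * m' i ≤ ∑ i, k i * m i),
      φ (P.coeff m) * ((mon z m : Lˣ) : L) := by
      unfold face
      rw [map_sum]
      exact Finset.sum_congr rfl fun m _ => lev_single _ _ _ _
    rw [h2, add_sub_cancel_left]
  rw [h1, hvm]
  refine Valuation.map_sum_lt v (by exact WithZero.exp_ne_zero) fun m hm => ?_
  obtain ⟨-, hnot⟩ := Finset.mem_filter.1 hm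
  push Not at hnot
  obtain ⟨m', hm', hlt⟩ := hnot
  rw [map_mul, hvm]
  refine (mul_le_mul' (val_le_one_of_integral v (map_isIntegral_int φ (hP m))) le_rfl).trans_lt ?_
  rw [one_mul, WithZero.exp_lt_exp]
  exact hlt.trans_le (hmax m' hm')

end face

section bilin

variable {L : Type*} [Field L]

theorem upd0 (x y w : Lˣ) : Function.update ![x, y] 0 w = ![w, y] := by
  funext i
  fin_cases i <;> rfl

theorem upd1 (x y w : Lˣ) : Function.update ![x, y] 1 w = ![x, w] := by
  funext i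
  fin_cases i <;> rfl

/-- The symbols with two entries, as a bilinear map. -/
noncomputable def Bh : Additive Lˣ →+ Additive Lˣ →+ KQ L 2 :=
  AddMonoidHom.mk' (fun x => AddMonoidHom.mk' (fun y => symb ![x.toMul, y.toMul]) fun y y' => by
    rw [toMul_add, ← upd1 x.toMul 1 (y.toMul * y'.toMul), symb_update_mul, upd1, upd1])
    fun x x' => by
      refine AddMonoidHom.ext fun y => ?_
      show symb ![(x + x').toMul, y.toMul] = symb ![x.toMul, y.toMul] + symb ![x'.toMul, y.toMul]
      rw [toMul_add, ← upd0 1 y.toMul (x.toMul * x'.toMul), symb_update_mul, upd0, upd0]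

theorem Bh_apply (x y : Lˣ) : Bh (Additive.ofMul x) (Additive.ofMul y) = symb ![x, y] := rfl

theorem Bh_self (x : Additive Lˣ) : Bh x x = 0 :=
  Pool.Agent.TH826.SX.symb_self (![x.toMul, x.toMul]) (i := 0) (j := 1) (by decide) rfl

theorem Bh_symm (x y : Additive Lˣ) : Bh x y = - Bh y x := by
  have h := Bh_self (x + y)
  simp only [map_add, AddMonoidHom.add_apply, Bh_self, zero_add, add_zero] at h
  exact eq_neg_of_add_eq_zero_right h

theorem Bh_root (x y : Additive Lˣ) {k : ℕ} (hk : k ≠ 0) (h : k • x = 0) : Bh x y = 0 := by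
  have h1 : k • Bh x y = 0 := by
    rw [← AddMonoidHom.nsmul_apply, ← map_nsmul, h, map_zero, AddMonoidHom.zero_apply]
  rw [← Nat.cast_smul_eq_nsmul ℚ] at h1
  exact (smul_eq_zero.1 h1).resolve_left (by exact_mod_cast hk)

/-- The algebra: the combination `∑ β_(i, j) {u_i, u_j}`, `u_i = ζ_i z^(n_i) w_i`. -/
theorem sum_mem {E : Type*} [Fintype E] (v : Valuation L ℤᵐ⁰) (z : Fin 2 → Lˣ)
    (β : E → E → ℤ) (u w ζ : E → Lˣ) (hζ : ∀ e, ∃ k : ℕ, k ≠ 0 ∧ ζ e ^ k = 1)
    (n : E → Fin 2 → ℤ) (hu : ∀ e, u e = ζ e * mon z (n e) * w e)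
    (h1 : ∑ i, ∑ j, β i j * (n i 0 * n j 1 - n i 1 * n j 0) = 0)
    (hx : ∀ i, symb ![w i, mon z (∑ j, (β i j - β j i) • n j)] ∈ unitPart v 2)
    (hw : ∀ i j, β i j = 0 ∨ symb ![w i, w j] ∈ unitPart v 2) :
    ∑ i, ∑ j, (β i j : ℚ) • symb ![u i, u j] ∈ unitPart v 2 := by
  classical
  set N : E → Additive Lˣ := fun e => Additive.ofMul (mon z (n e)) with hN
  set w' : E → Additive Lˣ := fun e => Additive.ofMul (w e) with hw'
  have hmon : ∀ m : Fin 2 → ℤ, Additive.ofMul (mon z m) =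
      m 0 • Additive.ofMul (z 0) + m 1 • Additive.ofMul (z 1) := by
    intro m
    unfold mon
    rw [Fin.prod_univ_two, ofMul_mul, ofMul_zpow, ofMul_zpow]
  have hNN : ∀ i j, Bh (N i) (N j) = (n i 0 * n j 1 - n i 1 * n j 0) •
      Bh (Additive.ofMul (z 0)) (Additive.ofMul (z 1)) := by
    intro i j
    simp only [hN, hmon, map_add, map_zsmul, AddMonoidHom.add_apply, AddMonoidHom.zsmul_apply,
      Bh_self, smul_zero]
    rw [Bh_symm (Additive.ofMul (z 1)) (Additive.ofMul (z 0))]
    simp only [zero_add, add_zero, smul_neg, smul_smul, sub_smul]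
    rw [mul_comm (n j 0) (n i 1), mul_comm (n j 1) (n i 0)]
    abel
  have hexp : ∀ i j, symb ![u i, u j] = Bh (N i) (N j) + Bh (N i) (w' j) + Bh (w' i) (N j) +
      Bh (w' i) (w' j) := by
    intro i j
    rw [← Bh_apply, hu i, hu j, ofMul_mul, ofMul_mul, ofMul_mul, ofMul_mul]
    have hz : ∀ e y, Bh (Additive.ofMul (ζ e)) y = 0 := by
      intro e y
      obtain ⟨k, hk, hk1⟩ := hζ e
      exact Bh_root _ _ hk (by rw [← ofMul_pow, hk1, ofMul_one])
    have hz' : ∀ e y, Bh y (Additive.ofMul (ζ e)) = 0 := by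
      intro e y
      rw [Bh_symm, hz, neg_zero]
    simp only [map_add, AddMonoidHom.add_apply, hz, hz', zero_add]
    abel
  have hmonx : ∀ i, Bh (w' i) (Additive.ofMul (mon z (∑ j, (β i j - β j i) • n j))) =
      ∑ j, (β i j - β j i) • Bh (w' i) (N j) := by
    intro i
    have h2 : Additive.ofMul (mon z (∑ j, (β i j - β j i) • n j)) =
        ∑ j, (β i j - β j i) • N j := by
      have hss : ∀ (f : E → ℤ) (x : Additive Lˣ), (∑ j, f j) • x = ∑ j, f j • x :=
        fun f x => map_sum (zmultiplesHom (Additive Lˣ) x) f Finset.univ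
      rw [hmon]
      simp only [Finset.sum_apply, Pi.smul_apply, smul_eq_mul]
      rw [hss, hss, ← Finset.sum_add_distrib]
      refine Finset.sum_congr rfl fun j _ => ?_
      have hNj : N j = n j 0 • Additive.ofMul (z 0) + n j 1 • Additive.ofMul (z 1) := hmon (n j)
      rw [hNj, zsmul_add, mul_zsmul, mul_zsmul]
    rw [h2, map_sum]
    simp only [map_zsmul]
  have hsum : ∑ i, ∑ j, (β i j : ℚ) • symb ![u i, u j] =
      ∑ i, symb ![w i, mon z (∑ j, (β i j - β j i) • n j)] +
        ∑ i, ∑ j, β i j • symb ![w i, w j] := by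
    simp only [Int.cast_smul_eq_zsmul, hexp, smul_add, Finset.sum_add_distrib]
    have e1 : ∑ i, ∑ j, β i j • Bh (N i) (N j) = 0 := by
      simp only [hNN, smul_smul]
      simp only [← Finset.sum_smul]
      rw [h1, zero_smul]
    have e2 : ∑ i, ∑ j, β i j • Bh (N i) (w' j) = - ∑ i, ∑ j, β j i • Bh (w' i) (N j) := by
      rw [Finset.sum_comm, ← Finset.sum_neg_distrib]
      refine Finset.sum_congr rfl fun i _ => ?_
      rw [← Finset.sum_neg_distrib]
      refine Finset.sum_congr rfl fun j _ => ?_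
      rw [Bh_symm (N j) (w' i), smul_neg]
    have e3 : ∑ i, symb ![w i, mon z (∑ j, (β i j - β j i) • n j)] =
        ∑ i, ∑ j, β i j • Bh (w' i) (N j) - ∑ i, ∑ j, β j i • Bh (w' i) (N j) := by
      rw [← Finset.sum_sub_distrib]
      refine Finset.sum_congr rfl fun i _ => ?_
      rw [← Bh_apply, ← Finset.sum_sub_distrib]
      refine (hmonx i).trans (Finset.sum_congr rfl fun j _ => sub_smul _ _ _)
    have e4 : ∑ i, ∑ j, β i j • Bh (w' i) (w' j) = ∑ i, ∑ j, β i j • symb ![w i, w j] := rfl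
    rw [e1, e2, e3, e4]
    abel
  rw [hsum]
  refine Submodule.add_mem _ (Submodule.sum_mem _ fun i _ => hx i)
    (Submodule.sum_mem _ fun i _ => Submodule.sum_mem _ fun j _ => ?_)
  rcases hw i j with h | h
  · rw [h, zero_smul]
    exact Submodule.zero_mem _
  · exact zsmul_mem h _

end bilin

end Pool.Agent.U374.St
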