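import Pool.Agent.U374.St.ArrG
set_option autoImplicit false

/-!
The classes `{P_i / P_(i0), P_j / P_(j0)}`.
-/

namespace Pool.Agent.U374.St

open Pool.Agent.TH826.MK

open Pool.Agent.N65.TL

section bil

variable {R : Type*} [CommRing R]

theorem symb_div_left (x y z : Rˣ) : symb ![x / y, z] = symb ![x, z] - symb ![y, z] := by
  have h := symb_update_mul ![x, z] 0 (x / y) y
  rw [div_mul_cancel] at h
  have e1 : Function.update ![x, z] 0 x = ![x, z] := by simp
  have e2 : Function.update ![x, z] 0 (x / y) = ![x / y, z] := by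
    ext l; fin_cases l <;> simp
  have e3 : Function.update ![x, z] 0 y = ![y, z] := by
    ext l; fin_cases l <;> simp
  rw [e1, e2, e3] at h
  rw [h, add_sub_cancel_right]

theorem symb_div_right (x y z : Rˣ) : symb ![x, y / z] = symb ![x, y] - symb ![x, z] := by
  have h := symb_update_mul ![x, y] 1 (y / z) z
  rw [div_mul_cancel] at h
  have e1 : Function.update ![x, y] 1 y = ![x, y] := by
    ext l; fin_cases l <;> simp
  have e2 : Function.update ![x, y] 1 (y / z) = ![x, y / z] := by
    ext l; fin_cases l <;> simp
  have e3 : Function.update ![x, y] 1 z = ![x, z] := by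
    ext l; fin_cases l <;> simp
  rw [e1, e2, e3] at h
  rw [h, add_sub_cancel_right]

variable {K : Type*} [Field K] {r : ℕ} {A : Arr K r}

theorem cls_gridc (lam : K) (i0 j0 i j : Fin r) : A.cls lam (gridc i0 j0 i j) =
    symb ![A.unit lam (Sum.inl i) / A.unit lam (Sum.inl i0),
      A.unit lam (Sum.inl j) / A.unit lam (Sum.inl j0)] := by
  classical
  have hs : ∀ (x y : Fin r ⊕ Fin 2), ∑ e, ∑ e', ((if e = x ∧ e' = y then (1 : ℤ) else 0 : ℤ) : ℚ) •
      symb ![A.unit lam e, A.unit lam e'] = symb ![A.unit lam x, A.unit lam y] := by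
    intro x y
    rw [Finset.sum_eq_single x]
    · rw [Finset.sum_eq_single y]
      · rw [if_pos ⟨rfl, rfl⟩, Int.cast_one, one_smul]
      · intro e' _ h
        rw [if_neg fun hh => h hh.2, Int.cast_zero, zero_smul]
      · intro h
        exact absurd (Finset.mem_univ _) h
    · intro e _ h
      exact Finset.sum_eq_zero fun e' _ => by
        rw [if_neg fun hh => h hh.1, Int.cast_zero, zero_smul]
    · intro h
      exact absurd (Finset.mem_univ _) h
  unfold Arr.cls gridc
  simp only [Int.cast_add, Int.cast_sub, add_smul, sub_smul, Finset.sum_add_distrib,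
    Finset.sum_sub_distrib, hs]
  rw [symb_div_left, symb_div_right, symb_div_right]
  abel

end bil

end Pool.Agent.U374.St
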