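import Pool.Agent.U374.St.ArrZ
set_option autoImplicit false

/-!
Curves `λ z^b ∏_e P_e(z) ^ (m_e + 1) = 1` where the `P_e` belong to two groups of polynomials with the
same Newton polygon: the classes `{P_i / P_(i0), P_j / P_(j0)}`.
-/

namespace Pool.Agent.U374.St

open Pool.Agent.TH826.MK

open Pool.Agent.N65.TL

section grid

variable {K : Type*} [Field K] {r : ℕ}

/-- The `P_e` belong to two groups: the polynomials of each group have common vertices of the Newton
polygons in all directions, and the Newton polygons of different groups have no edges with the same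
outer normal. -/
structure Arr.Grid (A : Arr K r) (s : Fin r → Bool) : Prop where
  /-- common vertices -/
  same : ∀ e e', s e = s e' → ∀ a : Fin 2 → ℤ, a ≠ 0 → ∃ n,
    (face a (A.P e)).coeff n ≠ 0 ∧ (face a (A.P e')).coeff n ≠ 0
  /-- no common outer normals -/
  disj : ∀ e e', s e ≠ s e' → ∀ a : Fin 2 → ℤ, a ≠ 0 →
    MonoFace (A.P e) a ∨ MonoFace (A.P e') a

/-- The coefficients of `{P_i, P_j} - {P_i, P_(j0)} - {P_(i0), P_j} + {P_(i0), P_(j0)}`. -/
def gridc (i0 j0 i j : Fin r) (x y : Fin r ⊕ Fin 2) : ℤ :=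
  (if x = Sum.inl i ∧ y = Sum.inl j then 1 else 0) -
  (if x = Sum.inl i ∧ y = Sum.inl j0 then 1 else 0) -
  (if x = Sum.inl i0 ∧ y = Sum.inl j then 1 else 0) +
  (if x = Sum.inl i0 ∧ y = Sum.inl j0 then 1 else 0)

theorem gridc_eq (i0 j0 i j : Fin r) (x y : Fin r ⊕ Fin 2) : gridc i0 j0 i j x y =
    elc (Sum.inl i) (Sum.inl j) 1 x y - elc (Sum.inl i) (Sum.inl j0) 1 x y -
      elc (Sum.inl i0) (Sum.inl j) 1 x y + elc (Sum.inl i0) (Sum.inl j0) 1 x y := rfl

variable {A : Arr K r} {s : Fin r → Bool}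

theorem exists_coeff_face (hA : A.Admissible) (e : Fin r) {a : Fin 2 → ℤ} (ha : a ≠ 0) :
    ∃ n, (face a (A.P e)).coeff n ≠ 0 := by
  classical
  rcases hA.faces e a ha with ⟨n, ζ, h1, h2⟩ | ⟨n, n', ζ, ζ', hn, h1, h2, h3⟩
  · refine ⟨n, ?_⟩
    rw [h2, AddMonoidAlgebra.coeff_single, Finsupp.single_eq_same]
    exact h1.ne_zero
  · refine ⟨n, ?_⟩
    rw [h3, AddMonoidAlgebra.coeff_add, Finsupp.add_apply, AddMonoidAlgebra.coeff_single,
      AddMonoidAlgebra.coeff_single, Finsupp.single_eq_same, Finsupp.single_eq_of_ne hn, add_zero]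
    exact h1.ne_zero

theorem Arr.Grid.adm (hA : A.Admissible) (hG : A.Grid s) {i0 j0 i j : Fin r} (h1 : s i0 = false)
    (h2 : s j0 = true) (h3 : s i = false) (h4 : s j = true) (hi : i ≠ i0) (hj : j ≠ j0) :
    A.Adm (gridc i0 j0 i j) := by
  classical
  intro a ha
  have hij : i ≠ j := fun h => by rw [h, h4] at h3; exact Bool.noConfusion h3
  have hij0 : i ≠ j0 := fun h => by rw [h, h2] at h3; exact Bool.noConfusion h3
  have hi0j : i0 ≠ j := fun h => by rw [h, h4] at h1; exact Bool.noConfusion h1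
  have hi0j0 : i0 ≠ j0 := fun h => by rw [h, h2] at h1; exact Bool.noConfusion h1
  obtain ⟨v, hv, hv0⟩ := hG.same i i0 (h3.trans h1.symm) a ha
  obtain ⟨w, hw, hw0⟩ := hG.same j j0 (h4.trans h2.symm) a ha
  choose x hx using fun e => exists_coeff_face hA e ha
  set N : Fin r → Fin 2 → ℤ := fun e =>
    if e = i ∨ e = i0 then v else if e = j ∨ e = j0 then w else x e with hN
  have hNi : N i = v := if_pos (Or.inl rfl)
  have hNi0 : N i0 = v := if_pos (Or.inr rfl)
  have hNj : N j = w := by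
    rw [hN]
    show (if j = i ∨ j = i0 then v else if j = j ∨ j = j0 then w else x j) = w
    rw [if_neg (by push Not; exact ⟨hij.symm, hi0j.symm⟩), if_pos (Or.inl rfl)]
  have hNj0 : N j0 = w := by
    rw [hN]
    show (if j0 = i ∨ j0 = i0 then v else if j0 = j ∨ j0 = j0 then w else x j0) = w
    rw [if_neg (by push Not; exact ⟨hij0.symm, hi0j0.symm⟩), if_pos (Or.inr rfl)]
  set n : Fin r ⊕ Fin 2 → Fin 2 → ℤ := Sum.elim N fun l => Pi.single l 1 with hn
  have hnl : ∀ e, n (Sum.inl e) = N e := fun e => rfl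
  refine ⟨n, ?_, ?_, ?_, ?_⟩
  · intro e
    rcases e with e | l
    · show (face a (A.P e)).coeff (N e) ≠ 0
      by_cases e1 : e = i
      · rw [e1, hNi]
        exact hv
      by_cases e2 : e = i0
      · rw [e2, hNi0]
        exact hv0
      by_cases e3 : e = j
      · rw [e3, hNj]
        exact hw
      by_cases e4 : e = j0
      · rw [e4, hNj0]
        exact hw0
      have e5 : N e = x e := by
        rw [hN]
        show (if e = i ∨ e = i0 then v else if e = j ∨ e = j0 then w else x e) = x e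
        rw [if_neg (by push Not; exact ⟨e1, e2⟩), if_neg (by push Not; exact ⟨e3, e4⟩)]
      rw [e5]
      exact hx e
    · show (face a (AddMonoidAlgebra.single (Pi.single l 1) 1)).coeff (Pi.single l 1) ≠ 0
      rw [face_single a _ one_ne_zero, AddMonoidAlgebra.coeff_single, Finsupp.single_eq_same]
      exact one_ne_zero
  · simp only [gridc_eq, add_mul, sub_mul, Finset.sum_add_distrib, Finset.sum_sub_distrib]
    rw [sum_elc, sum_elc, sum_elc, sum_elc]
    simp only [hnl, hNi, hNi0, hNj, hNj0]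
    ring
  · intro e hm
    refine Finset.sum_eq_zero fun l _ => ?_
    have h5 : ∑ y, (gridc i0 j0 i j e y - gridc i0 j0 i j y e) * n y l = 0 := by
      simp only [gridc_eq, add_mul, sub_mul, Finset.sum_add_distrib, Finset.sum_sub_distrib,
        row_elc, col_elc]
      simp only [hnl, hNi, hNi0, hNj, hNj0]
      split_ifs <;> ring
    rw [h5, mul_zero]
  · intro e e' _ he he'
    rcases e with e | l
    · rcases e' with e' | l'
      · by_cases hs : s e = s e'
        · unfold gridc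
          have c1 : ¬ ((Sum.inl e : Fin r ⊕ Fin 2) = Sum.inl i ∧
              (Sum.inl e' : Fin r ⊕ Fin 2) = Sum.inl j) := fun hh => by
            rw [Sum.inl.inj hh.1, Sum.inl.inj hh.2, h3, h4] at hs
            exact Bool.noConfusion hs
          have c2 : ¬ ((Sum.inl e : Fin r ⊕ Fin 2) = Sum.inl i ∧
              (Sum.inl e' : Fin r ⊕ Fin 2) = Sum.inl j0) := fun hh => by
            rw [Sum.inl.inj hh.1, Sum.inl.inj hh.2, h3, h2] at hs
            exact Bool.noConfusion hs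
          have c3 : ¬ ((Sum.inl e : Fin r ⊕ Fin 2) = Sum.inl i0 ∧
              (Sum.inl e' : Fin r ⊕ Fin 2) = Sum.inl j) := fun hh => by
            rw [Sum.inl.inj hh.1, Sum.inl.inj hh.2, h1, h4] at hs
            exact Bool.noConfusion hs
          have c4 : ¬ ((Sum.inl e : Fin r ⊕ Fin 2) = Sum.inl i0 ∧
              (Sum.inl e' : Fin r ⊕ Fin 2) = Sum.inl j0) := fun hh => by
            rw [Sum.inl.inj hh.1, Sum.inl.inj hh.2, h1, h2] at hs
            exact Bool.noConfusion hs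
          rw [if_neg c1, if_neg c2, if_neg c3, if_neg c4]
          rfl
        · rcases hG.disj e e' hs a ha with h5 | h5
          · exact absurd h5 he
          · exact absurd h5 he'
      · exact absurd ⟨Pi.single l' 1, 1, ⟨1, one_ne_zero, one_pow _⟩,
          face_single a _ one_ne_zero⟩ he'
    · exact absurd ⟨Pi.single l 1, 1, ⟨1, one_ne_zero, one_pow _⟩,
        face_single a _ one_ne_zero⟩ he

/-- The pairs `(i, j)` with `i ≠ i0` in the first and `j ≠ j0` in the second group. -/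
abbrev GPairs (s : Fin r → Bool) (i0 j0 : Fin r) : Type :=
  {t : Fin r × Fin r // (s t.1 = false ∧ t.1 ≠ i0) ∧ s t.2 = true ∧ t.2 ≠ j0}

theorem nodes_gridc {i0 j0 : Fin r} (h1 : s i0 = false) (h2 : s j0 = true) (σ : K →+* ℂ) (S : Finset (GPairs s i0 j0))
    (hS : ∀ t ∈ S, A.HasNode σ t.1.1 t.1.2) :
    A.Nodes σ fun t : S => gridc i0 j0 t.1.1.1 t.1.1.2 := by
  classical
  refine ⟨fun t => t.1.1.1, fun t => t.1.1.2, fun t => hS t.1 t.2, ?_⟩
  have hM : (Matrix.of fun t t' : S => gridc i0 j0 t'.1.1.1 t'.1.1.2 (Sum.inl t.1.1.1)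
      (Sum.inl t.1.1.2) - gridc i0 j0 t'.1.1.1 t'.1.1.2 (Sum.inl t.1.1.2) (Sum.inl t.1.1.1)) =
      1 := by
    ext t t'
    rw [Matrix.of_apply]
    unfold gridc
    have ht := t.1.2
    have ht' := t'.1.2
    have n2 : ¬ ((Sum.inl t.1.1.1 : Fin r ⊕ Fin 2) = Sum.inl t'.1.1.1 ∧
        (Sum.inl t.1.1.2 : Fin r ⊕ Fin 2) = Sum.inl j0) := fun hh => ht.2.2 (Sum.inl.inj hh.2)
    have n3 : ¬ ((Sum.inl t.1.1.1 : Fin r ⊕ Fin 2) = Sum.inl i0 ∧
        (Sum.inl t.1.1.2 : Fin r ⊕ Fin 2) = Sum.inl t'.1.1.2) := fun hh =>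
      ht.1.2 (Sum.inl.inj hh.1)
    have n4 : ¬ ((Sum.inl t.1.1.1 : Fin r ⊕ Fin 2) = Sum.inl i0 ∧
        (Sum.inl t.1.1.2 : Fin r ⊕ Fin 2) = Sum.inl j0) := fun hh => ht.1.2 (Sum.inl.inj hh.1)
    have n5 : ¬ ((Sum.inl t.1.1.2 : Fin r ⊕ Fin 2) = Sum.inl t'.1.1.1 ∧
        (Sum.inl t.1.1.1 : Fin r ⊕ Fin 2) = Sum.inl t'.1.1.2) := fun hh => by
      have e1 := Sum.inl.inj hh.1
      have e2 := ht.2.1
      rw [e1, ht'.1.1] at e2
      exact Bool.noConfusion e2
    have n6 : ¬ ((Sum.inl t.1.1.2 : Fin r ⊕ Fin 2) = Sum.inl t'.1.1.1 ∧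
        (Sum.inl t.1.1.1 : Fin r ⊕ Fin 2) = Sum.inl j0) := fun hh => by
      have e1 := Sum.inl.inj hh.1
      have e2 := ht.2.1
      rw [e1, ht'.1.1] at e2
      exact Bool.noConfusion e2
    have n7 : ¬ ((Sum.inl t.1.1.2 : Fin r ⊕ Fin 2) = Sum.inl i0 ∧
        (Sum.inl t.1.1.1 : Fin r ⊕ Fin 2) = Sum.inl t'.1.1.2) := fun hh => by
      have e1 := Sum.inl.inj hh.2
      have e2 := ht.1.1
      rw [e1, ht'.2.1] at e2
      exact Bool.noConfusion e2
    have n8 : ¬ ((Sum.inl t.1.1.2 : Fin r ⊕ Fin 2) = Sum.inl i0 ∧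
        (Sum.inl t.1.1.1 : Fin r ⊕ Fin 2) = Sum.inl j0) := fun hh => by
      have e1 := Sum.inl.inj hh.2
      have e2 := ht.1.1
      rw [e1, h2] at e2
      exact Bool.noConfusion e2
    rw [if_neg n2, if_neg n3, if_neg n4, if_neg n5, if_neg n6, if_neg n7, if_neg n8]
    by_cases htt : t = t'
    · subst htt
      rw [if_pos ⟨rfl, rfl⟩, Matrix.one_apply_eq]
      norm_num
    · rw [Matrix.one_apply_ne htt, if_neg]
      · norm_num
      · rintro ⟨e1, e2⟩
        exact htt (Subtype.ext (Subtype.ext (Prod.ext (Sum.inl.inj e1) (Sum.inl.inj e2))))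
  have hd : (Matrix.of fun t t' : S => gridc i0 j0 t'.1.1.1 t'.1.1.2 (Sum.inl t.1.1.1)
      (Sum.inl t.1.1.2) - gridc i0 j0 t'.1.1.1 t'.1.1.2 (Sum.inl t.1.1.2)
      (Sum.inl t.1.1.1)).det ≠ 0 := by
    rw [hM, Matrix.det_one]
    exact one_ne_zero
  exact hd

end grid

end Pool.Agent.U374.St
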