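import Pool.Agent.U374.St.ArrP
set_option autoImplicit false

/-!
Curves `λ z^b ∏_e (z^(u_e) - c_e) ^ (m_e + 1) = 1` with roots of unity `c_e`.
-/

namespace Pool.Agent.U374.St

open Pool.Agent.TH826.MK

open Pool.Agent.N65.TL

section binom

variable {K : Type*} [Field K] {r : ℕ}

/-- The data of the curve `λ z^b ∏_e (z^(u_e) - c_e) ^ (m_e + 1) = 1`. -/
noncomputable def binArr (u : Fin r → Fin 2 → ℤ) (c : Fin r → K) (m : Fin r → ℕ)
    (b : Fin 2 → ℤ) : Arr K r where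
  P e := AddMonoidAlgebra.single 0 (-c e) + AddMonoidAlgebra.single (u e) 1
  m := m
  b := b

/-- There is no common zero of the binomials with the indices `e`, `j`, `k` in the torus. -/
def Free (u : Fin r → Fin 2 → ℤ) (c : Fin r → K) (e j k : Fin r) : Prop :=
  c e ^ wdg (u j) (u k) * c j ^ wdg (u k) (u e) * c k ^ wdg (u e) (u j) ≠ 1

variable {u : Fin r → Fin 2 → ℤ} {c : Fin r → K} {m : Fin r → ℕ} {b : Fin 2 → ℤ}

theorem root_neg {x : K} (h : Root x) : Root (-x) := by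
  obtain ⟨j, hj, h1⟩ := h
  refine ⟨j * 2, by omega, ?_⟩
  rw [pow_mul', neg_sq, ← pow_mul', pow_mul, h1, one_pow]

theorem root_one : Root (1 : K) := ⟨1, one_ne_zero, one_pow _⟩

theorem toric_binArr (hc : ∀ e, Root (c e)) (hne : ∀ e, u e ≠ 0)
    (hu : ∀ e e', e ≠ e' → wdg (u e) (u e') ≠ 0) : (binArr u c m b).Toric u :=
  ⟨fun e => ⟨-c e, 1, root_neg (hc e), root_one, rfl⟩, hne, hu⟩

theorem ev_bin (σ : K →+* ℂ) (p : Fin 2 → ℂ) (hp : ∀ l, p l ≠ 0) (e : Fin r) :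
    ev σ p ((binArr u c m b).P e) = ∏ l, p l ^ u e l - σ (c e) := by
  show ev σ p (AddMonoidAlgebra.single 0 (-c e) + AddMonoidAlgebra.single (u e) 1) = _
  have h1 := ev_single σ p hp 0 (-c e)
  have h2 := ev_single σ p hp (u e) (1 : K)
  rw [← lev_mk0 σ p hp] at h1 h2 ⊢
  rw [map_add, h1, h2, map_neg, map_one, one_mul]
  simp only [Pi.zero_apply, zpow_zero, Finset.prod_const_one, mul_one]
  ring

theorem exists_point {v w : Fin 2 → ℤ} (h : wdg v w ≠ 0) {x y : ℂ} (hx : x ≠ 0) (hy : y ≠ 0) :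
    ∃ p : Fin 2 → ℂ, (∀ l, p l ≠ 0) ∧ ∏ l, p l ^ v l = x ∧ ∏ l, p l ^ w l = y := by
  set d : ℂ := ((wdg v w : ℤ) : ℂ) with hd
  have hd0 : d ≠ 0 := Int.cast_ne_zero.2 h
  have hdd : d = (v 0 : ℂ) * (w 1 : ℂ) - (v 1 : ℂ) * (w 0 : ℂ) := by
    rw [hd]
    unfold wdg
    push_cast
    ring
  set t0 : ℂ := (Complex.log x * w 1 - Complex.log y * v 1) / d with ht0
  set t1 : ℂ := (Complex.log y * v 0 - Complex.log x * w 0) / d with ht1
  refine ⟨![Complex.exp t0, Complex.exp t1], fun l => ?_, ?_, ?_⟩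
  · fin_cases l
    · exact Complex.exp_ne_zero _
    · exact Complex.exp_ne_zero _
  · rw [Fin.prod_univ_two]
    show Complex.exp t0 ^ v 0 * Complex.exp t1 ^ v 1 = x
    rw [← Complex.exp_int_mul, ← Complex.exp_int_mul, ← Complex.exp_add]
    have e : (v 0 : ℂ) * t0 + (v 1 : ℂ) * t1 = Complex.log x := by
      rw [ht0, ht1]
      field_simp
      rw [hdd]
      ring
    rw [e, Complex.exp_log hx]
  · rw [Fin.prod_univ_two]
    show Complex.exp t0 ^ w 0 * Complex.exp t1 ^ w 1 = y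
    rw [← Complex.exp_int_mul, ← Complex.exp_int_mul, ← Complex.exp_add]
    have e : (w 0 : ℂ) * t0 + (w 1 : ℂ) * t1 = Complex.log y := by
      rw [ht0, ht1]
      field_simp
      rw [hdd]
      ring
    rw [e, Complex.exp_log hy]

theorem rel_point (p : Fin 2 → ℂ) (hp : ∀ l, p l ≠ 0) (e j k : Fin r) :
    (∏ l, p l ^ u e l) ^ wdg (u j) (u k) * (∏ l, p l ^ u j l) ^ wdg (u k) (u e) *
      (∏ l, p l ^ u k l) ^ wdg (u e) (u j) = 1 := by
  simp only [Fin.prod_univ_two, mul_zpow, ← zpow_mul]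
  have h0 : p 0 ^ (u e 0 * wdg (u j) (u k)) * p 0 ^ (u j 0 * wdg (u k) (u e)) *
      p 0 ^ (u k 0 * wdg (u e) (u j)) = 1 := by
    rw [← zpow_add₀ (hp 0), ← zpow_add₀ (hp 0)]
    have e1 : u e 0 * wdg (u j) (u k) + u j 0 * wdg (u k) (u e) + u k 0 * wdg (u e) (u j) = 0 := by
      unfold wdg
      ring
    rw [e1, zpow_zero]
  have h1 : p 1 ^ (u e 1 * wdg (u j) (u k)) * p 1 ^ (u j 1 * wdg (u k) (u e)) *
      p 1 ^ (u k 1 * wdg (u e) (u j)) = 1 := by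
    rw [← zpow_add₀ (hp 1), ← zpow_add₀ (hp 1)]
    have e1 : u e 1 * wdg (u j) (u k) + u j 1 * wdg (u k) (u e) + u k 1 * wdg (u e) (u j) = 0 := by
      unfold wdg
      ring
    rw [e1, zpow_zero]
  calc _ = (p 0 ^ (u e 0 * wdg (u j) (u k)) * p 0 ^ (u j 0 * wdg (u k) (u e)) *
      p 0 ^ (u k 0 * wdg (u e) (u j))) * (p 1 ^ (u e 1 * wdg (u j) (u k)) *
      p 1 ^ (u j 1 * wdg (u k) (u e)) * p 1 ^ (u k 1 * wdg (u e) (u j))) := by ring
    _ = 1 := by rw [h0, h1, mul_one]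

theorem exists_common (hc : ∀ e, Root (c e)) (hu : ∀ e e', e ≠ e' → wdg (u e) (u e') ≠ 0)
    (σ : K →+* ℂ) {j k : Fin r} (hjk : j ≠ k) (hf : ∀ e, e ≠ j → e ≠ k → Free u c e j k) :
    ∃ p : Fin 2 → ℂ, (∀ l, p l ≠ 0) ∧ ev σ p ((binArr u c m b).P j) = 0 ∧
      ev σ p ((binArr u c m b).P k) = 0 ∧
        ∀ e, e ≠ j → e ≠ k → ev σ p ((binArr u c m b).P e) ≠ 0 := by
  obtain ⟨p, hp, h1, h2⟩ := exists_point (hu j k hjk) ((map_ne_zero σ).2 (hc j).ne_zero)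
    ((map_ne_zero σ).2 (hc k).ne_zero)
  refine ⟨p, hp, ?_, ?_, fun e hej hek h0 => ?_⟩
  · rw [ev_bin σ p hp, h1, sub_self]
  · rw [ev_bin σ p hp, h2, sub_self]
  · rw [ev_bin σ p hp, sub_eq_zero] at h0
    have h3 := rel_point (u := u) p hp e j k
    rw [h0, h1, h2, ← map_zpow₀, ← map_zpow₀, ← map_zpow₀, ← map_mul, ← map_mul] at h3
    exact hf e hej hek (σ.injective (by rw [h3, map_one]))

/-- The classes on the curves `λ z^b ∏_e (z^(u_e) - c_e) ^ (m_e + 1) = 1`. -/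
theorem exists_classes_uniform.{w, v} {K : Type w} [Field K] [NumberField K] {r : ℕ}
    {u : Fin r → Fin 2 → ℤ} (hne : ∀ e, u e ≠ 0)
    (hu : ∀ e e', e ≠ e' → wdg (u e) (u e') ≠ 0) :
    ∃ β : Pairs r → Fin r ⊕ Fin 2 → Fin r ⊕ Fin 2 → ℤ,
      ∀ c : Fin r → K, (∀ e, Root (c e)) → ∀ (m : Fin r → ℕ) (b : Fin 2 → ℤ),
      (∀ (t : Pairs r) (lam : K), lam ≠ 0 → IsIntegral ℤ lam →
        Arr.Unram.{w, v} (binArr u c m b) lam (β t)) ∧
      ∀ S : Finset (Pairs r),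
        (∀ t ∈ S, ∀ e, e ≠ t.1.1 → e ≠ t.1.2 → Free u c e t.1.1 t.1.2) →
        (∀ σ : K →+* ℂ, ∃ C : ℝ, ∀ lam : K, C ≤ ‖σ lam‖ →
          (binArr u c m b).HasDet σ lam fun t : S => β t) ∧
        {lam : K | IsIntegral ℤ lam ∧
          ¬ ∃ σ : K →+* ℂ, (binArr u c m b).HasDet σ lam fun t : S => β t}.Finite ∧
        ∀ (σ : K →+* ℂ) (lam : K), ((binArr u c m b).HasDet σ lam fun t : S => β t) →
          LinearIndependent ℚ fun t : S => (binArr u c m b).cls lam (β t) := by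
  refine ⟨triP u, fun c hc m b => ?_⟩
  have hT : (binArr u c m b).Toric u := toric_binArr hc hne hu
  refine ⟨fun t lam h0 hint L _ f => cls_unramified hT.admissible (hT.adm_triP t) h0 hint f,
    fun S hS => ?_⟩
  have hN : ∀ σ : K →+* ℂ, (binArr u c m b).Nodes σ fun t : S => triP u t := fun σ =>
    hT.nodes_triP σ S fun t ht => exists_common hc hu σ t.2.2.ne (hS t ht)
  exact ⟨fun σ => exists_hasDet (hN σ), finite_exceptionsA hN, fun σ lam h =>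
    h.linearIndependent⟩

end binom

end Pool.Agent.U374.St
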