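import Pool.Agent.U374.St.ArrB
import Pool.Agent.U374.St.ArrQ
set_option autoImplicit false

/-!
The curves `λ z^b ∏_i (x + y + 1/(x y) + a_i)^(m_i + 1) ∏_j (1/x + 1/y + x y + b_j)^(n_j + 1) = 1`.
-/

namespace Pool.Agent.U374.St

open Pool.Agent.TH826.MK

open Pool.Agent.N65.TL

section faces

variable {K : Type*} [Field K] {n : ℕ} {P : LP K n} {a : Fin n → ℤ}

theorem face_eq_mono {v : Fin n → ℤ} {c : K} (hc : c ≠ 0) (h1 : P.coeff v = c)
    (h2 : ∀ x, x ≠ v → P.coeff x ≠ 0 → ∑ i, a i * x i < ∑ i, a i * v i) :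
    face a P = AddMonoidAlgebra.single v c := by
  classical
  ext x
  rw [coeff_face_eq, AddMonoidAlgebra.coeff_single, Finsupp.single_apply]
  by_cases hx : v = x
  · subst hx
    rw [if_pos rfl, if_pos, h1]
    intro m' hm'
    by_cases h3 : m' = v
    · rw [h3]
    · exact (h2 m' h3 hm').le
  · rw [if_neg hx]
    split_ifs with h3
    · by_contra h4
      have h5 := h2 x (Ne.symm hx) h4
      have h6 := h3 v (by rw [h1]; exact hc)
      omega
    · rfl

theorem face_eq_bin {v w : Fin n → ℤ} (hvw : v ≠ w) {c d : K} (hc : c ≠ 0) (hd : d ≠ 0)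
    (h1 : P.coeff v = c) (h1' : P.coeff w = d) (he : ∑ i, a i * v i = ∑ i, a i * w i)
    (h2 : ∀ x, x ≠ v → x ≠ w → P.coeff x ≠ 0 → ∑ i, a i * x i < ∑ i, a i * v i) :
    face a P = AddMonoidAlgebra.single v c + AddMonoidAlgebra.single w d := by
  classical
  ext x
  rw [coeff_face_eq, AddMonoidAlgebra.coeff_add, Finsupp.add_apply,
    AddMonoidAlgebra.coeff_single, AddMonoidAlgebra.coeff_single, Finsupp.single_apply,
    Finsupp.single_apply]
  have h3 : ∀ m', P.coeff m' ≠ 0 → ∑ i, a i * m' i ≤ ∑ i, a i * v i := by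
    intro m' hm'
    by_cases h4 : m' = v
    · rw [h4]
    · by_cases h5 : m' = w
      · rw [h5, he]
      · exact (h2 m' h4 h5 hm').le
  by_cases hx : v = x
  · subst hx
    rw [if_pos rfl, if_neg hvw.symm, add_zero, if_pos h3, h1]
  · by_cases hx' : w = x
    · subst hx'
      rw [if_neg hvw, if_pos rfl, zero_add, if_pos (fun m' hm' => (h3 m' hm').trans he.le), h1']
    · rw [if_neg hx, if_neg hx', add_zero]
      split_ifs with h4
      · by_contra h5
        have h6 := h2 x (Ne.symm hx) (Ne.symm hx') h5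
        have h7 := h4 v (by rw [h1]; exact hc)
        omega
      · rfl

end faces

section tetra

variable {K : Type*} [Field K]

/-- `z^u + z^v + z^w + c` -/
noncomputable def quad (u v w : Fin 2 → ℤ) (c : K) : LP K 2 :=
  AddMonoidAlgebra.single u 1 + AddMonoidAlgebra.single v 1 + AddMonoidAlgebra.single w 1 +
    AddMonoidAlgebra.single 0 c

theorem quad_rot (u v w : Fin 2 → ℤ) (c : K) : quad u v w c = quad v w u c := by
  unfold quad
  abel

variable {u v w : Fin 2 → ℤ} {c : K} {a : Fin 2 → ℤ}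

theorem coeff_quad (x : Fin 2 → ℤ) : (quad u v w c).coeff x =
    (if u = x then 1 else 0) + (if v = x then 1 else 0) + (if w = x then 1 else 0) +
      (if 0 = x then c else 0) := by
  unfold quad
  simp only [AddMonoidAlgebra.coeff_add, Finsupp.add_apply, AddMonoidAlgebra.coeff_single,
    Finsupp.single_apply]

theorem supp_quad {x : Fin 2 → ℤ} (h : (quad u v w c).coeff x ≠ 0) :
    x = u ∨ x = v ∨ x = w ∨ x = 0 := by
  rw [coeff_quad] at h
  by_contra hc
  push Not at hc
  rw [if_neg hc.1.symm, if_neg hc.2.1.symm, if_neg hc.2.2.1.symm, if_neg hc.2.2.2.symm] at h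
  exact h (by ring)

/-- the vertices form a triangle with centroid `0` -/
structure TriV (u v w : Fin 2 → ℤ) : Prop where
  sum : ∀ a : Fin 2 → ℤ, ∑ i, a i * u i + ∑ i, a i * v i + ∑ i, a i * w i = 0
  ne : ∀ a : Fin 2 → ℤ, a ≠ 0 → ¬ (∑ i, a i * u i = 0 ∧ ∑ i, a i * v i = 0)
  uv : u ≠ v
  vw : v ≠ w
  wu : w ≠ u
  u0 : u ≠ 0
  v0 : v ≠ 0
  w0 : w ≠ 0

theorem TriV.rot (h : TriV u v w) : TriV v w u where
  sum a := by have := h.sum a; omega
  ne a ha hh := h.ne a ha ⟨by have := h.sum a; omega, hh.1⟩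
  uv := h.vw
  vw := h.wu
  wu := h.uv
  u0 := h.v0
  v0 := h.w0
  w0 := h.u0

theorem coeff_quad_u (h : TriV u v w) : (quad u v w c).coeff u = 1 := by
  rw [coeff_quad, if_pos rfl, if_neg h.uv.symm, if_neg h.wu, if_neg h.u0.symm]
  ring

theorem coeff_quad_v (h : TriV u v w) : (quad u v w c).coeff v = 1 := by
  rw [quad_rot]
  exact coeff_quad_u h.rot

theorem mono_quad (h : TriV u v w) (h1 : ∑ i, a i * v i < ∑ i, a i * u i)
    (h2 : ∑ i, a i * w i < ∑ i, a i * u i) :
    face a (quad u v w c) = AddMonoidAlgebra.single u 1 := by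
  refine face_eq_mono one_ne_zero (coeff_quad_u h) fun x hx hc => ?_
  have h3 := h.sum a
  rcases supp_quad hc with rfl | rfl | rfl | rfl
  · exact absurd rfl hx
  · exact h1
  · exact h2
  · rw [sum_zero_right]
    omega

theorem bin_quad (h : TriV u v w) (h1 : ∑ i, a i * u i = ∑ i, a i * v i)
    (h2 : ∑ i, a i * w i < ∑ i, a i * u i) : face a (quad u v w c) =
      AddMonoidAlgebra.single u 1 + AddMonoidAlgebra.single v 1 := by
  refine face_eq_bin h.uv one_ne_zero one_ne_zero (coeff_quad_u h) (coeff_quad_v h) h1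
    fun x hx hx' hc => ?_
  have h3 := h.sum a
  rcases supp_quad hc with rfl | rfl | rfl | rfl
  · exact absurd rfl hx
  · exact absurd rfl hx'
  · exact h2
  · rw [sum_zero_right]
    omega

theorem monoFace_quad (h : TriV u v w) (h1 : ∑ i, a i * v i < ∑ i, a i * u i)
    (h2 : ∑ i, a i * w i < ∑ i, a i * u i) : MonoFace (quad u v w c) a :=
  ⟨u, 1, root_one, mono_quad h h1 h2⟩

theorem binFace_quad (h : TriV u v w) (h1 : ∑ i, a i * u i = ∑ i, a i * v i)
    (h2 : ∑ i, a i * w i < ∑ i, a i * u i) : BinFace (quad u v w c) a :=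
  ⟨u, v, 1, 1, h.uv, root_one, root_one, bin_quad h h1 h2⟩

/-- the six cases -/
theorem six (h : TriV u v w) (ha : a ≠ 0) :
    (∑ i, a i * v i < ∑ i, a i * u i ∧ ∑ i, a i * w i < ∑ i, a i * u i) ∨
    (∑ i, a i * w i < ∑ i, a i * v i ∧ ∑ i, a i * u i < ∑ i, a i * v i) ∨
    (∑ i, a i * u i < ∑ i, a i * w i ∧ ∑ i, a i * v i < ∑ i, a i * w i) ∨
    (∑ i, a i * u i = ∑ i, a i * v i ∧ ∑ i, a i * w i < ∑ i, a i * u i) ∨
    (∑ i, a i * v i = ∑ i, a i * w i ∧ ∑ i, a i * u i < ∑ i, a i * v i) ∨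
    (∑ i, a i * w i = ∑ i, a i * u i ∧ ∑ i, a i * v i < ∑ i, a i * w i) := by
  have h1 := h.sum a
  have h2 := h.ne a ha
  generalize ∑ i, a i * u i = x at *
  generalize ∑ i, a i * v i = y at *
  generalize ∑ i, a i * w i = z at *
  omega

theorem faces_quad (h : TriV u v w) (ha : a ≠ 0) :
    MonoFace (quad u v w c) a ∨ BinFace (quad u v w c) a := by
  rcases six h ha with h1 | h1 | h1 | h1 | h1 | h1
  · exact Or.inl (monoFace_quad h h1.1 h1.2)
  · left
    rw [quad_rot]
    exact monoFace_quad h.rot h1.1 h1.2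
  · left
    rw [quad_rot, quad_rot]
    exact monoFace_quad h.rot.rot h1.1 h1.2
  · exact Or.inr (binFace_quad h h1.1 h1.2)
  · right
    rw [quad_rot]
    exact binFace_quad h.rot h1.1 h1.2
  · right
    rw [quad_rot, quad_rot]
    exact binFace_quad h.rot.rot h1.1 h1.2

theorem same_quad (h : TriV u v w) (ha : a ≠ 0) (c c' : K) :
    ∃ n, (face a (quad u v w c)).coeff n ≠ 0 ∧ (face a (quad u v w c')).coeff n ≠ 0 := by
  classical
  have h0 : ∀ (u v w : Fin 2 → ℤ), TriV u v w → ∑ i, a i * v i ≤ ∑ i, a i * u i →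
      ∑ i, a i * w i ≤ ∑ i, a i * u i → ∀ c : K, (face a (quad u v w c)).coeff u ≠ 0 := by
    intro u v w h h1 h2 c
    have h3 := h.sum a
    rw [coeff_face_eq, if_pos, coeff_quad_u h]
    · exact one_ne_zero
    · intro m' hm'
      rcases supp_quad hm' with rfl | rfl | rfl | rfl
      · exact le_rfl
      · exact h1
      · exact h2
      · rw [sum_zero_right]
        omega
  rcases six h ha with h1 | h1 | h1 | h1 | h1 | h1
  · exact ⟨u, h0 u v w h h1.1.le h1.2.le c, h0 u v w h h1.1.le h1.2.le c'⟩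
  · refine ⟨v, ?_, ?_⟩
    · rw [quad_rot]
      exact h0 v w u h.rot h1.1.le h1.2.le c
    · rw [quad_rot]
      exact h0 v w u h.rot h1.1.le h1.2.le c'
  · refine ⟨w, ?_, ?_⟩
    · rw [quad_rot, quad_rot]
      exact h0 w u v h.rot.rot h1.1.le h1.2.le c
    · rw [quad_rot, quad_rot]
      exact h0 w u v h.rot.rot h1.1.le h1.2.le c'
  · exact ⟨u, h0 u v w h h1.1.ge h1.2.le c, h0 u v w h h1.1.ge h1.2.le c'⟩
  · refine ⟨v, ?_, ?_⟩
    · rw [quad_rot]
      exact h0 v w u h.rot h1.1.ge h1.2.le c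
    · rw [quad_rot]
      exact h0 v w u h.rot h1.1.ge h1.2.le c'
  · refine ⟨w, ?_, ?_⟩
    · rw [quad_rot, quad_rot]
      exact h0 w u v h.rot.rot h1.1.ge h1.2.le c
    · rw [quad_rot, quad_rot]
      exact h0 w u v h.rot.rot h1.1.ge h1.2.le c'

theorem disj_quad (h : TriV u v w) (h' : TriV (-u) (-v) (-w)) (ha : a ≠ 0) (c c' : K) :
    MonoFace (quad u v w c) a ∨ MonoFace (quad (-u) (-v) (-w) c') a := by
  have hn : ∀ x : Fin 2 → ℤ, ∑ i, a i * (-x) i = -∑ i, a i * x i := by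
    intro x
    simp [Finset.sum_neg_distrib]
  have hs := h.sum a
  rcases six h ha with h1 | h1 | h1 | h1 | h1 | h1
  · exact Or.inl (monoFace_quad h h1.1 h1.2)
  · left
    rw [quad_rot]
    exact monoFace_quad h.rot h1.1 h1.2
  · left
    rw [quad_rot, quad_rot]
    exact monoFace_quad h.rot.rot h1.1 h1.2
  · right
    rw [quad_rot, quad_rot]
    exact monoFace_quad h'.rot.rot (by rw [hn, hn]; omega) (by rw [hn, hn]; omega)
  · right
    exact monoFace_quad h' (by rw [hn, hn]; omega) (by rw [hn, hn]; omega)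
  · right
    rw [quad_rot]
    exact monoFace_quad h'.rot (by rw [hn, hn]; omega) (by rw [hn, hn]; omega)

end tetra

end Pool.Agent.U374.St
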