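import Pool.Agent.U374.St.ArrH
set_option autoImplicit false

/-!
The curves `λ z^b ∏_i (x + y + 1/(x y) + a_i)^(m_i + 1) ∏_j (1/x + 1/y + x y + b_j)^(n_j + 1) = 1`.
-/

namespace Pool.Agent.U374.St

open Pool.Agent.TH826.MK

open Pool.Agent.N65.TL

section dvl

variable {K : Type*} [Field K]

theorem dv_add (σ : K →+* ℂ) (p : Fin 2 → ℂ) (P Q : LP K 2) (l : Fin 2) :
    dv σ p (P + Q) l = dv σ p P l + dv σ p Q l := by
  have h : ∀ P : LP K 2, dv σ p P l = P.coeff.sum fun m c => (m l : ℂ) *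
      (σ c * ∏ l, p l ^ m l) := fun P => rfl
  rw [h, h, h, AddMonoidAlgebra.coeff_add]
  refine Finsupp.sum_add_index' (fun m => ?_) (fun m c d => ?_)
  · rw [map_zero, zero_mul, mul_zero]
  · rw [map_add]
    ring

theorem dv_single (σ : K →+* ℂ) (p : Fin 2 → ℂ) (n : Fin 2 → ℤ) (c : K) (l : Fin 2) :
    dv σ p (AddMonoidAlgebra.single n c) l = (n l : ℂ) * (σ c * ∏ l, p l ^ n l) := by
  have h : ∀ P : LP K 2, dv σ p P l = P.coeff.sum fun m c => (m l : ℂ) *
      (σ c * ∏ l, p l ^ m l) := fun P => rfl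
  rw [h, AddMonoidAlgebra.coeff_single]
  refine Finsupp.sum_single_index ?_
  rw [map_zero, zero_mul, mul_zero]

theorem dv_quad (σ : K →+* ℂ) (p : Fin 2 → ℂ) (u v w : Fin 2 → ℤ) (c : K) (l : Fin 2) :
    dv σ p (quad u v w c) l = (u l : ℂ) * ∏ l, p l ^ u l + (v l : ℂ) * ∏ l, p l ^ v l +
      (w l : ℂ) * ∏ l, p l ^ w l := by
  unfold quad
  rw [dv_add, dv_add, dv_add, dv_single, dv_single, dv_single, dv_single, map_one]
  simp

theorem ev_quad (σ : K →+* ℂ) (p : Fin 2 → ℂ) (hp : ∀ l, p l ≠ 0) (u v w : Fin 2 → ℤ) (c : K) :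
    ev σ p (quad u v w c) = ∏ l, p l ^ u l + ∏ l, p l ^ v l + ∏ l, p l ^ w l + σ c := by
  unfold quad
  have h1 := ev_single σ p hp 0 c
  have h2 := ev_single σ p hp u (1 : K)
  have h3 := ev_single σ p hp v (1 : K)
  have h4 := ev_single σ p hp w (1 : K)
  rw [← lev_mk0 σ p hp] at h1 h2 h3 h4 ⊢
  rw [map_add, map_add, map_add, h1, h2, h3, h4, map_one]
  simp

theorem exists_roots (A B : ℂ) (hd : A ^ 2 * B ^ 2 + 4 * A ^ 3 + 4 * B ^ 3 + 18 * A * B - 27 ≠ 0) :
    ∃ x y t : ℂ, x + y + t = -A ∧ x * y + y * t + t * x = -B ∧ x * y * t = 1 ∧ x ≠ y ∧ y ≠ t ∧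
      t ≠ x := by
  obtain ⟨x, hx⟩ : ∃ x : ℂ, x ^ 3 + A * x ^ 2 - B * x - 1 = 0 := by
    obtain ⟨x, hx⟩ := IsAlgClosed.exists_root
      (Polynomial.X ^ 3 + Polynomial.C A * Polynomial.X ^ 2 - Polynomial.C B * Polynomial.X - 1 :
        Polynomial ℂ) (by
        have h : (Polynomial.X ^ 3 + Polynomial.C A * Polynomial.X ^ 2 -
            Polynomial.C B * Polynomial.X - 1 : Polynomial ℂ).degree = 3 := by
          compute_degree!
        rw [h]
        norm_num)
    refine ⟨x, ?_⟩
    simpa [Polynomial.IsRoot] using hx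
  obtain ⟨s, hs⟩ := IsAlgClosed.exists_pow_nat_eq ((A + x) ^ 2 - 4 * (x ^ 2 + A * x - B))
    (n := 2) (by norm_num)
  set y : ℂ := (-(A + x) + s) / 2 with hy
  set t : ℂ := (-(A + x) - s) / 2 with ht
  have e1 : x + y + t = -A := by rw [hy, ht]; ring
  have e2 : y * t = x ^ 2 + A * x - B := by
    rw [hy, ht]
    linear_combination (-1 / 4) * hs
  have e3 : x * y + y * t + t * x = -B := by
    linear_combination e2 + x * e1
  have e4 : x * y * t = 1 := by linear_combination x * e2 + hx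
  have key : A ^ 2 * B ^ 2 + 4 * A ^ 3 + 4 * B ^ 3 + 18 * A * B - 27 =
      ((x - y) * (y - t) * (t - x)) ^ 2 := by
    have hA : A = -(x + y + t) := by rw [e1, neg_neg]
    have hB : B = -(x * y + y * t + t * x) := by rw [e3, neg_neg]
    rw [hA, hB]
    linear_combination (4 * (x + y + t) ^ 3 - 18 * (x + y + t) * (x * y + y * t + t * x) +
      27 * (1 + x * y * t)) * e4
  rw [key] at hd
  refine ⟨x, y, t, e1, e3, e4, ?_, ?_, ?_⟩
  · intro h
    exact hd (by rw [h]; ring)
  · intro h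
    exact hd (by rw [h]; ring)
  · intro h
    exact hd (by rw [h]; ring)

end dvl

section cub

variable {K : Type*} [Field K] {r : ℕ}

theorem triV : TriV ![1, 0] ![0, 1] ![-1, -1] where
  sum a := by
    simp [Fin.sum_univ_two]
    ring
  ne a ha hh := ha (by
    have h1 := hh.1
    have h2 := hh.2
    simp [Fin.sum_univ_two] at h1 h2
    funext l
    fin_cases l
    · exact h1
    · exact h2)
  uv h := by have := congrFun h 0; simp at this
  vw h := by have := congrFun h 0; simp at this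
  wu h := by have := congrFun h 0; simp at this
  u0 h := by have := congrFun h 0; simp at this
  v0 h := by have := congrFun h 1; simp at this
  w0 h := by have := congrFun h 0; simp at this

theorem triV' : TriV (-![1, 0]) (-![0, 1]) (-![-1, -1]) where
  sum a := by simp [Fin.sum_univ_two]
  ne a ha hh := ha (by
    have h1 := hh.1
    have h2 := hh.2
    simp [Fin.sum_univ_two] at h1 h2
    funext l
    fin_cases l
    · exact h1
    · exact h2)
  uv h := by have := congrFun h 0; simp at this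
  vw h := by have := congrFun h 0; simp at this
  wu h := by have := congrFun h 0; simp at this
  u0 h := by have := congrFun h 0; simp at this
  v0 h := by have := congrFun h 1; simp at this
  w0 h := by have := congrFun h 0; simp at this

/-- The data of the curve with the factors `z_0 + z_1 + 1/(z_0 z_1) + c_e`, if `s e = false`, and
`1/z_0 + 1/z_1 + z_0 z_1 + c_e`, if `s e = true`. -/
noncomputable def cubArr (s : Fin r → Bool) (c : Fin r → K) (m : Fin r → ℕ) (b : Fin 2 → ℤ) :
    Arr K r where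
  P e := bif s e then quad (-![1, 0]) (-![0, 1]) (-![-1, -1]) (c e)
    else quad ![1, 0] ![0, 1] ![-1, -1] (c e)
  m := m
  b := b

variable {s : Fin r → Bool} {c : Fin r → K} {m : Fin r → ℕ} {b : Fin 2 → ℤ}

theorem cub_false {e : Fin r} (h : s e = false) :
    (cubArr s c m b).P e = quad ![1, 0] ![0, 1] ![-1, -1] (c e) := by
  show (bif s e then quad (-![1, 0]) (-![0, 1]) (-![-1, -1]) (c e)
    else quad ![1, 0] ![0, 1] ![-1, -1] (c e)) = _
  rw [h]
  rfl

theorem cub_true {e : Fin r} (h : s e = true) :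
    (cubArr s c m b).P e = quad (-![1, 0]) (-![0, 1]) (-![-1, -1]) (c e) := by
  show (bif s e then quad (-![1, 0]) (-![0, 1]) (-![-1, -1]) (c e)
    else quad ![1, 0] ![0, 1] ![-1, -1] (c e)) = _
  rw [h]
  rfl

theorem integral_quad (u v w : Fin 2 → ℤ) {c : K} (hc : IsIntegral ℤ c) :
    Integral (quad u v w c) := by
  intro x
  rw [coeff_quad]
  refine (((?_ : IsIntegral ℤ _).add ?_).add ?_).add ?_
  · split_ifs
    · exact isIntegral_one
    · exact isIntegral_zero
  · split_ifs
    · exact isIntegral_one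
    · exact isIntegral_zero
  · split_ifs
    · exact isIntegral_one
    · exact isIntegral_zero
  · split_ifs
    · exact hc
    · exact isIntegral_zero

theorem cub_admissible (hc : ∀ e, IsIntegral ℤ (c e)) : (cubArr s c m b).Admissible := by
  refine ⟨fun e => ?_, fun e a ha => ?_⟩
  · rcases hs : s e
    · rw [cub_false hs]
      exact integral_quad _ _ _ (hc e)
    · rw [cub_true hs]
      exact integral_quad _ _ _ (hc e)
  · rcases hs : s e
    · rw [cub_false hs]
      exact faces_quad triV ha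
    · rw [cub_true hs]
      exact faces_quad triV' ha

theorem cub_grid : (cubArr s c m b).Grid s := by
  refine ⟨fun e e' h a ha => ?_, fun e e' h a ha => ?_⟩
  · rcases hs : s e
    · rw [cub_false hs, cub_false (h ▸ hs)]
      exact same_quad triV ha _ _
    · rw [cub_true hs, cub_true (h ▸ hs)]
      exact same_quad triV' ha _ _
  · rcases hs : s e <;> rcases hs' : s e'
    · exact absurd (hs.trans hs'.symm) h
    · rw [cub_false hs, cub_true hs']
      exact disj_quad triV triV' ha _ _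
    · rw [cub_true hs, cub_false hs']
      exact (disj_quad triV triV' ha _ _).symm
    · exact absurd (hs.trans hs'.symm) h

theorem cub_hasNode (σ : K →+* ℂ) (hinj : ∀ e e', s e = s e' → c e = c e' → e = e') {i j : Fin r}
    (hi : s i = false) (hj : s j = true)
    (hd : c i ^ 2 * c j ^ 2 + 4 * c i ^ 3 + 4 * c j ^ 3 + 18 * c i * c j - 27 ≠ 0) :
    (cubArr s c m b).HasNode σ i j := by
  have hij : i ≠ j := fun h => by rw [h, hj] at hi; exact Bool.noConfusion hi
  have hd' : σ (c i) ^ 2 * σ (c j) ^ 2 + 4 * σ (c i) ^ 3 + 4 * σ (c j) ^ 3 +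
      18 * σ (c i) * σ (c j) - 27 ≠ 0 := by
    have h1 := (map_ne_zero σ).2 hd
    have e4 : σ 4 = 4 := map_ofNat σ 4
    have e18 : σ 18 = 18 := map_ofNat σ 18
    have e27 : σ 27 = 27 := map_ofNat σ 27
    rw [map_sub, map_add, map_add, map_add] at h1
    simp only [map_mul, map_pow, e4, e18, e27] at h1
    exact h1
  obtain ⟨x, y, t, h1, h2, h3, hxy, hyt, htx⟩ := exists_roots _ _ hd'
  have hx : x ≠ 0 := by rintro rfl; simp at h3
  have hy : y ≠ 0 := by rintro rfl; simp at h3
  have ht : t ≠ 0 := by rintro rfl; simp at h3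
  have hp : ∀ l, (![x, y] : Fin 2 → ℂ) l ≠ 0 := by
    intro l
    fin_cases l
    · exact hx
    · exact hy
  have pu : ∏ l, (![x, y] : Fin 2 → ℂ) l ^ (![1, 0] : Fin 2 → ℤ) l = x := by
    simp [Fin.prod_univ_two]
  have pv : ∏ l, (![x, y] : Fin 2 → ℂ) l ^ (![0, 1] : Fin 2 → ℤ) l = y := by
    simp [Fin.prod_univ_two]
  have pw : ∏ l, (![x, y] : Fin 2 → ℂ) l ^ (![-1, -1] : Fin 2 → ℤ) l = t := by
    simp only [Fin.prod_univ_two, Matrix.cons_val_zero, Matrix.cons_val_one, zpow_neg, zpow_one]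
    field_simp
    linear_combination -h3
  have pu' : ∏ l, (![x, y] : Fin 2 → ℂ) l ^ (-![1, 0] : Fin 2 → ℤ) l = y * t := by
    simp only [Fin.prod_univ_two, Pi.neg_apply, Matrix.cons_val_zero, Matrix.cons_val_one,
      zpow_neg, zpow_one, zpow_zero]
    field_simp
    linear_combination -h3
  have pv' : ∏ l, (![x, y] : Fin 2 → ℂ) l ^ (-![0, 1] : Fin 2 → ℤ) l = t * x := by
    simp only [Fin.prod_univ_two, Pi.neg_apply, Matrix.cons_val_zero, Matrix.cons_val_one,
      zpow_neg, zpow_one, zpow_zero]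
    field_simp
    linear_combination -h3
  have pw' : ∏ l, (![x, y] : Fin 2 → ℂ) l ^ (-![-1, -1] : Fin 2 → ℤ) l = x * y := by
    simp [Fin.prod_univ_two]
    ring
  have ef : ∀ e, s e = false → ev σ ![x, y] ((cubArr s c m b).P e) = σ (c e) - σ (c i) := by
    intro e he
    rw [cub_false he, ev_quad σ _ hp, pu, pv, pw]
    linear_combination h1
  have et : ∀ e, s e = true → ev σ ![x, y] ((cubArr s c m b).P e) = σ (c e) - σ (c j) := by
    intro e he
    rw [cub_true he, ev_quad σ _ hp, pu', pv', pw']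
    linear_combination h2
  refine ⟨hij, ![x, y], hp, by rw [ef i hi, sub_self], by rw [et j hj, sub_self],
    fun e hei hej => ?_, ?_⟩
  · rcases hs : s e
    · rw [ef e hs, sub_ne_zero]
      exact fun h => hei (hinj e i (hs.trans hi.symm) (σ.injective h))
    · rw [et e hs, sub_ne_zero]
      exact fun h => hej (hinj e j (hs.trans hj.symm) (σ.injective h))
  · rw [cub_false hi, cub_true hj, dv_quad, dv_quad, dv_quad, dv_quad, pu, pv, pw, pu', pv', pw']
    have hne : (x - t) * (y - t) * (x - y) ≠ 0 :=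
      mul_ne_zero (mul_ne_zero (sub_ne_zero.2 htx.symm) (sub_ne_zero.2 hyt)) (sub_ne_zero.2 hxy)
    intro h0
    apply hne
    simp at h0
    linear_combination h0

end cub

end Pool.Agent.U374.St

namespace Pool.Agent.U374.St

open Pool.Agent.TH826.MK

open Pool.Agent.N65.TL

section short

variable {K : Type*} [Field K] {r : ℕ}

/-- The symbol `{P_i / P_(i0), P_j / P_(j0)}`. -/
noncomputable def Arr.gsym (A : Arr K r) (lam : K) (i0 j0 i j : Fin r) : KQ (A.Ring lam) 2 :=
  symb ![A.unit lam (Sum.inl i) / A.unit lam (Sum.inl i0),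
    A.unit lam (Sum.inl j) / A.unit lam (Sum.inl j0)]

/-- For a finite family `β`: (2) for every complex embedding `σ` of `K` there is a `C` such that
`HasDet` for all `λ` in `K` with `|σ λ| ≥ C`; (3) for all but finitely many algebraic integers `λ`
of `K` there is a `σ` with `HasDet`; (4) if `HasDet` the classes are linearly independent. -/
def Arr.Indep {ι : Type*} [Fintype ι] [DecidableEq ι] (A : Arr K r)
    (β : ι → Fin r ⊕ Fin 2 → Fin r ⊕ Fin 2 → ℤ) : Prop :=
  (∀ σ : K →+* ℂ, ∃ C : ℝ, ∀ lam : K, C ≤ ‖σ lam‖ → A.HasDet σ lam β) ∧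
    {lam : K | IsIntegral ℤ lam ∧ ¬ ∃ σ : K →+* ℂ, A.HasDet σ lam β}.Finite ∧
    ∀ (σ : K →+* ℂ) (lam : K), A.HasDet σ lam β → LinearIndependent ℚ fun t => A.cls lam (β t)

/-- The discriminant of `T³ + a T² - b T - 1`. -/
def cubDisc (a b : K) : K := a ^ 2 * b ^ 2 + 4 * a ^ 3 + 4 * b ^ 3 + 18 * a * b - 27

variable {s : Fin r → Bool} {c : Fin r → K} {m : Fin r → ℕ} {b : Fin 2 → ℤ}

theorem cub_indep [NumberField K] (hinj : ∀ e e', s e = s e' → c e = c e' → e = e')
    {i0 j0 : Fin r} (h1 : s i0 = false) (h2 : s j0 = true) (S : Finset (GPairs s i0 j0))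
    (hS : ∀ t ∈ S, cubDisc (c t.1.1) (c t.1.2) ≠ 0) :
    (cubArr s c m b).Indep fun t : S => gridc i0 j0 t.1.1.1 t.1.1.2 :=
  ⟨fun σ => exists_hasDet (nodes_gridc h1 h2 σ S fun t ht =>
      cub_hasNode σ hinj t.2.1.1 t.2.2.1 (hS t ht)),
    finite_exceptionsA fun σ => nodes_gridc h1 h2 σ S fun t ht =>
      cub_hasNode σ hinj t.2.1.1 t.2.2.1 (hS t ht),
    fun _ _ h => h.linearIndependent⟩

end short

end Pool.Agent.U374.St
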