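import Pool.Agent.U374.St.ArrN
import Pool.Agent.TH826.SX.Det
set_option autoImplicit false

/-!
Curves `λ z^b ∏_e P_e(z) ^ (m_e + 1) = 1`: the theorems.
-/

namespace Pool.Agent.U374.St

open Pool.Agent.TH826.MK

open Pool.Agent.TH826.SX (det_ne_zero_near)

open Pool.Agent.N65.TL

variable {K : Type*} [Field K] {r : ℕ}

/-- The classes of the `β_t` have images in the Milnor K-theory of all fields `L` with a
homomorphism from the coordinate ring which are unramified. -/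
def Arr.Unram.{u, v} {K : Type u} [Field K] {r : ℕ} (A : Arr K r) (lam : K)
    (β : Fin r ⊕ Fin 2 → Fin r ⊕ Fin 2 → ℤ) : Prop :=
  ∀ (L : Type v) [Field L] (f : A.Ring lam →+* L),
    KQ.map 2 f (A.cls lam β) ∈ Unramified L 2

/-- There are nodes `P_i = P_j = 0`, `(i, j) = (i_t, j_t)`, such that the determinant of the
`β_t'(i_t, j_t) - β_t'(j_t, i_t)` is not zero. -/
def Arr.Nodes {ι : Type*} [Fintype ι] [DecidableEq ι] (A : Arr K r) (σ : K →+* ℂ)
    (β : ι → Fin r ⊕ Fin 2 → Fin r ⊕ Fin 2 → ℤ) : Prop :=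
  ∃ I J : ι → Fin r, (∀ t, A.HasNode σ (I t) (J t)) ∧
    (Matrix.of fun t t' => β t' (Sum.inl (I t)) (Sum.inl (J t)) -
      β t' (Sum.inl (J t)) (Sum.inl (I t))).det ≠ 0

/-- There are loops in the complex points over `σ` of the curve, such that the determinant of the
regulators of the classes of the `β_t` on these loops is not zero. -/
def Arr.HasDet {ι : Type*} [Fintype ι] [DecidableEq ι] (A : Arr K r) (σ : K →+* ℂ)
    (lam : K) (β : ι → Fin r ⊕ Fin 2 → Fin r ⊕ Fin 2 → ℤ) : Prop :=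
  ∃ Γ : ι → Torus (A.Ring lam) 1, (∀ t θ x, (Γ t).e θ (hcst (s := 1) A.W lam⁻¹ x) = σ x) ∧
    (Matrix.of fun t t' => (Γ t).reg (A.cls lam (β t'))).det ≠ 0

variable {A : Arr K r}

theorem exists_hasDet {ι : Type*} [Fintype ι] [DecidableEq ι] {σ : K →+* ℂ}
    {β : ι → Fin r ⊕ Fin 2 → Fin r ⊕ Fin 2 → ℤ} (h : A.Nodes σ β) :
    ∃ C : ℝ, ∀ lam : K, C ≤ ‖σ lam‖ → A.HasDet σ lam β := by
  classical
  obtain ⟨I, J, hIJ, hdet⟩ := h
  choose D hD0 hD using fun t => exists_torusN σ (hIJ t) β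
  set M1 : Matrix ι ι ℝ := (Matrix.of fun t t' => β t' (Sum.inl (I t)) (Sum.inl (J t)) -
      β t' (Sum.inl (J t)) (Sum.inl (I t))).map (Int.castRingHom ℝ) with hM1
  have hM1d : M1.det ≠ 0 := by
    rw [hM1, ← RingHom.mapMatrix_apply, ← RingHom.map_det]
    simpa using hdet
  set M0 : Matrix ι ι ℝ := Matrix.diagonal D * M1 with hM0
  have hM : M0.det ≠ 0 := by
    rw [hM0, Matrix.det_mul, Matrix.det_diagonal]
    exact mul_ne_zero (Finset.prod_ne_zero_iff.2 fun t _ => hD0 t) hM1d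
  obtain ⟨δ, hδ, hnear⟩ := det_ne_zero_near M0 hM
  choose Λ hΛ1 hΛ using fun t : ι => hD t (δ / 2) (by linarith)
  set C : ℝ := ∑ t, |Λ t| + 2 with hC
  have hsum : 0 ≤ ∑ t, |Λ t| := Finset.sum_nonneg fun J _ => abs_nonneg _
  have hΛC : ∀ t, Λ t ≤ C := by
    intro t
    have h1 := Finset.single_le_sum (f := fun t => |Λ t|) (fun t _ => abs_nonneg _)
      (Finset.mem_univ t)
    have h2 := le_abs_self (Λ t)
    have h3 : |Λ t| ≤ ∑ t, |Λ t| := h1
    linarith
  refine ⟨C, fun lam hlam => ?_⟩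
  choose Γ hΓ1 hΓ2 using fun t => hΛ t lam ((hΛC t).trans hlam)
  refine ⟨Γ, hΓ1, ?_⟩
  have hs : -Real.log ‖σ lam‖ ≠ 0 := by
    have : 0 < Real.log ‖σ lam‖ := Real.log_pos (by linarith)
    linarith
  set s : ℝ := -Real.log ‖σ lam‖ with hsdef
  have h1 : (Matrix.of fun t t' : ι => (Γ t).reg (A.cls lam (β t')) / s).det ≠ 0 := by
    refine hnear _ fun t t' => ?_
    have h3 := hΓ2 t t'
    have h4 : ((β t' (Sum.inl (I t)) (Sum.inl (J t)) -
        β t' (Sum.inl (J t)) (Sum.inl (I t)) : ℤ) : ℝ) * D t = M0 t t' := by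
      rw [hM0, Matrix.diagonal_mul, hM1, Matrix.map_apply, Matrix.of_apply, mul_comm]
      rfl
    rw [h4] at h3
    rw [Matrix.of_apply]
    exact lt_of_le_of_lt h3 (show δ / 2 < δ by linarith)
  have h2 : (Matrix.of fun t t' : ι => (Γ t).reg (A.cls lam (β t'))) =
      s • (Matrix.of fun t t' : ι => (Γ t).reg (A.cls lam (β t')) / s) := by
    ext t t'
    rw [Matrix.smul_apply, Matrix.of_apply, Matrix.of_apply, smul_eq_mul]
    field_simp
  rw [h2, Matrix.det_smul]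
  exact mul_ne_zero (pow_ne_zero _ hs) h1

/-- Nonzero regulators show that the classes are linearly independent. -/
theorem Arr.HasDet.linearIndependent {ι : Type*} [Fintype ι] [DecidableEq ι] {σ : K →+* ℂ}
    {lam : K} {β : ι → Fin r ⊕ Fin 2 → Fin r ⊕ Fin 2 → ℤ} (h : A.HasDet σ lam β) :
    LinearIndependent ℚ fun t => A.cls lam (β t) := by
  classical
  obtain ⟨Γ, -, hd⟩ := h
  set R : KQ (A.Ring lam) 2 →ₗ[ℚ] (ι → ℝ) := LinearMap.pi fun t => (Γ t).reg with hR
  refine LinearIndependent.of_comp R ?_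
  have h1 : LinearIndependent ℝ fun t' => R (A.cls lam (β t')) := by
    exact Matrix.linearIndependent_cols_iff_isUnit.2
      ((Matrix.isUnit_iff_isUnit_det _).2 (isUnit_iff_ne_zero.2 hd))
  exact h1.restrict_scalars (by
    intro a b hab
    simpa [Rat.smul_def] using hab)

theorem finite_exceptionsA [NumberField K] {ι : Type*} [Fintype ι] [DecidableEq ι]
    {β : ι → Fin r ⊕ Fin 2 → Fin r ⊕ Fin 2 → ℤ} (h : ∀ σ : K →+* ℂ, A.Nodes σ β) :
    {lam : K | IsIntegral ℤ lam ∧ ¬ ∃ σ : K →+* ℂ, A.HasDet σ lam β}.Finite := by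
  classical
  choose C hC using fun σ : K →+* ℂ => exists_hasDet (h σ)
  set B : ℝ := ∑ σ : K →+* ℂ, |C σ| with hB
  refine (NumberField.Embeddings.finite_of_norm_le K ℂ B).subset ?_
  rintro lam ⟨hint, hno⟩
  refine ⟨hint, fun σ => ?_⟩
  by_contra hcon
  push Not at hcon
  apply hno
  have h1 : C σ ≤ ‖σ lam‖ := by
    have h2 := Finset.single_le_sum (f := fun σ : K →+* ℂ => |C σ|) (fun σ _ => abs_nonneg _)
      (Finset.mem_univ σ)
    have h3 := le_abs_self (C σ)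
    have h4 : |C σ| ≤ B := h2
    linarith
  exact ⟨σ, hC σ lam h1⟩

end Pool.Agent.U374.St
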