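import Pool.Agent.U374.St.ArrT
set_option autoImplicit false

/-!
Curves `λ z^b ∏_e P_e(z) ^ (m_e + 1) = 1`: the regulators of the classes on loops near the nodes
`P_i = P_j = 0`.
-/

namespace Pool.Agent.U374.St

open Filter Topology

open Pool.Agent.TH826.MK

open Pool.Agent.TH577.UA (mmon mrow yrow det_yrow mmon_zero_eq)

open Pool.Agent.N65.TL

open Pool.Agent.TH826.SX (pairing_close)

open Pool.Agent.U374.Mn (exists_pointsL)

section node

variable {K : Type*} [Field K] {r : ℕ}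

/-- There is a common zero `p` of `P_i` and `P_j` with non-zero coordinates, at which the curves
`P_i = 0` and `P_j = 0` cross, and the other `P_e` are not zero. -/
def Arr.HasNode (A : Arr K r) (σ : K →+* ℂ) (i j : Fin r) : Prop :=
  i ≠ j ∧ ∃ p : Fin 2 → ℂ, (∀ l, p l ≠ 0) ∧ ev σ p (A.P i) = 0 ∧ ev σ p (A.P j) = 0 ∧
    (∀ e, e ≠ i → e ≠ j → ev σ p (A.P e) ≠ 0) ∧
    dv σ p (A.P i) 0 * dv σ p (A.P j) 1 - dv σ p (A.P i) 1 * dv σ p (A.P j) 0 ≠ 0

variable {A : Arr K r}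

theorem ev_single (σ : K →+* ℂ) (p : Fin 2 → ℂ) (hp : ∀ l, p l ≠ 0) (n : Fin 2 → ℤ) (c : K) :
    ev σ p (AddMonoidAlgebra.single n c) = σ c * ∏ l, p l ^ n l := by
  rw [← lev_mk0 σ p hp]
  refine (lev_single _ _ n c).trans ?_
  congr 1
  unfold mon
  rw [Units.coe_prod]
  exact Finset.prod_congr rfl fun i _ => by rw [Units.val_zpow_eq_zpow_val, Units.val_mk0]

theorem ev_W (σ : K →+* ℂ) (p : Fin 2 → ℂ) (hp : ∀ l, p l ≠ 0) :
    ev σ p A.W = ev σ p (AddMonoidAlgebra.single A.b 1) * ∏ e, ev σ p (A.P e) ^ (A.m e + 1) := by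
  simp only [← lev_mk0 σ p hp]
  unfold Arr.W
  rw [map_mul, map_prod]
  simp only [map_pow]

theorem ev_var (σ : K →+* ℂ) (p : Fin 2 → ℂ) (hp : ∀ l, p l ≠ 0) (l : Fin 2) :
    ev σ p (A.poly (Sum.inr l)) = p l := by
  show ev σ p (AddMonoidAlgebra.single (Pi.single l 1) 1) = p l
  rw [ev_single σ p hp, map_one, one_mul]
  fin_cases l
  · simp [Fin.prod_univ_two]
  · simp [Fin.prod_univ_two]

/-- the exponents at the node -/
def mu (i j : Fin r) (e : Fin r ⊕ Fin 2) (l : Fin 2) : ℕ :=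
  if e = Sum.inl (![i, j] l) then 1 else 0

theorem mmon_mu {i j : Fin r} (hij : i ≠ j) (e : Fin r ⊕ Fin 2) (y : (Fin 1 → ℂ) × ℂ) :
    mmon (mu i j e) y = if e = Sum.inl i then y.2 else if e = Sum.inl j then y.1 0 else 1 := by
  have h0 : mu i j e 0 = if e = Sum.inl i then 1 else 0 := rfl
  have h1 : mu i j e (Fin.succ 0) = if e = Sum.inl j then 1 else 0 := rfl
  unfold mmon
  rw [Fin.prod_univ_one, h0, h1]
  by_cases h2 : e = Sum.inl i
  · rw [if_pos h2, if_pos h2, if_neg (by rw [h2]; exact fun h => hij (Sum.inl.inj h)), pow_one,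
      pow_zero, mul_one]
  · rw [if_neg h2, if_neg h2, pow_zero, one_mul]
    by_cases h3 : e = Sum.inl j
    · rw [if_pos h3, if_pos h3, pow_one]
    · rw [if_neg h3, if_neg h3, pow_zero]

theorem det_mu (q : ℕ) (N : Fin 1 → ℕ) (μ μ' : Fin 2 → ℕ) :
    (Matrix.of fun l k => mrow q N (![μ, μ'] l) k : Matrix (Fin 2) (Fin 2) ℝ).det =
      ((μ 0 : ℝ) * μ' 1 - μ 1 * μ' 0) * (Matrix.of (yrow q N)).det := by
  have hm : ∀ (μ : Fin 2 → ℕ) (k : Fin 2), mrow q N μ k =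
      (μ 0 : ℝ) * yrow q N 0 k + (μ 1 : ℝ) * yrow q N 1 k := fun μ k => Fin.sum_univ_two _
  rw [Matrix.det_fin_two, Matrix.det_fin_two]
  simp only [Matrix.of_apply, hm, Matrix.cons_val_zero, Matrix.cons_val_one]
  ring

theorem sum_mu (i j : Fin r) (β : Fin r ⊕ Fin 2 → Fin r ⊕ Fin 2 → ℤ) (D : ℝ) :
    ∑ e, ∑ e', (β e e' : ℝ) *
      ((((mu i j e 0 : ℕ) : ℝ) * ((mu i j e' 1 : ℕ) : ℝ) -
        ((mu i j e 1 : ℕ) : ℝ) * ((mu i j e' 0 : ℕ) : ℝ)) * D) =
      (((β (Sum.inl i) (Sum.inl j) - β (Sum.inl j) (Sum.inl i) : ℤ)) : ℝ) * D := by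
  have h0 : ∀ e, ((mu i j e 0 : ℕ) : ℝ) = if e = Sum.inl i then 1 else 0 := fun e => by
    show (((if e = Sum.inl i then 1 else 0 : ℕ)) : ℝ) = _
    split_ifs <;> simp
  have h1 : ∀ e, ((mu i j e 1 : ℕ) : ℝ) = if e = Sum.inl j then 1 else 0 := fun e => by
    show (((if e = Sum.inl j then 1 else 0 : ℕ)) : ℝ) = _
    split_ifs <;> simp
  simp only [h0, h1]
  have h2 : ∀ e e', (β e e' : ℝ) * (((if e = Sum.inl i then (1 : ℝ) else 0) *
      (if e' = Sum.inl j then (1 : ℝ) else 0) - (if e = Sum.inl j then (1 : ℝ) else 0) *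
      (if e' = Sum.inl i then (1 : ℝ) else 0)) * D) =
      (if e = Sum.inl i then (if e' = Sum.inl j then (β e e' : ℝ) * D else 0) else 0) -
      (if e = Sum.inl j then (if e' = Sum.inl i then (β e e' : ℝ) * D else 0) else 0) := by
    intro e e'
    split_ifs <;> ring
  simp only [h2, Finset.sum_sub_distrib]
  have h3 : ∀ a b : Fin r ⊕ Fin 2, ∑ e, ∑ e', (if e = a then (if e' = b then (β e e' : ℝ) * D
      else 0) else 0) = (β a b : ℝ) * D := by
    intro a b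
    rw [Finset.sum_eq_single a]
    · rw [Finset.sum_eq_single b]
      · rw [if_pos rfl, if_pos rfl]
      · intro e' _ h
        rw [if_pos rfl, if_neg h]
      · intro h
        exact absurd (Finset.mem_univ _) h
    · intro e _ h
      exact Finset.sum_eq_zero fun e' _ => if_neg h
    · intro h
      exact absurd (Finset.mem_univ _) h
  rw [h3, h3]
  push_cast
  ring

/-- The regulators of the classes on a loop near a node. -/
theorem exists_torusN (σ : K →+* ℂ) {i j : Fin r} (hN : A.HasNode σ i j) {ι : Type*} [Fintype ι]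
    (β : ι → Fin r ⊕ Fin 2 → Fin r ⊕ Fin 2 → ℤ) :
    ∃ D : ℝ, D ≠ 0 ∧ ∀ ε : ℝ, 0 < ε → ∃ C : ℝ, 1 < C ∧ ∀ lam : K, C ≤ ‖σ lam‖ →
      ∃ Γ : Torus (A.Ring lam) 1, (∀ θ x, Γ.e θ (hcst (s := 1) A.W lam⁻¹ x) = σ x) ∧
        ∀ t, |Γ.reg (A.cls lam (β t)) / (-Real.log ‖σ lam‖) -
          ((β t (Sum.inl i) (Sum.inl j) - β t (Sum.inl j) (Sum.inl i) : ℤ) : ℝ) * D| ≤ ε := by
  classical
  obtain ⟨hij, p, hp, hpi, hpj, hpe, hdet⟩ := hN
  have hZ0 : ∀ x : Fin 2 → ℂ, ∀ l, p l * Complex.exp (x l) ≠ 0 := fun x l =>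
    mul_ne_zero (hp l) (Complex.exp_ne_zero _)
  have hat0 : ∀ P : LP K 2, ev σ (fun l => p l * Complex.exp ((0 : Fin 2 → ℂ) l)) P = ev σ p P := by
    intro P
    simp only [Pi.zero_apply, Complex.exp_zero, mul_one]
  obtain ⟨G, hGc, hG0, hGe⟩ := exists_inverse2
    (fun k => fun x : Fin 2 → ℂ => ev σ (fun l => p l * Complex.exp (x l)) (A.P (![i, j] k)))
    (fun k => contDiff_ev_exp σ p _) (fun k l => dv σ p (A.P (![i, j] k)) l)
    (fun k => hasFDerivAt_ev_exp σ p _) (by simpa using hdet)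
    (by
      intro k
      show ev σ (fun l => p l * Complex.exp ((0 : Fin 2 → ℂ) l)) (A.P (![i, j] k)) = 0
      rw [hat0]
      fin_cases k
      · exact hpi
      · exact hpj)
  set tv : (Fin 1 → ℂ) × ℂ → Fin 2 → ℂ := fun y => ![y.2, y.1 0] with htv
  have htvc : ContDiff ℂ 2 tv := by
    refine contDiff_pi.2 fun k => ?_
    fin_cases k
    · exact contDiff_snd
    · exact (contDiff_apply ℂ ℂ (0 : Fin 1)).comp contDiff_fst
  have htv0 : tv 0 = 0 := by
    funext k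
    fin_cases k
    · rfl
    · rfl
  set Z : (Fin 1 → ℂ) × ℂ → Fin 2 → ℂ := fun y l => p l * Complex.exp (G (tv y) l) with hZ
  have hZne : ∀ y l, Z y l ≠ 0 := fun y l => hZ0 (G (tv y)) l
  have hGt : ContDiffAt ℂ 2 (fun y => G (tv y)) 0 := by
    refine ContDiffAt.comp (0 : (Fin 1 → ℂ) × ℂ) (g := G) ?_ htvc.contDiffAt
    rw [htv0]
    exact hGc
  have hPc : ∀ P : LP K 2, ContDiffAt ℂ 2 (fun y => ev σ (Z y) P) 0 := fun P =>
    ((contDiff_ev_exp σ p P).contDiffAt).comp (0 : (Fin 1 → ℂ) × ℂ) hGt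
  have hP0 : ∀ P : LP K 2, ev σ (Z 0) P = ev σ p P := by
    intro P
    show ev σ (fun l => p l * Complex.exp (G (tv 0) l)) P = _
    rw [htv0, hG0]
    exact hat0 P
  have hPe : ∀ᶠ y in 𝓝 (0 : (Fin 1 → ℂ) × ℂ), ∀ k : Fin 2,
      ev σ (Z y) (A.P (![i, j] k)) = tv y k := by
    have h1 : Tendsto tv (𝓝 0) (𝓝 0) := by
      have h2 := htvc.continuous.tendsto 0
      rwa [htv0] at h2
    exact h1.eventually hGe
  set H : Fin r ⊕ Fin 2 → (Fin 1 → ℂ) × ℂ → ℂ := fun e y => ev σ (Z y) (A.poly e) with hH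
  set h : Fin r ⊕ Fin 2 → (Fin 1 → ℂ) × ℂ → ℂ := fun e y =>
    if e = Sum.inl i ∨ e = Sum.inl j then 1 else ev σ (Z y) (A.poly e) with hh
  have hhc : ∀ e, ContDiffAt ℂ 2 (h e) 0 := by
    intro e
    simp only [hh]
    by_cases he : e = Sum.inl i ∨ e = Sum.inl j
    · simp only [if_pos he]
      exact contDiffAt_const
    · simp only [if_neg he]
      exact hPc _
  have hhn : ∀ e, h e 0 ≠ 0 := by
    intro e
    simp only [hh]
    by_cases he : e = Sum.inl i ∨ e = Sum.inl j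
    · rw [if_pos he]
      exact one_ne_zero
    · rw [if_neg he]
      rcases e with e | l
      · rw [hP0]
        push Not at he
        exact hpe e (fun h1 => he.1 (congrArg _ h1)) (fun h1 => he.2 (congrArg _ h1))
      · rw [ev_var σ (Z 0) (hZne 0)]
        exact hZne 0 l
  have hhe : ∀ᶠ y in 𝓝 (0 : (Fin 1 → ℂ) × ℂ), ∀ e, H e y = mmon (mu i j e) y * h e y := by
    filter_upwards [hPe] with y hy e
    rw [mmon_mu hij]
    by_cases h1 : e = Sum.inl i
    · subst h1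
      have h3 : h (Sum.inl i) y = 1 := if_pos (Or.inl rfl)
      rw [if_pos rfl, h3, mul_one]
      exact hy 0
    · rw [if_neg h1]
      by_cases h2 : e = Sum.inl j
      · subst h2
        have h3 : h (Sum.inl j) y = 1 := if_pos (Or.inr rfl)
        rw [if_pos rfl, h3, mul_one]
        exact hy 1
      · rw [if_neg h2, one_mul]
        simp only [hh, hH]
        rw [if_neg (by push Not; exact ⟨h1, h2⟩)]
  set μ0 : Fin 2 → ℕ := fun l => ∑ e : Fin r, (A.m e + 1) * mu i j (Sum.inl e) l with hμ0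
  set q : ℕ := μ0 0 with hq
  have hq0 : 0 < q := by
    show 0 < ∑ e : Fin r, (A.m e + 1) * mu i j (Sum.inl e) 0
    refine Finset.sum_pos' (fun _ _ => Nat.zero_le _) ⟨i, Finset.mem_univ _, ?_⟩
    have h1 : mu i j (Sum.inl i) 0 = 1 := if_pos rfl
    rw [h1]
    omega
  set N : Fin 1 → ℕ := fun k => μ0 k.succ with hNd
  set f0 : (Fin 1 → ℂ) × ℂ → ℂ := fun y =>
    ev σ (Z y) (AddMonoidAlgebra.single A.b 1) * ∏ e : Fin r, h (Sum.inl e) y ^ (A.m e + 1) with hf0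
  have hf0c : ContDiffAt ℂ 2 f0 0 :=
    (hPc _).mul (contDiffAt_prod fun e _ => (hhc (Sum.inl e)).pow _)
  have hf00 : f0 0 ≠ 0 := by
    refine mul_ne_zero ?_ (Finset.prod_ne_zero_iff.2 fun e _ => pow_ne_zero _ (hhn (Sum.inl e)))
    rw [ev_single σ (Z 0) (hZne 0), map_one, one_mul]
    exact Finset.prod_ne_zero_iff.2 fun l _ => zpow_ne_zero _ (hZne 0 l)
  have hF0 : ∀ᶠ y in 𝓝 (0 : (Fin 1 → ℂ) × ℂ), ev σ (Z y) A.W = mmon μ0 y * f0 y := by
    filter_upwards [hhe] with y hy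
    rw [ev_W σ (Z y) (hZne y)]
    have h1 : ∏ e : Fin r, ev σ (Z y) (A.P e) ^ (A.m e + 1) =
        ∏ e : Fin r, (mmon (mu i j (Sum.inl e)) y) ^ (A.m e + 1) *
          h (Sum.inl e) y ^ (A.m e + 1) :=
      Finset.prod_congr rfl fun e _ => by
        have h2 : ev σ (Z y) (A.P e) = mmon (mu i j (Sum.inl e)) y * h (Sum.inl e) y :=
          hy (Sum.inl e)
        rw [h2, mul_pow]
    rw [h1, Finset.prod_mul_distrib, mmon_prod]
    simp only [hf0, hμ0]
    ring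
  refine ⟨(2 * Real.pi) ^ 1 * (Matrix.of (yrow q N)).det, mul_ne_zero
    (pow_ne_zero _ (by have := Real.pi_pos; positivity)) (det_yrow hq0 N), fun ε hε => ?_⟩
  set B : ℝ := ∑ t : ι, ∑ e, ∑ e', |(β t e e' : ℝ)| with hB
  have hB0 : 0 ≤ B := Finset.sum_nonneg fun t _ => Finset.sum_nonneg fun e _ =>
    Finset.sum_nonneg fun e' _ => abs_nonneg _
  have hBt : ∀ t, ∑ e, ∑ e', |(β t e e' : ℝ)| ≤ B := fun t =>
    Finset.single_le_sum (f := fun t => ∑ e, ∑ e', |(β t e e' : ℝ)|)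
      (fun t _ => Finset.sum_nonneg fun e _ => Finset.sum_nonneg fun e' _ => abs_nonneg _)
      (Finset.mem_univ t)
  have hε' : 0 < ε / (1 + B) := div_pos hε (by linarith)
  choose δ hδ hclose using fun ee : (Fin r ⊕ Fin 2) × (Fin r ⊕ Fin 2) =>
    pairing_close (Matrix.of fun l k => mrow q N (![mu i j ee.1, mu i j ee.2] l) k :
      Matrix (Fin 2) (Fin 2) ℝ) hε'
  obtain ⟨T0, -, hT0⟩ := Finset.exists_min_image
    (Finset.univ : Finset ((Fin r ⊕ Fin 2) × (Fin r ⊕ Fin 2))) δ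
    ⟨(Sum.inl i, Sum.inl i), Finset.mem_univ _⟩
  have hδ2 : 0 < δ T0 / 2 := by have := hδ T0; linarith
  have hδlt : ∀ ee, δ T0 / 2 < δ ee := by
    intro ee
    have h1 := hT0 ee (Finset.mem_univ _)
    have h2 := hδ T0
    linarith
  obtain ⟨η0, hη0, hX⟩ := exists_pointsL (q := q) (N := N) (H := H) (h := h)
    (μ := fun e => mu i j e) hF0 hf0c hf00 (fun e => hhe.mono fun y hy => hy e) hhc
    (G := fun _ => True) (Filter.Eventually.of_forall fun _ => trivial) hhn rfl hq0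
    (fun k => rfl) hδ2
  have hinvpos : 0 < 1 / η0 := by positivity
  refine ⟨1 / η0 + 2, by linarith, fun lam hlam => ?_⟩
  have hln : 0 < ‖σ lam‖ := by linarith
  have hl0 : σ lam ≠ 0 := norm_pos_iff.1 hln
  have hlam0 : lam ≠ 0 := fun h0 => hl0 (by rw [h0, map_zero])
  have hη : ‖(σ lam)⁻¹‖ < η0 := by
    rw [norm_inv, inv_lt_comm₀ hln hη0, ← one_div]
    linarith
  obtain ⟨hlog, U, hUc, hUp, hUe, -, hUg, hUest⟩ := hX _ (inv_ne_zero hl0) hη
  have hlogeq : Real.log ‖(σ lam)⁻¹‖ = -Real.log ‖σ lam‖ := by rw [norm_inv, Real.log_inv]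
  rw [hlogeq] at hlog hUest
  set s : ℝ := -Real.log ‖σ lam‖ with hs
  have hs0 : s ≠ 0 := hlog.ne
  have hZg : ∀ l, Good fun θ => Z (U θ) l := by
    intro l
    have h1 := hUg (Sum.inr l)
    have h2 : (fun θ => H (Sum.inr l) (U θ)) = fun θ => Z (U θ) l := by
      funext θ
      exact ev_var σ (Z (U θ)) (hZne (U θ)) l
    rwa [h2] at h1
  have hPt : ∀ θ, HPt (s := 1) σ A.W lam⁻¹ fun l => Z (U θ) l := fun θ =>
    { ne := fun l => hZne (U θ) l
      eq := by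
        have h1 : ev σ (Z (U θ)) A.W = (σ lam)⁻¹ := hUe θ
        rw [map_inv₀]
        exact h1 }
  have hZp : ∀ l, Per fun θ => Z (U θ) l := fun l θ k => by
    show Z (U (θ + Pi.single k 1)) l = Z (U θ) l
    rw [hUp]
  set Γ := mkH (s := 1) hZg hPt hZp with hΓ
  refine ⟨Γ, fun θ x => (hPt θ).ev_cst x, fun t => ?_⟩
  have hfn : ∀ e, Γ.fn (A.unit lam e : A.Ring lam) = fun θ => H e (U θ) := by
    intro e
    funext θ
    show (hPt θ).ev (A.unit lam e : A.Ring lam) = H e (U θ)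
    rw [coe_unit hlam0, (hPt θ).ev_mk, (hPt θ).ev0_eq]
    rfl
  have hpair : ∀ e e', |Γ.reg (symb ![A.unit lam e, A.unit lam e']) / s -
      (2 * Real.pi) ^ 1 * ((((mu i j e 0 : ℕ) : ℝ) * ((mu i j e' 1 : ℕ) : ℝ) -
        ((mu i j e 1 : ℕ) : ℝ) * ((mu i j e' 0 : ℕ) : ℝ)) * (Matrix.of (yrow q N)).det)| ≤
        ε / (1 + B) := by
    intro e e'
    rw [← det_mu, Torus.reg_symb]
    have hg : ∀ l : Fin 2, Γ.fn ((![A.unit lam e, A.unit lam e'] l : (A.Ring lam)ˣ) :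
        A.Ring lam) = fun θ => H (![e, e'] l) (U θ) := by
      intro l
      fin_cases l
      · exact hfn e
      · exact hfn e'
    have hm : ∀ l : Fin 2, ![mu i j e, mu i j e'] l = mu i j (![e, e'] l) := by
      intro l
      fin_cases l
      · rfl
      · rfl
    refine hclose (e, e') _ s hs0 (fun l => Γ.good _) (fun l θ => ?_) (fun l k θ => ?_)
    · rw [congrFun (hg l) θ, Matrix.of_apply, hm l]
      exact lt_of_le_of_lt (hUest (![e, e'] l) θ).1 (hδlt _)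
    · rw [hg l, Matrix.of_apply, hm l]
      exact lt_of_le_of_lt ((hUest (![e, e'] l) θ).2 k) (hδlt _)
  have hreg : Γ.reg (A.cls lam (β t)) / s = ∑ e, ∑ e', (β t e e' : ℝ) *
      (Γ.reg (symb ![A.unit lam e, A.unit lam e']) / s) := by
    unfold Arr.cls
    rw [map_sum, Finset.sum_div]
    refine Finset.sum_congr rfl fun e _ => ?_
    rw [map_sum, Finset.sum_div]
    refine Finset.sum_congr rfl fun e' _ => ?_
    rw [map_smul, Rat.smul_def, Rat.cast_intCast, mul_div_assoc]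
  have hlead : ((β t (Sum.inl i) (Sum.inl j) - β t (Sum.inl j) (Sum.inl i) : ℤ) : ℝ) *
      ((2 * Real.pi) ^ 1 * (Matrix.of (yrow q N)).det) = ∑ e, ∑ e', (β t e e' : ℝ) *
      ((2 * Real.pi) ^ 1 * ((((mu i j e 0 : ℕ) : ℝ) * ((mu i j e' 1 : ℕ) : ℝ) -
        ((mu i j e 1 : ℕ) : ℝ) * ((mu i j e' 0 : ℕ) : ℝ)) * (Matrix.of (yrow q N)).det)) := by
    rw [← sum_mu i j (β t)]
    refine Finset.sum_congr rfl fun e _ => Finset.sum_congr rfl fun e' _ => ?_
    ring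
  rw [hreg, hlead, ← Finset.sum_sub_distrib]
  simp only [← Finset.sum_sub_distrib, ← mul_sub]
  refine (Finset.abs_sum_le_sum_abs _ _).trans ?_
  calc ∑ e, |∑ e', (β t e e' : ℝ) * (Γ.reg (symb ![A.unit lam e, A.unit lam e']) / s -
        (2 * Real.pi) ^ 1 * ((((mu i j e 0 : ℕ) : ℝ) * ((mu i j e' 1 : ℕ) : ℝ) -
        ((mu i j e 1 : ℕ) : ℝ) * ((mu i j e' 0 : ℕ) : ℝ)) * (Matrix.of (yrow q N)).det))|
      ≤ ∑ e, ∑ e', |(β t e e' : ℝ)| * (ε / (1 + B)) := by
        refine Finset.sum_le_sum fun e _ => (Finset.abs_sum_le_sum_abs _ _).trans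
          (Finset.sum_le_sum fun e' _ => ?_)
        rw [abs_mul]
        exact mul_le_mul_of_nonneg_left (hpair e e') (abs_nonneg _)
    _ = (∑ e, ∑ e', |(β t e e' : ℝ)|) * (ε / (1 + B)) := by
        rw [Finset.sum_mul]
        refine Finset.sum_congr rfl fun e _ => ?_
        rw [Finset.sum_mul]
    _ ≤ (1 + B) * (ε / (1 + B)) := by
        refine mul_le_mul_of_nonneg_right ?_ hε'.le
        linarith [hBt t]
    _ = ε := by field_simp

end node

end Pool.Agent.U374.St
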