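import Pool.Agent.U374.St.ArrZ
set_option autoImplicit false

/-!
Curves `λ z^b ∏_e P_e(z) ^ (m_e + 1) = 1` with binomials `P_e = ζ_e + ζ_e' z^(u_e)`: the classes of
the triples `(0, j, k)`.
-/

namespace Pool.Agent.U374.St

open Pool.Agent.TH826.MK

open Pool.Agent.N65.TL

/-- The pairs `(j, k)` with `0 < j < k < r`. -/
abbrev Pairs (r : ℕ) : Type := {t : Fin r × Fin r // 0 < (t.1 : ℕ) ∧ t.1 < t.2}

section pairs

variable {r : ℕ}

theorem tri_inl (u : Fin r → Fin 2 → ℤ) (i j k a b : Fin r) :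
    tri u i j k (Sum.inl a) (Sum.inl b) =
      (if a = i ∧ b = j then |wdg (u j) (u k)| * |wdg (u k) (u i)| else 0) +
      (if a = j ∧ b = k then |wdg (u k) (u i)| * |wdg (u i) (u j)| else 0) +
      (if a = k ∧ b = i then |wdg (u i) (u j)| * |wdg (u j) (u k)| else 0) := by
  unfold tri tri1 elc
  simp

variable {K : Type*} [Field K] {A : Arr K r} {u : Fin r → Fin 2 → ℤ}

theorem dv_bin (σ : K →+* ℂ) (p : Fin 2 → ℂ) {w : Fin 2 → ℤ} (hw : w ≠ 0) (ζ ζ' : K)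
    (l : Fin 2) : dv σ p (AddMonoidAlgebra.single 0 ζ + AddMonoidAlgebra.single w ζ') l =
      (w l : ℂ) * (σ ζ' * ∏ l, p l ^ w l) := by
  classical
  unfold dv
  set W : LP K 2 := AddMonoidAlgebra.single 0 ζ + AddMonoidAlgebra.single w ζ' with hW
  by_cases h0 : ζ' = 0
  · rw [h0, map_zero, zero_mul, mul_zero]
    refine Finset.sum_eq_zero fun m hm => ?_
    have h1 := Finsupp.mem_support_iff.1 hm
    have h2 : m = 0 := by
      rcases bin_supp h1 with h3 | h3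
      · exact h3
      · exfalso
        rw [h3, hW, coeff_bin_u hw] at h1
        exact h1 h0
    rw [h2]
    simp
  · rw [Finset.sum_eq_single w]
    · rw [hW, coeff_bin_u hw]
    · intro m hm hne
      have h1 := Finsupp.mem_support_iff.1 hm
      have h2 : m = 0 := (bin_supp h1).resolve_right hne
      rw [h2]
      simp
    · intro h
      exfalso
      apply h
      rw [Finsupp.mem_support_iff, hW, coeff_bin_u hw]
      exact h0

/-- In the binomial case the curves cross in all common zeros. -/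
theorem Arr.Toric.hasNode (h : A.Toric u) {σ : K →+* ℂ} {i j : Fin r} (hij : i ≠ j)
    (hp : ∃ p : Fin 2 → ℂ, (∀ l, p l ≠ 0) ∧ ev σ p (A.P i) = 0 ∧ ev σ p (A.P j) = 0 ∧
      ∀ e, e ≠ i → e ≠ j → ev σ p (A.P e) ≠ 0) : A.HasNode σ i j := by
  obtain ⟨p, h1, h2, h3, h4⟩ := hp
  refine ⟨hij, p, h1, h2, h3, h4, ?_⟩
  obtain ⟨a, a', ha, ha', hi⟩ := h.form i
  obtain ⟨b, b', hb, hb', hj⟩ := h.form j
  rw [hi, hj, dv_bin σ p (h.ne i), dv_bin σ p (h.ne i), dv_bin σ p (h.ne j), dv_bin σ p (h.ne j)]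
  set x := σ a' * ∏ l, p l ^ u i l with hx
  set y := σ b' * ∏ l, p l ^ u j l with hy
  have hx0 : x ≠ 0 := mul_ne_zero ((map_ne_zero σ).2 ha'.ne_zero)
    (Finset.prod_ne_zero_iff.2 fun l _ => zpow_ne_zero _ (h1 l))
  have hy0 : y ≠ 0 := mul_ne_zero ((map_ne_zero σ).2 hb'.ne_zero)
    (Finset.prod_ne_zero_iff.2 fun l _ => zpow_ne_zero _ (h1 l))
  have hw : ((wdg (u i) (u j) : ℤ) : ℂ) ≠ 0 := Int.cast_ne_zero.2 (h.ind i j hij)
  have e : (u i 0 : ℂ) * x * ((u j 1 : ℂ) * y) - (u i 1 : ℂ) * x * ((u j 0 : ℂ) * y) =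
      ((wdg (u i) (u j) : ℤ) : ℂ) * (x * y) := by
    unfold wdg
    push_cast
    ring
  rw [e]
  exact mul_ne_zero hw (mul_ne_zero hx0 hy0)

theorem Pairs.pos (t : Pairs r) : 0 < r := lt_of_le_of_lt (Nat.zero_le _) t.1.1.2

/-- The coefficients of the classes of the triples `(0, j, k)`, `0 < j < k`. -/
def triP (u : Fin r → Fin 2 → ℤ) (t : Pairs r) : Fin r ⊕ Fin 2 → Fin r ⊕ Fin 2 → ℤ :=
  tri u ⟨0, t.pos⟩ t.1.1 t.1.2

theorem Pairs.ne_zero (t : Pairs r) : (⟨0, t.pos⟩ : Fin r) ≠ t.1.1 := fun h1 => by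
  have h2 := t.2.1
  rw [← h1] at h2
  exact lt_irrefl _ h2

theorem Pairs.ne_zero' (t : Pairs r) : t.1.2 ≠ (⟨0, t.pos⟩ : Fin r) := fun h1 => by
  have h2 := t.2.2
  rw [h1] at h2
  exact absurd h2 (Nat.not_lt_zero _)

theorem Arr.Toric.adm_triP (h : A.Toric u) (t : Pairs r) : A.Adm (triP u t) :=
  h.adm t.ne_zero t.2.2.ne t.ne_zero'

theorem Arr.Toric.nodes_triP (h : A.Toric u) (σ : K →+* ℂ) (S : Finset (Pairs r))
    (hS : ∀ t ∈ S, ∃ p : Fin 2 → ℂ, (∀ l, p l ≠ 0) ∧ ev σ p (A.P t.1.1) = 0 ∧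
      ev σ p (A.P t.1.2) = 0 ∧ ∀ e, e ≠ t.1.1 → e ≠ t.1.2 → ev σ p (A.P e) ≠ 0) :
    A.Nodes σ fun t : S => triP u t := by
  classical
  refine ⟨fun t => t.1.1.1, fun t => t.1.1.2, fun t => h.hasNode t.1.2.2.ne (hS t.1 t.2), ?_⟩
  have hM : (Matrix.of fun t t' : S => triP u t' (Sum.inl t.1.1.1) (Sum.inl t.1.1.2) -
      triP u t' (Sum.inl t.1.1.2) (Sum.inl t.1.1.1)) = Matrix.diagonal fun t : S =>
        |wdg (u t.1.1.2) (u ⟨0, t.1.pos⟩)| * |wdg (u ⟨0, t.1.pos⟩) (u t.1.1.1)| := by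
    ext t t'
    rw [Matrix.of_apply]
    unfold triP
    rw [tri_inl, tri_inl]
    have n1 : ¬ (t.1.1.1 = (⟨0, t'.1.pos⟩ : Fin r) ∧ t.1.1.2 = t'.1.1.1) := fun hh =>
      t.1.ne_zero hh.1.symm
    have n2 : ¬ (t.1.1.1 = t'.1.1.2 ∧ t.1.1.2 = (⟨0, t'.1.pos⟩ : Fin r)) := fun hh =>
      t.1.ne_zero' hh.2
    have n3 : ¬ (t.1.1.2 = (⟨0, t'.1.pos⟩ : Fin r) ∧ t.1.1.1 = t'.1.1.1) := fun hh =>
      t.1.ne_zero' hh.1
    have n4 : ¬ (t.1.1.2 = t'.1.1.2 ∧ t.1.1.1 = (⟨0, t'.1.pos⟩ : Fin r)) := fun hh =>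
      t.1.ne_zero hh.2.symm
    have n5 : ¬ (t.1.1.2 = t'.1.1.1 ∧ t.1.1.1 = t'.1.1.2) := fun hh => by
      have e1 := t.1.2.2
      have e2 := t'.1.2.2
      rw [hh.1, hh.2] at e1
      exact lt_asymm e1 e2
    rw [if_neg n1, if_neg n2, if_neg n3, if_neg n4, if_neg n5]
    by_cases htt : t = t'
    · subst htt
      rw [if_pos ⟨rfl, rfl⟩, Matrix.diagonal_apply_eq]
      ring
    · rw [Matrix.diagonal_apply_ne _ htt, if_neg]
      · ring
      · rintro ⟨e1, e2⟩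
        exact htt (Subtype.ext (Subtype.ext (Prod.ext e1 e2)))
  rw [hM, Matrix.det_diagonal]
  refine Finset.prod_ne_zero_iff.2 fun t _ => mul_ne_zero ?_ ?_
  · exact abs_ne_zero.2 (h.ind _ _ t.1.ne_zero')
  · exact abs_ne_zero.2 (h.ind _ _ t.1.ne_zero)

end pairs

end Pool.Agent.U374.St
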