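import Pool.Agent.U374.St.ArrU
import Pool.Agent.U374.Mn.TTor
set_option autoImplicit false

/-!
Curves `λ z^b ∏_e P_e(z) ^ (m_e + 1) = 1`: loops near the nodes `P_i = P_j = 0`.
-/

namespace Pool.Agent.U374.St

open Filter Topology

open Pool.Agent.TH826.MK

open Pool.Agent.TH577.UA (mmon mrow yrow det_yrow contDiff_mmon)

open Pool.Agent.N65.TL

open Pool.Agent.U374.Tr (leadG)

open Pool.Agent.U374.Tw (det_mrow)

open Pool.Agent.U374.Mn (exists_pointsL)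

section inv

/-- Local inverses of maps of `ℂ²`. -/
theorem exists_inverse2 (f : Fin 2 → (Fin 2 → ℂ) → ℂ) (hf : ∀ j, ContDiff ℂ 2 (f j))
    (D : Fin 2 → Fin 2 → ℂ) (hD : ∀ j, HasFDerivAt (f j)
      (∑ l, D j l • (ContinuousLinearMap.proj l : (Fin 2 → ℂ) →L[ℂ] ℂ)) 0)
    (hdet : D 0 0 * D 1 1 - D 0 1 * D 1 0 ≠ 0) (h0 : ∀ j, f j 0 = 0) :
    ∃ G : (Fin 2 → ℂ) → (Fin 2 → ℂ), ContDiffAt ℂ 2 G 0 ∧ G 0 = 0 ∧
      ∀ᶠ t in 𝓝 (0 : Fin 2 → ℂ), ∀ j, f j (G t) = t j := by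
  classical
  set F : (Fin 2 → ℂ) → (Fin 2 → ℂ) := fun x j => f j x with hF
  have hfc : ContDiff ℂ 2 F := contDiff_pi.2 fun j => hf j
  have hfx : F 0 = 0 := funext h0
  set f' : (Fin 2 → ℂ) →L[ℂ] (Fin 2 → ℂ) := ContinuousLinearMap.pi fun j =>
    ∑ l, D j l • (ContinuousLinearMap.proj l : (Fin 2 → ℂ) →L[ℂ] ℂ) with hf'
  have hd' : HasFDerivAt F f' 0 := hasFDerivAt_pi.2 fun j => hD j
  have hfv : ∀ v j, f' v j = D j 0 * v 0 + D j 1 * v 1 := by
    intro v j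
    simp [hf', Fin.sum_univ_two]
  have hinj : Function.Injective (f' : (Fin 2 → ℂ) →ₗ[ℂ] (Fin 2 → ℂ)) := by
    rw [injective_iff_map_eq_zero]
    intro v hv0
    have e0 : D 0 0 * v 0 + D 0 1 * v 1 = 0 := by rw [← hfv]; exact congrFun hv0 0
    have e1 : D 1 0 * v 0 + D 1 1 * v 1 = 0 := by rw [← hfv]; exact congrFun hv0 1
    have g0 : (D 0 0 * D 1 1 - D 0 1 * D 1 0) * v 0 = 0 := by
      linear_combination D 1 1 * e0 - D 0 1 * e1
    have g1 : (D 0 0 * D 1 1 - D 0 1 * D 1 0) * v 1 = 0 := by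
      linear_combination D 0 0 * e1 - D 1 0 * e0
    funext l
    fin_cases l
    · exact (mul_eq_zero.1 g0).resolve_left hdet
    · exact (mul_eq_zero.1 g1).resolve_left hdet
  set e : (Fin 2 → ℂ) ≃L[ℂ] (Fin 2 → ℂ) :=
    (LinearEquiv.ofInjectiveEndo (f' : (Fin 2 → ℂ) →ₗ[ℂ] (Fin 2 → ℂ))
      hinj).toContinuousLinearEquiv with he
  have hee : (e : (Fin 2 → ℂ) →L[ℂ] (Fin 2 → ℂ)) = f' := by
    ext v j
    rfl
  have hda : HasFDerivAt F (e : (Fin 2 → ℂ) →L[ℂ] (Fin 2 → ℂ)) 0 := by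
    rw [hee]
    exact hd'
  have h2 : (2 : WithTop ℕ∞) ≠ 0 := by norm_num
  refine ⟨hfc.contDiffAt.localInverse hda h2, ?_, ?_, ?_⟩
  · have h3 := hfc.contDiffAt.to_localInverse hda h2
    rwa [hfx] at h3
  · have h3 := hfc.contDiffAt.localInverse_apply_image hda h2
    rwa [hfx] at h3
  · have h3 := (hfc.contDiffAt.hasStrictFDerivAt' hda h2).eventually_right_inverse
    rw [hfx] at h3
    filter_upwards [h3] with t ht j
    exact congrFun ht j

end inv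

section expo

variable {K : Type*} [Field K]

/-- The value of a Laurent polynomial at a complex point. -/
noncomputable def ev (σ : K →+* ℂ) (p : Fin 2 → ℂ) (P : LP K 2) : ℂ :=
  ∑ m ∈ P.coeff.support, σ (P.coeff m) * ∏ l, p l ^ m l

/-- The value of `z_l ∂P / ∂z_l` at a complex point. -/
noncomputable def dv (σ : K →+* ℂ) (p : Fin 2 → ℂ) (P : LP K 2) (l : Fin 2) : ℂ :=
  ∑ m ∈ P.coeff.support, (m l : ℂ) * (σ (P.coeff m) * ∏ l, p l ^ m l)

theorem lev_mk0 (σ : K →+* ℂ) (p : Fin 2 → ℂ) (hp : ∀ l, p l ≠ 0) (P : LP K 2) :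
    lev σ (fun l => Units.mk0 (p l) (hp l)) P = ev σ p P := by
  refine (lev_eq _ _ P).trans (Finset.sum_congr rfl fun m _ => ?_)
  congr 1
  unfold mon
  rw [Units.coe_prod]
  exact Finset.prod_congr rfl fun i _ => by rw [Units.val_zpow_eq_zpow_val, Units.val_mk0]

/-- the Laurent polynomial in exponential coordinates at `p` -/
theorem ev_exp (σ : K →+* ℂ) (p : Fin 2 → ℂ) (P : LP K 2) (x : Fin 2 → ℂ) :
    ev σ (fun l => p l * Complex.exp (x l)) P =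
      ∑ m ∈ P.coeff.support, (σ (P.coeff m) * ∏ l, p l ^ m l) *
        Complex.exp (∑ l, (m l : ℂ) * x l) := by
  unfold ev
  refine Finset.sum_congr rfl fun m _ => ?_
  have h1 : ∏ l, (p l * Complex.exp (x l)) ^ m l =
      (∏ l, p l ^ m l) * Complex.exp (∑ l, (m l : ℂ) * x l) := by
    rw [Complex.exp_sum, ← Finset.prod_mul_distrib]
    refine Finset.prod_congr rfl fun l _ => ?_
    rw [mul_zpow, ← Complex.exp_int_mul]
  rw [h1, mul_assoc]

theorem contDiff_ev_exp (σ : K →+* ℂ) (p : Fin 2 → ℂ) (P : LP K 2) :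
    ContDiff ℂ 2 fun x : Fin 2 → ℂ => ev σ (fun l => p l * Complex.exp (x l)) P := by
  simp only [ev_exp]
  refine ContDiff.sum fun m _ => contDiff_const.mul (ContDiff.cexp ?_)
  exact ContDiff.sum fun l _ => contDiff_const.mul (contDiff_apply ℂ ℂ l)

theorem hasFDerivAt_ev_exp (σ : K →+* ℂ) (p : Fin 2 → ℂ) (P : LP K 2) :
    HasFDerivAt (fun x : Fin 2 → ℂ => ev σ (fun l => p l * Complex.exp (x l)) P)
      (∑ l, dv σ p P l • (ContinuousLinearMap.proj l : (Fin 2 → ℂ) →L[ℂ] ℂ)) 0 := by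
  simp only [ev_exp]
  have h1 : ∀ m ∈ P.coeff.support, HasFDerivAt (fun x : Fin 2 → ℂ =>
      (σ (P.coeff m) * ∏ l, p l ^ m l) * Complex.exp (∑ l, (m l : ℂ) * x l))
      ((σ (P.coeff m) * ∏ l, p l ^ m l) •
        ∑ l, (m l : ℂ) • (ContinuousLinearMap.proj l : (Fin 2 → ℂ) →L[ℂ] ℂ)) 0 := by
    intro m _
    have h2 : HasFDerivAt (fun x : Fin 2 → ℂ => ∑ l, (m l : ℂ) * x l)
        (∑ l, (m l : ℂ) • (ContinuousLinearMap.proj l : (Fin 2 → ℂ) →L[ℂ] ℂ)) 0 :=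
      HasFDerivAt.fun_sum fun l _ => (hasFDerivAt_apply l (0 : Fin 2 → ℂ)).const_mul _
    have h3 := h2.cexp.const_mul (σ (P.coeff m) * ∏ l, p l ^ m l)
    refine h3.congr_fderiv ?_
    simp
  refine (HasFDerivAt.fun_sum h1).congr_fderiv ?_
  refine ContinuousLinearMap.ext fun v => ?_
  simp only [dv, add_apply, sum_apply, smul_apply, ContinuousLinearMap.proj_apply,
    smul_eq_mul, Fin.sum_univ_two, Finset.sum_mul, ← Finset.sum_add_distrib]
  exact Finset.sum_congr rfl fun m _ => by ring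

end expo

end Pool.Agent.U374.St
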