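import Pool.Agent.U374.St.Arr
set_option autoImplicit false

/-!
Curves `λ z^b ∏_e P_e(z) ^ (m_e + 1) = 1`: the classes are unramified.
-/

namespace Pool.Agent.U374.St

open scoped WithZero

open Pool.Agent.TH826.MK

open Pool.Agent.N65.TL

section bin

variable {L : Type*} [Field L]

theorem root_mul {ρ : Lˣ} (hρ : ∃ k : ℕ, k ≠ 0 ∧ ρ ^ k = 1) (x t : Additive Lˣ) :
    Bh x (Additive.ofMul (-ρ) + t) = Bh x t := by
  obtain ⟨k, hk, hk1⟩ := hρ
  rw [map_add, Bh_symm x, Bh_root (k := 2 * k) _ _ (by omega), neg_zero, zero_add]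
  rw [← ofMul_pow, pow_mul, neg_sq, ← pow_mul, mul_comm 2 k, pow_mul, hk1, one_pow, ofMul_one]

/-- The symbols `{w, t}` where `w` is close to `1 + ρ t` lie in the unit part. -/
theorem bin_mem (v : Valuation L ℤᵐ⁰) (w t ρ : Lˣ) (hρ : ∃ k : ℕ, k ≠ 0 ∧ ρ ^ k = 1)
    (ht : v (t : L) = 1) (hw : v ((w : L) - (1 + ρ * t)) < 1) :
    symb ![w, t] ∈ unitPart v 2 := by
  have hρv : v (ρ : L) = 1 := by
    obtain ⟨k, hk, hk1⟩ := hρ
    refine val_root v hk ?_
    rw [← Units.val_pow_eq_pow_val, hk1, Units.val_one]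
  have hneg : ((-(ρ * t) : Lˣ) : L) = -((ρ : L) * t) := by
    rw [Units.val_neg, Units.val_mul]
  have e1 : ∀ x : Lˣ, symb ![x, -(ρ * t)] = symb ![x, t] := by
    intro x
    have h2 : Additive.ofMul (-(ρ * t)) = Additive.ofMul (-ρ) + Additive.ofMul t := by
      rw [← ofMul_mul, neg_mul]
    rw [← Bh_apply, ← Bh_apply, h2, root_mul hρ]
  by_cases hy : v (1 + (ρ : L) * t) < 1
  · rw [← e1]
    refine mem_unitPart_of_oneUnit' v 1 _ ?_
    show v (((-(ρ * t) : Lˣ) : L) - 1) < 1
    have h3 : ((-(ρ * t) : Lˣ) : L) - 1 = -(1 + (ρ : L) * t) := by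
      rw [hneg]
      ring
    rw [h3, Valuation.map_neg]
    exact hy
  · have hy0 : (1 + (ρ : L) * t) ≠ 0 := by
      intro h0
      apply hy
      rw [h0, map_zero]
      exact zero_lt_one
    have hy1 : 1 ≤ v (1 + (ρ : L) * t) := not_lt.1 hy
    set Y : Lˣ := Units.mk0 _ hy0 with hY
    have h4 : symb ![w, t] = symb ![Y, t] + symb ![w / Y, t] := by
      rw [← Bh_apply, ← Bh_apply, ← Bh_apply, ← AddMonoidHom.add_apply, ← map_add, ← ofMul_mul,
        mul_div_cancel]
    have h5 : symb ![Y, t] = 0 := by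
      rw [← e1]
      refine symb_eq_zero' _ (i := 0) (j := 1) (by decide) ?_
      show (Y : L) + ((-(ρ * t) : Lˣ) : L) = 1
      rw [hneg, hY, Units.val_mk0]
      ring
    rw [h4, h5, zero_add]
    refine mem_unitPart_of_oneUnit' v 0 _ ?_
    show v (((w / Y : Lˣ) : L) - 1) < 1
    have h6 : ((w / Y : Lˣ) : L) - 1 = ((w : L) - (1 + ρ * t)) / (1 + ρ * t) := by
      rw [Units.val_div_eq_div_val, hY, Units.val_mk0]
      field_simp
    rw [h6, map_div₀, div_lt_one₀ (zero_lt_one.trans_le hy1)]
    exact hw.trans_le hy1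

end bin

section unram

variable {K : Type*} [Field K] {r : ℕ} {A : Arr K r} {lam : K}

theorem isUnit_poly (hlam : lam ≠ 0) (e : Fin r ⊕ Fin 2) :
    IsUnit (hmk (s := 1) A.W lam⁻¹ (A.poly e)) := by
  rcases e with e | l
  · have h1 : A.P e ∣ A.W := Dvd.dvd.mul_left ((dvd_pow_self _ (Nat.succ_ne_zero (A.m e))).trans
      (Finset.dvd_prod_of_mem (fun e => A.P e ^ (A.m e + 1)) (Finset.mem_univ e))) _
    refine isUnit_of_dvd_unit (map_dvd (hmk (s := 1) A.W lam⁻¹) h1) ?_
    rw [hmk_eq]
    exact (IsUnit.mk0 _ (inv_ne_zero hlam)).map (hcst (s := 1) A.W lam⁻¹)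
  · exact (zlau (R := K) l).isUnit.map (hmk (s := 1) A.W lam⁻¹)

theorem coe_unit (hlam : lam ≠ 0) (e : Fin r ⊕ Fin 2) :
    (A.unit lam e : A.Ring lam) = hmk (s := 1) A.W lam⁻¹ (A.poly e) := by
  unfold Arr.unit
  rw [dif_pos (isUnit_poly hlam e)]
  rfl

theorem integral_poly (hA : A.Admissible) (e : Fin r ⊕ Fin 2) : Integral (A.poly e) := by
  classical
  rcases e with e | l
  · exact hA.int e
  · intro m
    show IsIntegral ℤ ((AddMonoidAlgebra.single (Pi.single l 1) 1 : LP K 2).coeff m)
    rw [AddMonoidAlgebra.coeff_single, Finsupp.single_apply]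
    split_ifs
    · exact isIntegral_one
    · exact isIntegral_zero

theorem faces_poly (hA : A.Admissible) (e : Fin r ⊕ Fin 2) {a : Fin 2 → ℤ} (ha : a ≠ 0) :
    MonoFace (A.poly e) a ∨ BinFace (A.poly e) a := by
  rcases e with e | l
  · exact hA.faces e a ha
  · exact Or.inl ⟨Pi.single l 1, 1, ⟨1, one_ne_zero, one_pow 1⟩, face_single _ _ one_ne_zero⟩

/-- The classes lie in the unit part of all discrete valuations. -/
theorem cls_mem_unitPart (hA : A.Admissible) {β : Fin r ⊕ Fin 2 → Fin r ⊕ Fin 2 → ℤ}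
    (hβ : A.Adm β) (hlam0 : lam ≠ 0) (hlam : IsIntegral ℤ lam) {L : Type*} [Field L]
    (f : A.Ring lam →+* L) (v : Valuation L ℤᵐ⁰) :
    ∑ i, ∑ j, (β i j : ℚ) • symb ![Units.map (f : A.Ring lam →* L) (A.unit lam i),
      Units.map (f : A.Ring lam →* L) (A.unit lam j)] ∈ unitPart v 2 := by
  classical
  set z : Fin 2 → Lˣ := fun l => Units.map (f : A.Ring lam →* L) (hz (s := 1) A.W lam⁻¹ l)
    with hz'
  set φ : K →+* L := f.comp (hcst (s := 1) A.W lam⁻¹) with hφ
  set u : Fin r ⊕ Fin 2 → Lˣ := fun e => Units.map (f : A.Ring lam →* L) (A.unit lam e) with hu'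
  have hu : ∀ e, (u e : L) = lev φ z (A.poly e) := by
    intro e
    have h1 : (u e : L) = f (A.unit lam e : A.Ring lam) := rfl
    rw [h1, coe_unit hlam0]
    exact hom_eq_lev (f.comp (hmk (s := 1) A.W lam⁻¹)) (A.poly e)
  have heq : lev φ z A.W = φ lam⁻¹ := hlau_eq (s := 1) f
  have hint : ∀ x : K, IsIntegral ℤ x → v (φ x) ≤ 1 := fun x hx =>
    val_le_one_of_integral v (map_isIntegral_int φ hx)
  choose k hk using fun j => exists_ord v (z j)
  have hvm : ∀ m : Fin 2 → ℤ, v ((mon z m : Lˣ) : L) =
      WithZero.exp (∑ j, k j * m j) := by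
    intro m
    unfold mon
    rw [Units.coe_prod, map_prod]
    have h2 : ∀ t : Finset (Fin 2), ∏ j ∈ t, v ((z j ^ m j : Lˣ) : L) =
        WithZero.exp (∑ j ∈ t, k j * m j) := by
      intro t
      induction t using Finset.induction_on with
      | empty => simp
      | insert j t hj ih =>
        rw [Finset.prod_insert hj, Finset.sum_insert hj, WithZero.exp_add, ih,
          Units.val_zpow_eq_zpow_val, map_zpow₀, hk, ← WithZero.exp_zsmul, smul_eq_mul,
          mul_comm (m j)]
    exact h2 Finset.univ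
  show ∑ i, ∑ j, (β i j : ℚ) • symb ![u i, u j] ∈ unitPart v 2
  by_cases hk0 : k = 0
  · -- all the `z_l` are units
    have hvm1 : ∀ m : Fin 2 → ℤ, v ((mon z m : Lˣ) : L) = 1 := by
      intro m
      rw [hvm, hk0]
      simp
    have hle : ∀ e, v (u e : L) ≤ 1 := by
      intro e
      rw [hu, lev_eq]
      refine Valuation.map_sum_le v fun m _ => ?_
      rw [map_mul, hvm1, mul_one]
      exact hint _ (integral_poly hA e m)
    have hprod : v (φ lam⁻¹) = ∏ e : Fin r, v (u (Sum.inl e) : L) ^ (A.m e + 1) := by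
      rw [← heq]
      unfold Arr.W
      rw [map_mul, map_mul, lev_single, map_one, one_mul, hvm1, one_mul, map_prod, map_prod]
      refine Finset.prod_congr rfl fun e _ => ?_
      rw [map_pow, map_pow, hu]
      rfl
    have hinv : 1 ≤ v (φ lam⁻¹) := by
      rw [map_inv₀, map_inv₀]
      have h0 : 0 < v (φ lam) := by
        rw [Valuation.pos_iff]
        exact (map_ne_zero φ).2 hlam0
      exact (one_le_inv₀ h0).2 (hint _ hlam)
    have hone : ∀ e, v (u e : L) = 1 := by
      intro e
      rcases e with e | l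
      · by_contra hne
        have hlt : v (u (Sum.inl e) : L) < 1 := lt_of_le_of_ne (hle _) hne
        have h1 : ∏ e : Fin r, v (u (Sum.inl e) : L) ^ (A.m e + 1) < 1 := by
          rw [← Finset.mul_prod_erase Finset.univ _ (Finset.mem_univ e)]
          refine lt_of_le_of_lt (mul_le_mul' le_rfl (Finset.prod_le_one' fun e' _ =>
            pow_le_one' (hle _) _)) ?_
          rw [mul_one]
          exact pow_lt_one' hlt (Nat.succ_ne_zero _)
        rw [← hprod] at h1
        exact absurd h1 (not_lt.2 hinv)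
      · rw [hu]
        show v (lev φ z (AddMonoidAlgebra.single (Pi.single l 1) 1)) = 1
        rw [lev_single, map_one, one_mul, hvm1]
    refine Submodule.sum_mem _ fun i _ => Submodule.sum_mem _ fun j _ =>
      Submodule.smul_mem _ _ (Submodule.subset_span ⟨![u i, u j], fun l => ?_, rfl⟩)
    fin_cases l
    · exact hone i
    · exact hone j
  · obtain ⟨n, hn, h1, h2, h3⟩ := hβ k hk0
    -- the leading coefficients
    have hroot : ∀ e, Root ((face k (A.poly e)).coeff (n e)) := by
      intro e
      rcases faces_poly hA e hk0 with ⟨n', ζ, hζ, hf⟩ | ⟨n', n'', ζ, ζ', hne, hζ, hζ', hf⟩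
      · have h4 := hn e
        rw [hf, AddMonoidAlgebra.coeff_single, Finsupp.single_apply] at h4 ⊢
        split_ifs with h5
        · exact hζ
        · rw [if_neg h5] at h4
          exact absurd rfl h4
      · have h4 := hn e
        rw [hf, AddMonoidAlgebra.coeff_add, Finsupp.add_apply, AddMonoidAlgebra.coeff_single,
          AddMonoidAlgebra.coeff_single, Finsupp.single_apply, Finsupp.single_apply] at h4 ⊢
        by_cases h5 : n' = n e
        · rw [if_pos h5, if_neg (fun h => hne (h5.trans h.symm)), add_zero]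
          exact hζ
        · rw [if_neg h5] at h4 ⊢
          by_cases h6 : n'' = n e
          · rw [if_pos h6, zero_add]
            exact hζ'
          · rw [if_neg h6, add_zero] at h4
            exact absurd rfl h4
    have hφr : ∀ ζ : K, Root ζ → φ ζ ≠ 0 ∧ ∃ j : ℕ, j ≠ 0 ∧ (φ ζ) ^ j = 1 := by
      rintro ζ ⟨j, hj, hj1⟩
      refine ⟨(map_ne_zero φ).2 ?_, j, hj, by rw [← map_pow, hj1, map_one]⟩
      rintro rfl
      rw [zero_pow hj] at hj1
      exact zero_ne_one hj1
    set ζ : Fin r ⊕ Fin 2 → Lˣ := fun e => Units.mk0 _ (hφr _ (hroot e)).1 with hζdef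
    have hζroot : ∀ e, ∃ j : ℕ, j ≠ 0 ∧ ζ e ^ j = 1 := by
      intro e
      obtain ⟨j, hj, hj1⟩ := (hφr _ (hroot e)).2
      exact ⟨j, hj, Units.ext (by rw [Units.val_pow_eq_pow_val, Units.val_one]; exact hj1)⟩
    have hζv : ∀ e, v (ζ e : L) = 1 := by
      intro e
      obtain ⟨j, hj, hj1⟩ := hζroot e
      exact val_root v hj (by rw [← Units.val_pow_eq_pow_val, hj1, Units.val_one])
    set w : Fin r ⊕ Fin 2 → Lˣ := fun e => u e / (ζ e * mon z (n e)) with hw
    have huw : ∀ e, u e = ζ e * mon z (n e) * w e := fun e => (mul_div_cancel _ _).symm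
    have hwv : ∀ e, (w e : L) = lev φ z (A.poly e) / ((ζ e : L) * ((mon z (n e) : Lˣ) : L)) := by
      intro e
      rw [hw]
      simp only
      rw [Units.val_div_eq_div_val, Units.val_mul, hu]
    have hclose : ∀ e, v (lev φ z (A.poly e) - lev φ z (face k (A.poly e))) <
        v ((mon z (n e) : Lˣ) : L) := fun e =>
      face_close φ v z hvm (integral_poly hA e) (hn e)
    have hden : ∀ e, v ((ζ e : L) * ((mon z (n e) : Lˣ) : L)) = v ((mon z (n e) : Lˣ) : L) := by
      intro e
      rw [map_mul, hζv, one_mul]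
    have hdpos : ∀ e, 0 < v ((mon z (n e) : Lˣ) : L) := by
      intro e
      rw [Valuation.pos_iff]
      exact Units.ne_zero _
    have hquot : ∀ e, v ((lev φ z (A.poly e) - lev φ z (face k (A.poly e))) /
        ((ζ e : L) * ((mon z (n e) : Lˣ) : L))) < 1 := by
      intro e
      rw [map_div₀, hden, div_lt_one₀ (hdpos e)]
      exact hclose e
    have hdne : ∀ e, (ζ e : L) * ((mon z (n e) : Lˣ) : L) ≠ 0 := fun e =>
      mul_ne_zero (Units.ne_zero _) (Units.ne_zero _)
    -- monomial faces
    have hmono : ∀ e, MonoFace (A.poly e) k → v ((w e : L) - 1) < 1 := by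
      rintro e ⟨n', ζ', hζ', hf⟩
      have h4 := hn e
      have h5 : n e = n' := by
        by_contra hc
        rw [hf, AddMonoidAlgebra.coeff_single] at h4
        exact h4 (Finsupp.single_eq_of_ne hc)
      have h6 : lev φ z (face k (A.poly e)) = (ζ e : L) * ((mon z (n e) : Lˣ) : L) := by
        rw [hζdef]
        simp only [Units.val_mk0]
        rw [hf, lev_single, AddMonoidAlgebra.coeff_single, h5, Finsupp.single_eq_same]
      have h7 : (w e : L) - 1 = (lev φ z (A.poly e) - lev φ z (face k (A.poly e))) /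
          ((ζ e : L) * ((mon z (n e) : Lˣ) : L)) := by
        rw [hwv, h6, sub_div, div_self (hdne e)]
      rw [h7]
      exact hquot e
    -- binomial faces
    have hbin : ∀ e, BinFace (A.poly e) k → ∃ (ρ : Lˣ) (ε : Fin 2 → ℤ), ε ≠ 0 ∧
        ∑ l, k l * ε l = 0 ∧ (∃ j : ℕ, j ≠ 0 ∧ ρ ^ j = 1) ∧
        v ((w e : L) - (1 + ρ * ((mon z ε : Lˣ) : L))) < 1 := by
      rintro e ⟨n', n'', c', c'', hne, hc', hc'', hf⟩
      have hco : ∀ x, (face k (A.poly e)).coeff x =
          (if n' = x then c' else 0) + (if n'' = x then c'' else 0) := by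
        intro x
        rw [hf, AddMonoidAlgebra.coeff_add, Finsupp.add_apply, AddMonoidAlgebra.coeff_single,
          AddMonoidAlgebra.coeff_single, Finsupp.single_apply, Finsupp.single_apply]
      have hc0 : ∀ c : K, Root c → c ≠ 0 := fun c hc => (map_ne_zero φ).1 (hφr c hc).1
      have key : ∀ (y y' : Fin 2 → ℤ) (c d : K), y ≠ y' → Root c → Root d →
          face k (A.poly e) = AddMonoidAlgebra.single y c + AddMonoidAlgebra.single y' d →
          (face k (A.poly e)).coeff y' ≠ 0 → (face k (A.poly e)).coeff y = c → n e = y →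
          ∃ (ρ : Lˣ) (ε : Fin 2 → ℤ), ε ≠ 0 ∧ ∑ l, k l * ε l = 0 ∧
            (∃ j : ℕ, j ≠ 0 ∧ ρ ^ j = 1) ∧
            v ((w e : L) - (1 + ρ * ((mon z ε : Lˣ) : L))) < 1 := by
        intro y y' c d hyy hc hd hface hy' hyc hney
        obtain ⟨-, -, m1⟩ := coeff_face k (A.poly e) y' hy'
        obtain ⟨-, m2, m3⟩ := coeff_face k (A.poly e) (n e) (hn e)
        obtain ⟨-, m4, -⟩ := coeff_face k (A.poly e) y' hy'
        obtain ⟨a1, j1, hj1, hj1'⟩ := hφr c hc
        obtain ⟨a2, j2, hj2, hj2'⟩ := hφr d hd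
        refine ⟨Units.mk0 (φ d) a2 / Units.mk0 (φ c) a1, y' - y, sub_ne_zero.2 (Ne.symm hyy),
          ?_, ⟨j1 * j2, mul_ne_zero hj1 hj2, ?_⟩, ?_⟩
        · have e1 := m1 (n e) m2
          have e2 := m3 y' m4
          rw [hney] at e1 e2
          simp only [Pi.sub_apply, mul_sub, Finset.sum_sub_distrib]
          omega
        · apply Units.ext
          rw [Units.val_pow_eq_pow_val, Units.val_div_eq_div_val, Units.val_mk0, Units.val_mk0,
            div_pow, Units.val_one, mul_comm j1 j2, pow_mul, hj2', one_pow, mul_comm j2 j1,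
            pow_mul, hj1', one_pow, div_one]
        · have h5 : (ζ e : L) = φ c := by
            rw [hζdef]
            simp only [Units.val_mk0]
            rw [hney, hyc]
          have h6 : lev φ z (face k (A.poly e)) = φ c * ((mon z y : Lˣ) : L) +
              φ d * ((mon z y' : Lˣ) : L) := by
            rw [hface, map_add, lev_single, lev_single]
          have h7 : (w e : L) - (1 + ((Units.mk0 (φ d) a2 / Units.mk0 (φ c) a1 : Lˣ) : L) *
              ((mon z (y' - y) : Lˣ) : L)) =
              (lev φ z (A.poly e) - lev φ z (face k (A.poly e))) /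
                ((ζ e : L) * ((mon z (n e) : Lˣ) : L)) := by
            have hm0 : ((mon z y : Lˣ) : L) ≠ 0 := Units.ne_zero _
            rw [hwv, h6, h5, hney, mon_sub, Units.val_div_eq_div_val, Units.val_div_eq_div_val,
              Units.val_mk0, Units.val_mk0]
            field_simp
          rw [h7]
          exact hquot e
      by_cases h5 : n e = n'
      · refine key n' n'' c' c'' hne hc' hc'' hf ?_ ?_ h5
        · rw [hco, if_neg hne, if_pos rfl, zero_add]
          exact hc0 _ hc''
        · rw [hco, if_pos rfl, if_neg (Ne.symm hne), add_zero]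
      · have h6 : n e = n'' := by
          by_contra hc
          have h4 := hn e
          rw [hco, if_neg (Ne.symm h5), if_neg (Ne.symm hc), add_zero] at h4
          exact h4 rfl
        refine key n'' n' c'' c' (Ne.symm hne) hc'' hc' (by rw [hf, add_comm]) ?_ ?_ h6
        · rw [hco, if_pos rfl, if_neg (Ne.symm hne), add_zero]
          exact hc0 _ hc'
        · rw [hco, if_neg hne, if_pos rfl, zero_add]
    refine sum_mem v z β u w ζ hζroot n huw h1 (fun i => ?_) (fun i j => ?_)
    · by_cases hM : MonoFace (A.poly i) k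
      · exact mem_unitPart_of_oneUnit' v 0 _ (hmono i hM)
      · obtain ⟨ρ, ε, hε0, hkε, hρ, hwε⟩ := hbin i ((faces_poly hA i hk0).resolve_left hM)
        set x : Fin 2 → ℤ := ∑ j, (β i j - β j i) • n j with hx
        have hkx : ∑ l, k l * x l = 0 := by
          have h4 := h2 i hM
          rw [← h4]
          refine Finset.sum_congr rfl fun l _ => ?_
          rw [hx]
          simp only [Finset.sum_apply, Pi.smul_apply, smul_eq_mul]
        have ht1 : v ((mon z ε : Lˣ) : L) = 1 := by
          rw [hvm, hkε, WithZero.exp_zero]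
        have hmem := bin_mem v (w i) (mon z ε) ρ hρ ht1 hwε
        rw [Fin.sum_univ_two] at hkx hkε
        have hdet : x 0 * ε 1 = x 1 * ε 0 := by
          have h4 : k 0 * (x 0 * ε 1 - x 1 * ε 0) = 0 := by
            linear_combination ε 1 * hkx - x 1 * hkε
          have h5 : k 1 * (x 0 * ε 1 - x 1 * ε 0) = 0 := by
            linear_combination x 0 * hkε - ε 0 * hkx
          have h6 : x 0 * ε 1 - x 1 * ε 0 = 0 := by
            by_contra hc
            apply hk0
            funext l
            fin_cases l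
            · exact (mul_eq_zero.1 h4).resolve_right hc
            · exact (mul_eq_zero.1 h5).resolve_right hc
          linarith
        obtain ⟨l', hl'⟩ : ∃ l', ε l' ≠ 0 := by
          by_contra hc
          push Not at hc
          exact hε0 (funext hc)
        have hxe : ε l' • x = x l' • ε := by
          funext l
          simp only [Pi.smul_apply, smul_eq_mul]
          fin_cases l' <;> fin_cases l <;>
            first
            | (show ε 0 * x 0 = x 0 * ε 0; ring)
            | (show ε 1 * x 1 = x 1 * ε 1; ring)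
            | (show ε 0 * x 1 = x 0 * ε 1; linarith)
            | (show ε 1 * x 0 = x 1 * ε 0; linarith)
        have hB : (ε l') • symb ![w i, mon z x] = (x l') • symb ![w i, mon z ε] := by
          have h4 : ∀ (c : ℤ) (m : Fin 2 → ℤ), c • symb ![w i, mon z m] =
              symb ![w i, mon z (c • m)] := by
            intro c m
            rw [← Bh_apply, ← Bh_apply, mon_smul, ofMul_zpow, map_zsmul]
          rw [h4, h4, hxe]
        have h7 : (ε l') • symb ![w i, mon z x] ∈ unitPart v 2 := by
          rw [hB]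
          exact zsmul_mem hmem _
        rw [← Int.cast_smul_eq_zsmul ℚ] at h7
        have h8 : ((ε l' : ℤ) : ℚ) ≠ 0 := by exact_mod_cast hl'
        have h9 := (unitPart v 2).smul_mem (((ε l' : ℤ) : ℚ)⁻¹) h7
        rwa [smul_smul, inv_mul_cancel₀ h8, one_smul] at h9
    · by_cases hij : i = j
      · subst hij
        right
        rw [← Bh_apply, Bh_self]
        exact Submodule.zero_mem _
      · by_cases hMi : MonoFace (A.poly i) k
        · exact Or.inr (mem_unitPart_of_oneUnit' v 0 _ (hmono i hMi))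
        · by_cases hMj : MonoFace (A.poly j) k
          · exact Or.inr (mem_unitPart_of_oneUnit' v 1 _ (hmono j hMj))
          · exact Or.inl (h3 i j hij hMi hMj)

theorem cls_unramified (hA : A.Admissible) {β : Fin r ⊕ Fin 2 → Fin r ⊕ Fin 2 → ℤ}
    (hβ : A.Adm β) (hlam0 : lam ≠ 0) (hlam : IsIntegral ℤ lam) {L : Type*} [Field L]
    (f : A.Ring lam →+* L) : KQ.map 2 f (A.cls lam β) ∈ Unramified L 2 := by
  have h1 : KQ.map 2 f (A.cls lam β) = ∑ i, ∑ j, (β i j : ℚ) •
      symb ![Units.map (f : A.Ring lam →* L) (A.unit lam i),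
        Units.map (f : A.Ring lam →* L) (A.unit lam j)] := by
    unfold Arr.cls
    rw [map_sum]
    refine Finset.sum_congr rfl fun i _ => ?_
    rw [map_sum]
    refine Finset.sum_congr rfl fun j _ => ?_
    rw [map_smul, KQ.map_symb]
    congr 2
    funext l
    fin_cases l <;> rfl
  rw [h1]
  unfold Unramified
  simp only [Submodule.mem_iInf]
  intro v _
  exact cls_mem_unitPart hA hβ hlam0 hlam f v

end unram

end Pool.Agent.U374.St
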