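import Pool.Agent.U374.St.ArrM
set_option autoImplicit false

/-!
Curves `λ z^b ∏_e P_e(z) ^ (m_e + 1) = 1` with binomials `P_e = ζ_e + ζ_e' z^(u_e)`: the classes of
the triples.
-/

namespace Pool.Agent.U374.St

open Pool.Agent.TH826.MK

open Pool.Agent.N65.TL

/-- The exterior product of two vectors. -/
def wdg (u v : Fin 2 → ℤ) : ℤ := u 0 * v 1 - u 1 * v 0

section face

variable {K : Type*} [Field K] {n : ℕ}

open Classical in
theorem coeff_face_eq (a : Fin n → ℤ) (W : LP K n) (x : Fin n → ℤ) :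
    (face a W).coeff x = if ∀ m', W.coeff m' ≠ 0 → ∑ i, a i * m' i ≤ ∑ i, a i * x i then
      W.coeff x else 0 := by
  unfold face
  rw [AddMonoidAlgebra.coeff_sum, Finsupp.finsetSum_apply]
  by_cases h : ∀ m', W.coeff m' ≠ 0 → ∑ i, a i * m' i ≤ ∑ i, a i * x i
  · rw [if_pos h]
    by_cases h0 : W.coeff x = 0
    · rw [h0]
      refine Finset.sum_eq_zero fun m hm => ?_
      have hm1 := Finsupp.mem_support_iff.1 (Finset.mem_filter.1 hm).1
      rw [AddMonoidAlgebra.coeff_single]
      exact Finsupp.single_eq_of_ne (by rintro rfl; exact hm1 h0)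
    · rw [Finset.sum_eq_single x]
      · rw [AddMonoidAlgebra.coeff_single, Finsupp.single_eq_same]
      · intro m _ hne
        rw [AddMonoidAlgebra.coeff_single]
        exact Finsupp.single_eq_of_ne (Ne.symm hne)
      · intro h3
        exact absurd (Finset.mem_filter.2 ⟨Finsupp.mem_support_iff.2 h0, h⟩) h3
  · rw [if_neg h]
    refine Finset.sum_eq_zero fun m hm => ?_
    have hm1 := (Finset.mem_filter.1 hm).2
    rw [AddMonoidAlgebra.coeff_single]
    exact Finsupp.single_eq_of_ne (by rintro rfl; exact h hm1)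

variable {u : Fin n → ℤ} {ζ ζ' : K}

theorem coeff_bin (x : Fin n → ℤ) : (AddMonoidAlgebra.single 0 ζ + AddMonoidAlgebra.single u ζ' :
    LP K n).coeff x = (if x = 0 then ζ else 0) + if x = u then ζ' else 0 := by
  rw [AddMonoidAlgebra.coeff_add, Finsupp.add_apply, AddMonoidAlgebra.coeff_single,
    AddMonoidAlgebra.coeff_single, Finsupp.single_apply, Finsupp.single_apply]
  simp only [eq_comm]

theorem bin_supp {x : Fin n → ℤ} (h : (AddMonoidAlgebra.single 0 ζ +
    AddMonoidAlgebra.single u ζ' : LP K n).coeff x ≠ 0) : x = 0 ∨ x = u := by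
  rw [coeff_bin] at h
  by_contra hc
  push Not at hc
  rw [if_neg hc.1, if_neg hc.2, add_zero] at h
  exact h rfl

theorem coeff_bin_zero (hu : u ≠ 0) : (AddMonoidAlgebra.single 0 ζ +
    AddMonoidAlgebra.single u ζ' : LP K n).coeff 0 = ζ := by
  rw [coeff_bin, if_pos rfl, if_neg hu.symm, add_zero]

theorem coeff_bin_u (hu : u ≠ 0) : (AddMonoidAlgebra.single 0 ζ +
    AddMonoidAlgebra.single u ζ' : LP K n).coeff u = ζ' := by
  rw [coeff_bin, if_pos rfl, if_neg hu, zero_add]

theorem sum_zero_right (a : Fin n → ℤ) : ∑ i, a i * (0 : Fin n → ℤ) i = 0 :=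
  Finset.sum_eq_zero fun i _ => mul_zero _

theorem face_bin_pos {a : Fin n → ℤ} (hu : u ≠ 0) (hz' : ζ' ≠ 0) (h : 0 < ∑ i, a i * u i) :
    face a (AddMonoidAlgebra.single 0 ζ + AddMonoidAlgebra.single u ζ' : LP K n) =
      AddMonoidAlgebra.single u ζ' := by
  classical
  ext x
  rw [coeff_face_eq, AddMonoidAlgebra.coeff_single, Finsupp.single_apply]
  by_cases hx : u = x
  · subst hx
    rw [if_pos rfl, if_pos, coeff_bin_u hu]
    intro m' hm'
    rcases bin_supp hm' with rfl | rfl
    · rw [sum_zero_right]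
      exact h.le
    · exact le_rfl
  · rw [if_neg hx]
    split_ifs with h1
    · by_cases hx0 : x = 0
      · subst hx0
        have h2 := h1 u (by rw [coeff_bin_u hu]; exact hz')
        rw [sum_zero_right] at h2
        omega
      · rw [coeff_bin, if_neg hx0, if_neg (Ne.symm hx), add_zero]
    · rfl

theorem face_bin_neg {a : Fin n → ℤ} (hu : u ≠ 0) (hz : ζ ≠ 0) (h : ∑ i, a i * u i < 0) :
    face a (AddMonoidAlgebra.single 0 ζ + AddMonoidAlgebra.single u ζ' : LP K n) =
      AddMonoidAlgebra.single 0 ζ := by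
  classical
  ext x
  rw [coeff_face_eq, AddMonoidAlgebra.coeff_single, Finsupp.single_apply]
  by_cases hx : 0 = x
  · subst hx
    rw [if_pos rfl, if_pos, coeff_bin_zero hu]
    intro m' hm'
    rcases bin_supp hm' with rfl | rfl
    · exact le_rfl
    · rw [sum_zero_right]
      exact h.le
  · rw [if_neg hx]
    split_ifs with h1
    · by_cases hxu : x = u
      · subst hxu
        have h2 := h1 0 (by rw [coeff_bin_zero hu]; exact hz)
        rw [sum_zero_right] at h2
        omega
      · rw [coeff_bin, if_neg (Ne.symm hx), if_neg hxu, add_zero]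
    · rfl

theorem face_bin_eq {a : Fin n → ℤ} (h : ∑ i, a i * u i = 0) :
    face a (AddMonoidAlgebra.single 0 ζ + AddMonoidAlgebra.single u ζ' : LP K n) =
      AddMonoidAlgebra.single 0 ζ + AddMonoidAlgebra.single u ζ' := by
  classical
  ext x
  rw [coeff_face_eq]
  split_ifs with h1
  · rfl
  · by_contra hc
    apply h1
    intro m' hm'
    have e1 : ∑ i, a i * m' i = 0 := by
      rcases bin_supp hm' with rfl | rfl
      · exact sum_zero_right a
      · exact h
    have e2 : ∑ i, a i * x i = 0 := by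
      rcases bin_supp (Ne.symm hc) with rfl | rfl
      · exact sum_zero_right a
      · exact h
    rw [e1, e2]

end face

section toric

variable {K : Type*} [Field K] {r : ℕ}

/-- The `P_e` are binomials `ζ_e + ζ_e' z^(u_e)` with roots of unity `ζ_e`, `ζ_e'`, and the `u_e` are
pairwise linearly independent. -/
structure Arr.Toric (A : Arr K r) (u : Fin r → Fin 2 → ℤ) : Prop where
  /-- the binomials -/
  form : ∀ e, ∃ ζ ζ' : K, Root ζ ∧ Root ζ' ∧
    A.P e = AddMonoidAlgebra.single 0 ζ + AddMonoidAlgebra.single (u e) ζ'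
  /-- the exponents are not zero -/
  ne : ∀ e, u e ≠ 0
  /-- the exponents are pairwise linearly independent -/
  ind : ∀ e e', e ≠ e' → wdg (u e) (u e') ≠ 0

theorem Root.ne_zero {ζ : K} (h : Root ζ) : ζ ≠ 0 := by
  obtain ⟨j, hj, h1⟩ := h
  rintro rfl
  rw [zero_pow hj] at h1
  exact zero_ne_one h1

theorem Root.isIntegral {ζ : K} (h : Root ζ) : IsIntegral ℤ ζ := by
  obtain ⟨j, hj, h1⟩ := h
  refine IsIntegral.of_pow (Nat.pos_of_ne_zero hj) ?_
  rw [h1]
  exact isIntegral_one

variable {A : Arr K r} {u : Fin r → Fin 2 → ℤ}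

theorem Arr.Toric.admissible (h : A.Toric u) : A.Admissible := by
  classical
  refine ⟨fun e m => ?_, fun e a _ => ?_⟩
  · obtain ⟨ζ, ζ', h1, h2, h3⟩ := h.form e
    rw [h3, coeff_bin]
    split_ifs
    · exact h1.isIntegral.add h2.isIntegral
    · exact h1.isIntegral.add isIntegral_zero
    · exact isIntegral_zero.add h2.isIntegral
    · exact isIntegral_zero.add isIntegral_zero
  · obtain ⟨ζ, ζ', h1, h2, h3⟩ := h.form e
    rcases lt_trichotomy (∑ l, a l * u e l) 0 with h4 | h4 | h4
    · left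
      exact ⟨0, ζ, h1, by rw [h3]; exact face_bin_neg (h.ne e) h1.ne_zero h4⟩
    · right
      exact ⟨0, u e, ζ, ζ', (h.ne e).symm, h1, h2, by rw [h3]; exact face_bin_eq h4⟩
    · left
      exact ⟨u e, ζ', h2, by rw [h3]; exact face_bin_pos (h.ne e) h2.ne_zero h4⟩

theorem Arr.Toric.not_mono (h : A.Toric u) (e : Fin r) {a : Fin 2 → ℤ}
    (hm : ¬ MonoFace (A.P e) a) : ∑ l, a l * u e l = 0 := by
  obtain ⟨ζ, ζ', h1, h2, h3⟩ := h.form e
  rcases lt_trichotomy (∑ l, a l * u e l) 0 with h4 | h4 | h4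
  · exact absurd ⟨0, ζ, h1, by rw [h3]; exact face_bin_neg (h.ne e) h1.ne_zero h4⟩ hm
  · exact h4
  · exact absurd ⟨u e, ζ', h2, by rw [h3]; exact face_bin_pos (h.ne e) h2.ne_zero h4⟩ hm

end toric

end Pool.Agent.U374.St
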