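import Pool.Agent.U374.St.ArrX
set_option autoImplicit false

/-!
Curves `λ z^b ∏_e P_e(z) ^ (m_e + 1) = 1` with binomials `P_e = ζ_e + ζ_e' z^(u_e)`: the classes of
the triples satisfy the linear conditions.
-/

namespace Pool.Agent.U374.St

section comb

/-- `1` for negative numbers, and `0` else -/
def neg1 (x : ℤ) : ℤ := if x < 0 then 1 else 0

/-- the combinatorial identity at the vertices -/
theorem comb_vertex {qi qj qk pi pj pk di dj dk : ℤ} (h1 : qi = 0 ∨ qi = 1) (h2 : qj = 0 ∨ qj = 1)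
    (h3 : qk = 0 ∨ qk = 1) (h4 : pi = 0 ∨ pi = 1) (h5 : pj = 0 ∨ pj = 1) (h6 : pk = 0 ∨ pk = 1)
    (hne : ¬ (pi + qi - 2 * qi * pi = pj + qj - 2 * qj * pj ∧
      pj + qj - 2 * qj * pj = pk + qk - 2 * qk * pk)) :
    ((1 - 2 * qi) * di * ((1 - 2 * qj) * dj) * (pi * pj * dk) +
      (1 - 2 * qj) * dj * ((1 - 2 * qk) * dk) * (pj * pk * di) +
      (1 - 2 * qk) * dk * ((1 - 2 * qi) * di) * (pk * pi * dj)) +
    (pi * ((1 - 2 * qi) * di * (dk + qk * ((1 - 2 * qk) * dk)) * (-dj) -
        (1 - 2 * qi) * di * (qj * ((1 - 2 * qj) * dj)) * dk) +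
      pj * ((1 - 2 * qj) * dj * (di + qi * ((1 - 2 * qi) * di)) * (-dk) -
        (1 - 2 * qj) * dj * (qk * ((1 - 2 * qk) * dk)) * di) +
      pk * ((1 - 2 * qk) * dk * (dj + qj * ((1 - 2 * qj) * dj)) * (-di) -
        (1 - 2 * qk) * dk * (qi * ((1 - 2 * qi) * di)) * dj)) +
    (di * dj * dk + ((1 - 2 * qi) * di * ((1 - 2 * qj) * dj) * (qi * qj * dk) +
      (1 - 2 * qj) * dj * ((1 - 2 * qk) * dk) * (qj * qk * di) +
      (1 - 2 * qk) * dk * ((1 - 2 * qi) * di) * (qk * qi * dj)) +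
      ((1 - 2 * qi) * di * qi * (dj * dk) + (1 - 2 * qj) * dj * qj * (dk * di) +
      (1 - 2 * qk) * dk * qk * (di * dj))) = 0 := by
  rcases h1 with rfl | rfl <;> rcases h2 with rfl | rfl <;> rcases h3 with rfl | rfl <;>
    rcases h4 with rfl | rfl <;> rcases h5 with rfl | rfl <;> rcases h6 with rfl | rfl <;>
    first
    | ring1
    | exact absurd ⟨by norm_num, by norm_num⟩ hne

/-- the combinatorial identity at the edges -/
theorem comb_edge {qj qk pj pk dj dk αj αk D : ℤ} (h2 : qj = 0 ∨ qj = 1)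
    (h3 : qk = 0 ∨ qk = 1) (h5 : pj = 0 ∨ pj = 1) (h6 : pk = 0 ∨ pk = 1)
    (hs : dj * αj + dk * αk = 0)
    (h1j : pj + qj - 2 * qj * pj = 1 → 0 ≤ dj * αj) (h0j : pj + qj - 2 * qj * pj = 0 → dj * αj ≤ 0)
    (h1k : pk + qk - 2 * qk * pk = 1 → 0 ≤ dk * αk) (h0k : pk + qk - 2 * qk * pk = 0 → dk * αk ≤ 0) :
    D * ((1 - 2 * qj) * dj) * (pj * αj) - (1 - 2 * qk) * dk * D * (pk * αk) +
      (D * (dk + qk * ((1 - 2 * qk) * dk)) * αk - D * (qj * ((1 - 2 * qj) * dj)) * αj) = 0 := by
  rcases h2 with rfl | rfl <;> rcases h3 with rfl | rfl <;>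
    rcases h5 with rfl | rfl <;> rcases h6 with rfl | rfl <;> norm_num at h1j h0j h1k h0k <;>
    first
    | ring1
    | linear_combination D * hs
    | linear_combination -D * hs
    | (have e1 : dj * αj = 0 := by linarith
       have e2 : dk * αk = 0 := by linarith
       first
       | linear_combination D * e1
       | linear_combination -D * e1
       | linear_combination D * e2
       | linear_combination -D * e2
       | linear_combination D * e1 + D * e2
       | linear_combination D * e1 - D * e2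
       | linear_combination -D * e1 + D * e2
       | linear_combination -D * e1 - D * e2)

end comb

end Pool.Agent.U374.St
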