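import Pool.Agent.U374.St.ArrY
set_option autoImplicit false

/-!
Curves `λ z^b ∏_e P_e(z) ^ (m_e + 1) = 1` with binomials `P_e = ζ_e + ζ_e' z^(u_e)`: the classes of
the triples satisfy the linear conditions.
-/

namespace Pool.Agent.U374.St

open Pool.Agent.TH826.MK

open Pool.Agent.N65.TL

section elc

variable {r : ℕ}

/-- elementary coefficient systems -/
def elc (x y : Fin r ⊕ Fin 2) (c : ℤ) (i j : Fin r ⊕ Fin 2) : ℤ :=
  if i = x ∧ j = y then c else 0

theorem row_elc (x y : Fin r ⊕ Fin 2) (c : ℤ) (i : Fin r ⊕ Fin 2) (Y : Fin r ⊕ Fin 2 → ℤ) :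
    ∑ j, elc x y c i j * Y j = if i = x then c * Y y else 0 := by
  unfold elc
  by_cases h : i = x
  · simp only [h, true_and, ite_mul, zero_mul, if_true]
    rw [Finset.sum_ite_eq' Finset.univ y, if_pos (Finset.mem_univ _)]
  · simp [h]

theorem col_elc (x y : Fin r ⊕ Fin 2) (c : ℤ) (i : Fin r ⊕ Fin 2) (Y : Fin r ⊕ Fin 2 → ℤ) :
    ∑ j, elc x y c j i * Y j = if i = y then c * Y x else 0 := by
  unfold elc
  by_cases h : i = y
  · simp only [h, and_true, ite_mul, zero_mul, if_true]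
    rw [Finset.sum_ite_eq' Finset.univ x, if_pos (Finset.mem_univ _)]
  · simp [h]

theorem sum_elc (x y : Fin r ⊕ Fin 2) (c : ℤ) (X : Fin r ⊕ Fin 2 → Fin r ⊕ Fin 2 → ℤ) :
    ∑ i, ∑ j, elc x y c i j * X i j = c * X x y := by
  have h : ∀ i, ∑ j, elc x y c i j * X i j = if i = x then c * X i y else 0 := fun i =>
    row_elc x y c i (X i)
  simp only [h]
  rw [Finset.sum_ite_eq' Finset.univ x, if_pos (Finset.mem_univ _)]

/-- one third of the coefficients of the class of a triple -/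
def tri1 (u : Fin r → Fin 2 → ℤ) (i j k : Fin r) (x y : Fin r ⊕ Fin 2) : ℤ :=
  elc (Sum.inl i) (Sum.inl j) (|wdg (u j) (u k)| * |wdg (u k) (u i)|) x y +
  (elc (Sum.inl i) (Sum.inr 0) (|wdg (u j) (u k)| *
      (wdg (u i) (u j) + neg1 (wdg (u i) (u j)) * |wdg (u i) (u j)|) * u k 0 -
      |wdg (u j) (u k)| * (neg1 (wdg (u k) (u i)) * |wdg (u k) (u i)|) * u j 0) x y +
  elc (Sum.inl i) (Sum.inr 1) (|wdg (u j) (u k)| *
      (wdg (u i) (u j) + neg1 (wdg (u i) (u j)) * |wdg (u i) (u j)|) * u k 1 -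
      |wdg (u j) (u k)| * (neg1 (wdg (u k) (u i)) * |wdg (u k) (u i)|) * u j 1) x y)

/-- the coefficient of `{z_0, z_1}` in the class of a triple -/
def tric (u : Fin r → Fin 2 → ℤ) (i j k : Fin r) : ℤ :=
  |wdg (u j) (u k)| * |wdg (u k) (u i)| *
      (neg1 (wdg (u j) (u k)) * neg1 (wdg (u k) (u i)) * wdg (u i) (u j)) +
    |wdg (u j) (u k)| * neg1 (wdg (u j) (u k)) * (wdg (u k) (u i) * wdg (u i) (u j))

/-- the coefficients of the class of a triple -/
def tri (u : Fin r → Fin 2 → ℤ) (i j k : Fin r) (x y : Fin r ⊕ Fin 2) : ℤ :=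
  tri1 u i j k x y + tri1 u j k i x y + tri1 u k i j x y +
    elc (Sum.inr 0) (Sum.inr 1) (wdg (u j) (u k) * wdg (u k) (u i) * wdg (u i) (u j) +
      (tric u i j k + tric u j k i + tric u k i j)) x y

theorem tri_cyc (u : Fin r → Fin 2 → ℤ) (i j k : Fin r) : tri u i j k = tri u j k i := by
  funext x y
  have h : wdg (u j) (u k) * wdg (u k) (u i) * wdg (u i) (u j) +
      (tric u i j k + tric u j k i + tric u k i j) =
      wdg (u k) (u i) * wdg (u i) (u j) * wdg (u j) (u k) +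
      (tric u j k i + tric u k i j + tric u i j k) := by ring
  unfold tri
  rw [h]
  ring

theorem abs_eq_neg1 (d : ℤ) : |d| = (1 - 2 * neg1 d) * d := by
  unfold neg1
  split_ifs with h
  · rw [abs_of_neg h]
    ring
  · rw [abs_of_nonneg (not_lt.1 h)]
    ring

theorem neg1_or (d : ℤ) : neg1 d = 0 ∨ neg1 d = 1 := by
  unfold neg1
  split_ifs
  · right; rfl
  · left; rfl

theorem sign_fact {d α : ℤ} (hd : d ≠ 0) :
    ((if 0 < α then (1 : ℤ) else 0) + neg1 d - 2 * neg1 d * (if 0 < α then (1 : ℤ) else 0) = 1 →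
      0 ≤ d * α) ∧
    ((if 0 < α then (1 : ℤ) else 0) + neg1 d - 2 * neg1 d * (if 0 < α then (1 : ℤ) else 0) = 0 →
      d * α ≤ 0) := by
  unfold neg1
  split_ifs with h1 h2 h2
  · exact ⟨fun h => by norm_num at h, fun _ => (mul_neg_of_neg_of_pos h2 h1).le⟩
  · exact ⟨fun _ => mul_nonneg (not_lt.1 h2) h1.le, fun h => by norm_num at h⟩
  · exact ⟨fun _ => mul_nonneg_of_nonpos_of_nonpos h2.le (not_lt.1 h1), fun h => by norm_num at h⟩
  · exact ⟨fun h => by norm_num at h, fun _ =>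
      mul_nonpos_of_nonneg_of_nonpos (not_lt.1 h2) (not_lt.1 h1)⟩

theorem eq_zero_of_par {a u v : Fin 2 → ℤ} (h : wdg u v ≠ 0) (h1 : ∑ l, a l * u l = 0)
    (h2 : ∑ l, a l * v l = 0) : a = 0 := by
  rw [Fin.sum_univ_two] at h1 h2
  unfold wdg at h
  have e0 : (u 0 * v 1 - u 1 * v 0) * a 0 = 0 := by linear_combination v 1 * h1 - u 1 * h2
  have e1 : (u 0 * v 1 - u 1 * v 0) * a 1 = 0 := by linear_combination u 0 * h2 - v 0 * h1
  funext l
  fin_cases l
  · exact (mul_eq_zero.1 e0).resolve_left h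
  · exact (mul_eq_zero.1 e1).resolve_left h

variable {u : Fin r → Fin 2 → ℤ} {p : Fin r → ℤ}

/-- the chosen vertices -/
def vtx (u : Fin r → Fin 2 → ℤ) (p : Fin r → ℤ) : Fin r ⊕ Fin 2 → Fin 2 → ℤ :=
  Sum.elim (fun e l => p e * u e l) fun l => Pi.single l 1

theorem sum_tri1 (i j k : Fin r) :
    ∑ x, ∑ y, tri1 u i j k x y * (vtx u p x 0 * vtx u p y 1 - vtx u p x 1 * vtx u p y 0) =
      |wdg (u j) (u k)| * |wdg (u k) (u i)| * (p i * p j * wdg (u i) (u j)) +
      p i * (|wdg (u j) (u k)| * (wdg (u i) (u j) + neg1 (wdg (u i) (u j)) *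
        |wdg (u i) (u j)|) * (-wdg (u k) (u i)) -
        |wdg (u j) (u k)| * (neg1 (wdg (u k) (u i)) * |wdg (u k) (u i)|) * wdg (u i) (u j)) := by
  unfold tri1
  simp only [add_mul, Finset.sum_add_distrib]
  rw [sum_elc, sum_elc, sum_elc]
  have e1 : ∀ e l, vtx u p (Sum.inl e) l = p e * u e l := fun e l => rfl
  have e2 : vtx u p (Sum.inr 0) 0 = 1 := by simp [vtx]
  have e3 : vtx u p (Sum.inr 0) 1 = 0 := by simp [vtx]
  have e4 : vtx u p (Sum.inr 1) 0 = 0 := by simp [vtx]
  have e5 : vtx u p (Sum.inr 1) 1 = 1 := by simp [vtx]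
  rw [e1, e1, e1, e1, e2, e3, e4, e5]
  generalize neg1 (wdg (u i) (u j)) = q1
  generalize neg1 (wdg (u k) (u i)) = q2
  generalize |wdg (u j) (u k)| = D1
  generalize |wdg (u k) (u i)| = D2
  generalize |wdg (u i) (u j)| = D3
  unfold wdg
  ring

theorem sum_tri (i j k : Fin r) (hp : ∀ e, p e = 0 ∨ p e = 1)
    (hne : ¬ (p i + neg1 (wdg (u j) (u k)) - 2 * neg1 (wdg (u j) (u k)) * p i =
        p j + neg1 (wdg (u k) (u i)) - 2 * neg1 (wdg (u k) (u i)) * p j ∧
      p j + neg1 (wdg (u k) (u i)) - 2 * neg1 (wdg (u k) (u i)) * p j =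
        p k + neg1 (wdg (u i) (u j)) - 2 * neg1 (wdg (u i) (u j)) * p k)) :
    ∑ x, ∑ y, tri u i j k x y * (vtx u p x 0 * vtx u p y 1 - vtx u p x 1 * vtx u p y 0) = 0 := by
  unfold tri
  simp only [add_mul, Finset.sum_add_distrib]
  rw [sum_tri1, sum_tri1, sum_tri1, sum_elc]
  have e2 : vtx u p (Sum.inr 0) 0 = 1 := by simp [vtx]
  have e3 : vtx u p (Sum.inr 0) 1 = 0 := by simp [vtx]
  have e4 : vtx u p (Sum.inr 1) 0 = 0 := by simp [vtx]
  have e5 : vtx u p (Sum.inr 1) 1 = 1 := by simp [vtx]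
  rw [e2, e3, e4, e5]
  unfold tric
  simp only [abs_eq_neg1]
  have h := comb_vertex (di := wdg (u j) (u k)) (dj := wdg (u k) (u i)) (dk := wdg (u i) (u j))
    (neg1_or (wdg (u j) (u k))) (neg1_or (wdg (u k) (u i))) (neg1_or (wdg (u i) (u j)))
    (hp i) (hp j) (hp k) hne
  linear_combination h

theorem row_tri1 (i j k e : Fin r) (Y : Fin r ⊕ Fin 2 → ℤ) :
    ∑ y, (tri1 u i j k (Sum.inl e) y - tri1 u i j k y (Sum.inl e)) * Y y =
      (if e = i then |wdg (u j) (u k)| * |wdg (u k) (u i)| * Y (Sum.inl j) +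
        ((|wdg (u j) (u k)| *
      (wdg (u i) (u j) + neg1 (wdg (u i) (u j)) * |wdg (u i) (u j)|) * u k 0 -
      |wdg (u j) (u k)| * (neg1 (wdg (u k) (u i)) * |wdg (u k) (u i)|) * u j 0) * Y (Sum.inr 0) +
        (|wdg (u j) (u k)| *
      (wdg (u i) (u j) + neg1 (wdg (u i) (u j)) * |wdg (u i) (u j)|) * u k 1 -
      |wdg (u j) (u k)| * (neg1 (wdg (u k) (u i)) * |wdg (u k) (u i)|) * u j 1) * Y (Sum.inr 1))
        else 0) -
      if e = j then |wdg (u j) (u k)| * |wdg (u k) (u i)| * Y (Sum.inl i) else 0 := by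
  unfold tri1
  simp only [sub_mul, add_mul, Finset.sum_add_distrib, Finset.sum_sub_distrib]
  simp only [row_elc, col_elc, Sum.inl.injEq, reduceCtorEq, if_false]
  split_ifs <;> ring

theorem row_tri {i j k : Fin r} (hij : i ≠ j) (hjk : j ≠ k) (hki : k ≠ i) (e : Fin r)
    (Y : Fin r ⊕ Fin 2 → ℤ) :
    ∑ y, (tri u i j k (Sum.inl e) y - tri u i j k y (Sum.inl e)) * Y y =
      ∑ y, (tri1 u i j k (Sum.inl e) y - tri1 u i j k y (Sum.inl e)) * Y y +
      ∑ y, (tri1 u j k i (Sum.inl e) y - tri1 u j k i y (Sum.inl e)) * Y y +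
      ∑ y, (tri1 u k i j (Sum.inl e) y - tri1 u k i j y (Sum.inl e)) * Y y := by
  have h := row_elc (Sum.inr 0) (Sum.inr 1) (wdg (u j) (u k) * wdg (u k) (u i) * wdg (u i) (u j) +
      (tric u i j k + tric u j k i + tric u k i j)) (Sum.inl e : Fin r ⊕ Fin 2) Y
  have h' := col_elc (Sum.inr 0) (Sum.inr 1) (wdg (u j) (u k) * wdg (u k) (u i) * wdg (u i) (u j) +
      (tric u i j k + tric u j k i + tric u k i j)) (Sum.inl e : Fin r ⊕ Fin 2) Y
  rw [if_neg (by simp)] at h h'
  rw [← Finset.sum_add_distrib, ← Finset.sum_add_distrib]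
  have h2 : ∑ y, (tri u i j k (Sum.inl e) y - tri u i j k y (Sum.inl e)) * Y y =
      ∑ y, (((tri1 u i j k (Sum.inl e) y - tri1 u i j k y (Sum.inl e)) * Y y +
      (tri1 u j k i (Sum.inl e) y - tri1 u j k i y (Sum.inl e)) * Y y +
      (tri1 u k i j (Sum.inl e) y - tri1 u k i j y (Sum.inl e)) * Y y) +
      elc (Sum.inr 0) (Sum.inr 1) (wdg (u j) (u k) * wdg (u k) (u i) * wdg (u i) (u j) +
      (tric u i j k + tric u j k i + tric u k i j)) (Sum.inl e) y * Y y -
      elc (Sum.inr 0) (Sum.inr 1) (wdg (u j) (u k) * wdg (u k) (u i) * wdg (u i) (u j) +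
      (tric u i j k + tric u j k i + tric u k i j)) y (Sum.inl e) * Y y) := by
    refine Finset.sum_congr rfl fun y _ => ?_
    unfold tri
    ring
  rw [h2, Finset.sum_sub_distrib, Finset.sum_add_distrib, h, h']
  ring

theorem row_tri_self {i j k : Fin r} (hij : i ≠ j) (hjk : j ≠ k) (hki : k ≠ i) {a : Fin 2 → ℤ}
    (hi : ∑ l, a l * u i l = 0) (hp : ∀ e, p e = if 0 < ∑ l, a l * u e l then 1 else 0)
    (hdj : wdg (u k) (u i) ≠ 0) (hdk : wdg (u i) (u j) ≠ 0) :
    ∑ l, a l * ∑ y, (tri u i j k (Sum.inl i) y - tri u i j k y (Sum.inl i)) * vtx u p y l = 0 := by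
  have h0 : ∀ l, ∑ y, (tri u i j k (Sum.inl i) y - tri u i j k y (Sum.inl i)) * vtx u p y l =
      |wdg (u j) (u k)| * |wdg (u k) (u i)| * (p j * u j l) -
      |wdg (u i) (u j)| * |wdg (u j) (u k)| * (p k * u k l) +
      ((|wdg (u j) (u k)| *
      (wdg (u i) (u j) + neg1 (wdg (u i) (u j)) * |wdg (u i) (u j)|) * u k l -
      |wdg (u j) (u k)| * (neg1 (wdg (u k) (u i)) * |wdg (u k) (u i)|) * u j l)) := by
    intro l
    rw [row_tri hij hjk hki, row_tri1, row_tri1, row_tri1, if_pos rfl, if_neg hij, if_neg hij,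
      if_neg hki.symm, if_neg hki.symm, if_pos rfl]
    have e1 : ∀ e l, vtx u p (Sum.inl e) l = p e * u e l := fun e l => rfl
    rw [e1, e1]
    fin_cases l
    · have e2 : vtx u p (Sum.inr 0) 0 = 1 := by simp [vtx]
      have e4 : vtx u p (Sum.inr 1) 0 = 0 := by simp [vtx]
      simp only [Fin.zero_eta, Fin.isValue, Fin.mk_one] at *
      rw [e2, e4]
      ring
    · have e3 : vtx u p (Sum.inr 0) 1 = 0 := by simp [vtx]
      have e5 : vtx u p (Sum.inr 1) 1 = 1 := by simp [vtx]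
      simp only [Fin.zero_eta, Fin.isValue, Fin.mk_one] at *
      rw [e3, e5]
      ring
  have hs : wdg (u k) (u i) * (∑ l, a l * u j l) + wdg (u i) (u j) * (∑ l, a l * u k l) = 0 := by
    rw [Fin.sum_univ_two] at hi ⊢
    rw [Fin.sum_univ_two]
    unfold wdg
    linear_combination -(u j 0 * u k 1 - u j 1 * u k 0) * hi
  have hpj := sign_fact (d := wdg (u k) (u i)) (α := ∑ l, a l * u j l) hdj
  have hpk := sign_fact (d := wdg (u i) (u j)) (α := ∑ l, a l * u k l) hdk
  rw [← hp j] at hpj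
  rw [← hp k] at hpk
  have hpp : ∀ e, p e = 0 ∨ p e = 1 := by
    intro e
    rw [hp e]
    split_ifs
    · right; rfl
    · left; rfl
  have h := comb_edge (D := |wdg (u j) (u k)|) (neg1_or (wdg (u k) (u i)))
    (neg1_or (wdg (u i) (u j))) (hpp j) (hpp k) hs hpj.1 hpj.2 hpk.1 hpk.2
  rw [← abs_eq_neg1, ← abs_eq_neg1] at h
  simp only [h0]
  simp only [Fin.sum_univ_two] at h ⊢
  linear_combination h

end elc

section toric

variable {K : Type*} [Field K] {r : ℕ} {A : Arr K r} {u : Fin r → Fin 2 → ℤ}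

/-- The coefficients of the class of a triple satisfy the linear conditions. -/
theorem Arr.Toric.adm (h : A.Toric u) {i j k : Fin r} (hij : i ≠ j) (hjk : j ≠ k) (hki : k ≠ i) :
    A.Adm (tri u i j k) := by
  classical
  intro a ha
  have hdi := h.ind j k hjk
  have hdj := h.ind k i hki
  have hdk := h.ind i j hij
  set p : Fin r → ℤ := fun e => if 0 < ∑ l, a l * u e l then 1 else 0 with hp
  have hpe : ∀ e, p e = if 0 < ∑ l, a l * u e l then 1 else 0 := fun e => rfl
  have hpp : ∀ e, p e = 0 ∨ p e = 1 := by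
    intro e
    rw [hpe]
    split_ifs
    · right; rfl
    · left; rfl
  refine ⟨vtx u p, ?_, ?_, ?_, ?_⟩
  · intro e
    rcases e with e | l
    · obtain ⟨ζ, ζ', h1, h2, h3⟩ := h.form e
      have h4 : A.poly (Sum.inl e) = AddMonoidAlgebra.single 0 ζ +
        AddMonoidAlgebra.single (u e) ζ' := h3
      rw [h4]
      rcases lt_trichotomy (∑ l, a l * u e l) 0 with h5 | h5 | h5
      · have h6 : vtx u p (Sum.inl e) = 0 := by
          funext l
          show p e * u e l = 0
          rw [hpe, if_neg (not_lt.2 h5.le), zero_mul]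
        rw [face_bin_neg (h.ne e) h1.ne_zero h5, h6, AddMonoidAlgebra.coeff_single,
          Finsupp.single_eq_same]
        exact h1.ne_zero
      · have h6 : vtx u p (Sum.inl e) = 0 := by
          funext l
          show p e * u e l = 0
          rw [hpe, if_neg (not_lt.2 h5.le), zero_mul]
        rw [face_bin_eq h5, h6, coeff_bin_zero (h.ne e)]
        exact h1.ne_zero
      · have h6 : vtx u p (Sum.inl e) = u e := by
          funext l
          show p e * u e l = u e l
          rw [hpe, if_pos h5, one_mul]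
        rw [face_bin_pos (h.ne e) h2.ne_zero h5, h6, AddMonoidAlgebra.coeff_single,
          Finsupp.single_eq_same]
        exact h2.ne_zero
    · show (face a (AddMonoidAlgebra.single (Pi.single l 1) 1)).coeff (Pi.single l 1) ≠ 0
      rw [face_single a _ one_ne_zero, AddMonoidAlgebra.coeff_single, Finsupp.single_eq_same]
      exact one_ne_zero
  · refine sum_tri i j k hpp ?_
    rintro ⟨h1, h2⟩
    have hi := sign_fact (d := wdg (u j) (u k)) (α := ∑ l, a l * u i l) hdi
    have hj := sign_fact (d := wdg (u k) (u i)) (α := ∑ l, a l * u j l) hdj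
    have hk := sign_fact (d := wdg (u i) (u j)) (α := ∑ l, a l * u k l) hdk
    rw [← hpe i] at hi
    rw [← hpe j] at hj
    rw [← hpe k] at hk
    have hs : wdg (u j) (u k) * (∑ l, a l * u i l) + wdg (u k) (u i) * (∑ l, a l * u j l) +
        wdg (u i) (u j) * (∑ l, a l * u k l) = 0 := by
      simp only [Fin.sum_univ_two]
      unfold wdg
      ring
    have hm : p i + neg1 (wdg (u j) (u k)) - 2 * neg1 (wdg (u j) (u k)) * p i = 0 ∨
        p i + neg1 (wdg (u j) (u k)) - 2 * neg1 (wdg (u j) (u k)) * p i = 1 := by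
      rcases hpp i with h3 | h3 <;> rcases neg1_or (wdg (u j) (u k)) with h4 | h4 <;>
        rw [h3, h4] <;> norm_num
    have hz : wdg (u j) (u k) * (∑ l, a l * u i l) = 0 ∧
        wdg (u k) (u i) * (∑ l, a l * u j l) = 0 := by
      rcases hm with h3 | h3
      · have t1 := hi.2 h3
        have t2 := hj.2 (h1 ▸ h3)
        have t3 := hk.2 (h2 ▸ h1 ▸ h3)
        constructor <;> linarith
      · have t1 := hi.1 h3
        have t2 := hj.1 (h1 ▸ h3)
        have t3 := hk.1 (h2 ▸ h1 ▸ h3)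
        constructor <;> linarith
    exact ha (eq_zero_of_par hdk ((mul_eq_zero.1 hz.1).resolve_left hdi)
      ((mul_eq_zero.1 hz.2).resolve_left hdj))
  · intro e hm
    rcases e with e | l
    · have h1 : ∑ l, a l * u e l = 0 := h.not_mono e hm
      by_cases hei : e = i
      · subst hei
        exact row_tri_self hij hjk hki h1 hpe hdj hdk
      · by_cases hej : e = j
        · subst hej
          rw [tri_cyc u i e k]
          exact row_tri_self hjk hki hij h1 hpe hdk hdi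
        · by_cases hek : e = k
          · subst hek
            rw [tri_cyc u i j e, tri_cyc u j e i]
            exact row_tri_self hki hij hjk h1 hpe hdi hdj
          · refine Finset.sum_eq_zero fun l _ => ?_
            rw [row_tri hij hjk hki, row_tri1, row_tri1, row_tri1]
            simp only [if_neg hei, if_neg hej, if_neg hek]
            ring
    · exact absurd ⟨Pi.single l 1, 1, ⟨1, one_ne_zero, one_pow _⟩,
        face_single a _ one_ne_zero⟩ hm
  · intro e e' hne he he'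
    rcases e with e | l
    · rcases e' with e' | l'
      · exact absurd (eq_zero_of_par (h.ind e e' fun h1 => hne (congrArg _ h1))
          (h.not_mono e he) (h.not_mono e' he')) ha
      · exact absurd ⟨Pi.single l' 1, 1, ⟨1, one_ne_zero, one_pow _⟩,
          face_single a _ one_ne_zero⟩ he'
    · exact absurd ⟨Pi.single l 1, 1, ⟨1, one_ne_zero, one_pow _⟩,
        face_single a _ one_ne_zero⟩ he

end toric

end Pool.Agent.U374.St
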