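import Pool.Agent.N65.TL.Lau
import Pool.Agent.TH826.SX.Milnor
set_option autoImplicit false

/-!
Steinberg towers: Laurent polynomials `T` such that the symbols `{z_0, ..., z_(k-1), T}` and the
restrictions of the symbols `{z_0, ..., z_(k-1)}` to `T = 0` vanish, and symbols at points where a
divisor of a Steinberg tower is smaller than one of its monomials.
-/

namespace Pool.Agent.U374.St

open scoped WithZero

open Pool.Agent.TH826.MK

open Pool.Agent.N65.TL

section defs

variable {K : Type*} [Field K] {n : ℕ}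

/-- The Laurent polynomial `T(z^(M_0), ..., z^(M_(n-1)))`. -/
noncomputable def subst (M : Fin n → Fin n → ℤ) (T : LP K n) : LP K n :=
  ∑ x ∈ T.coeff.support, AddMonoidAlgebra.single (∑ i, x i • M i) (T.coeff x)

/-- The Steinberg towers in the first `k` of the variables `z_0, ..., z_(n-1)`:

* the monomials `ζ z^m` in these variables with a root of unity `ζ`,
* the products of Steinberg towers,
* the quotients of a Steinberg tower by a Steinberg tower with integral coefficients (if the
  quotient is a Laurent polynomial),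
* the Laurent polynomials `T(z^(M_0), ..., z^(M_(k-1)))` for Steinberg towers `T` and linearly
  independent exponents `M_i` of monomials in the first `k` variables,
* the Steinberg towers in the first `k - 1` variables, and
* the polynomials `A z_(k-1)^e + B` with an integer `e ≠ 0` and Steinberg towers `A`, `B` in the
  first `k - 1` variables. -/
inductive Tower : ℕ → LP K n → Prop
  | const (k : ℕ) (m : Fin n → ℤ) (ζ : K) (j : ℕ) (hj : j ≠ 0) (hζ : ζ ^ j = 1)
      (hm : ∀ i : Fin n, k ≤ i.val → m i = 0) : Tower k (AddMonoidAlgebra.single m ζ)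
  | mul {k : ℕ} {A B : LP K n} (hA : Tower k A) (hB : Tower k B) : Tower k (A * B)
  | quot {k : ℕ} {W Q : LP K n} (hQ0 : Q ≠ 0) (hQi : Integral Q) (hQ : Tower k Q)
      (hT : Tower k (W * Q)) : Tower k W
  | mono {k : ℕ} {T : LP K n} (M : Fin n → Fin n → ℤ) (hdet : (Matrix.of M).det ≠ 0)
      (hM : ∀ i : Fin n, i.val < k → ∀ j : Fin n, k ≤ j.val → M i j = 0)
      (hM' : ∀ i : Fin n, k ≤ i.val → M i = Pi.single i 1) (hT : Tower k T) :
      Tower k (subst M T)
  | lift {k : ℕ} {A : LP K n} (hA : Tower k A) : Tower (k + 1) A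
  | step {k : ℕ} {A B : LP K n} (i : Fin n) (hi : i.val = k) (e : ℤ) (he : e ≠ 0)
      (hA : Tower k A) (hB : Tower k B) :
      Tower (k + 1) (A * AddMonoidAlgebra.single (Pi.single i e) 1 + B)

/-- The Laurent polynomial `W` divides a Steinberg tower, with a quotient with integral
coefficients. -/
def TameS (W : LP K n) : Prop :=
  ∃ Q : LP K n, Q ≠ 0 ∧ Integral Q ∧ Tower n (W * Q)

end defs

section mon

variable {G : Type*} [CommGroup G] {n : ℕ}

theorem mon_sum_smul (z : Fin n → G) (x : Fin n → ℤ) (M : Fin n → Fin n → ℤ) (s : Finset (Fin n)) :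
    mon z (∑ i ∈ s, x i • M i) = ∏ i ∈ s, mon z (M i) ^ x i := by
  classical
  induction s using Finset.induction_on with
  | empty => rw [Finset.sum_empty, Finset.prod_empty, mon_zero]
  | insert j s hj ih =>
    rw [Finset.sum_insert hj, Finset.prod_insert hj, mon_add, mon_smul, ih]

theorem mon_subst (z : Fin n → G) (x : Fin n → ℤ) (M : Fin n → Fin n → ℤ) :
    mon z (∑ i, x i • M i) = mon (fun i => mon z (M i)) x :=
  mon_sum_smul z x M Finset.univ

theorem mon_congr {z y : Fin n → G} {m : Fin n → ℤ} (h : ∀ i, m i ≠ 0 → z i = y i) :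
    mon z m = mon y m := by
  unfold mon
  refine Finset.prod_congr rfl fun i _ => ?_
  by_cases hi : m i = 0
  · rw [hi, zpow_zero, zpow_zero]
  · rw [h i hi]

end mon

section lev

variable {K L : Type*} [Field K] [Field L] {n : ℕ}

theorem lev_subst (φ : K →+* L) (z : Fin n → Lˣ) (M : Fin n → Fin n → ℤ) (T : LP K n) :
    lev φ z (subst M T) = lev φ (fun i => mon z (M i)) T := by
  rw [lev_eq φ (fun i => mon z (M i)) T]
  unfold subst
  rw [map_sum]
  refine Finset.sum_congr rfl fun x _ => ?_
  rw [lev_single, mon_subst]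

theorem coeff_subst {M : Fin n → Fin n → ℤ} {T : LP K n} {y : Fin n → ℤ}
    (hy : (subst M T).coeff y ≠ 0) : ∃ x, T.coeff x ≠ 0 ∧ y = ∑ i, x i • M i := by
  classical
  unfold subst at hy
  rw [AddMonoidAlgebra.coeff_sum, Finsupp.finsetSum_apply] at hy
  obtain ⟨x, hx, hne⟩ := Finset.exists_ne_zero_of_sum_ne_zero hy
  rw [AddMonoidAlgebra.coeff_single] at hne
  refine ⟨x, Finsupp.mem_support_iff.1 hx, ?_⟩
  by_contra h
  exact hne (Finsupp.single_eq_of_ne h)

/-- If `W` is smaller than one of its monomials, then this holds also for the product of `W` and of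
a Laurent polynomial with integral coefficients. -/
theorem small_mul (φ : K →+* L) (v : Valuation L ℤᵐ⁰) (z : Fin n → Lˣ) {W Q : LP K n}
    {m0 : Fin n → ℤ} (hm0 : W.coeff m0 ≠ 0)
    (hlt : v (lev φ z W) < v ((mon z m0 : Lˣ) : L)) (hQ0 : Q ≠ 0) (hQ : Integral Q) :
    ∃ m, (W * Q).coeff m ≠ 0 ∧ v (lev φ z (W * Q)) < v ((mon z m : Lˣ) : L) := by
  classical
  choose k hk using fun j => exists_ord v (z j)
  set w : (Fin n → ℤ) →+ ℤ :=
    { toFun := fun m => ∑ j, m j * k j
      map_zero' := by simp
      map_add' := fun m m' => by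
        rw [← Finset.sum_add_distrib]
        exact Finset.sum_congr rfl fun j _ => by rw [Pi.add_apply]; ring } with hw
  have hvm : ∀ m, v ((mon z m : Lˣ) : L) = WithZero.exp (w m) := by
    intro m
    have h1 : w m = ∑ j, m j * k j := rfl
    unfold mon
    rw [h1, Units.coe_prod, map_prod]
    have h2 : ∀ s : Finset (Fin n), ∏ j ∈ s, v ((z j ^ m j : Lˣ) : L) =
        WithZero.exp (∑ j ∈ s, m j * k j) := by
      intro s
      induction s using Finset.induction_on with
      | empty => simp
      | insert j s hj ih =>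
        rw [Finset.prod_insert hj, Finset.sum_insert hj, WithZero.exp_add, ih,
          Units.val_zpow_eq_zpow_val, map_zpow₀, hk, ← WithZero.exp_zsmul, smul_eq_mul]
    exact h2 Finset.univ
  have hW0 : W ≠ 0 := by
    rintro rfl
    exact hm0 rfl
  obtain ⟨m1, m2, h1, h2, h3, h4, h5⟩ := gauss w hW0 hQ0
  have hQv : v (lev φ z Q) ≤ WithZero.exp (w m2) := by
    rw [lev_eq]
    refine Valuation.map_sum_le v fun m hm => ?_
    rw [map_mul, hvm]
    calc v (φ (Q.coeff m)) * WithZero.exp (w m) ≤ 1 * WithZero.exp (w m2) :=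
          mul_le_mul' (val_le_one_of_integral v (map_isIntegral_int φ (hQ m)))
            (WithZero.exp_le_exp.2 (h4 m (Finsupp.mem_support_iff.1 hm)))
      _ = _ := one_mul _
  have hWv : v (lev φ z W) < WithZero.exp (w m1) := by
    refine lt_of_lt_of_le hlt ?_
    rw [hvm]
    exact WithZero.exp_le_exp.2 (h3 m0 hm0)
  refine ⟨m1 + m2, h5, ?_⟩
  rw [map_mul, map_mul, hvm, map_add, WithZero.exp_add]
  exact (mul_le_mul' le_rfl hQv).trans_lt (mul_lt_mul_of_pos_right hWv WithZero.exp_pos)

end lev

section symb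

variable {K L : Type*} [Field K] [Field L] {n N : ℕ}

/-- The symbols with an entry which is a root of unity vanish. -/
theorem symb_root (a : Fin N → Lˣ) (q : Fin N) (x : Lˣ) {j : ℕ} (hj : j ≠ 0) (hx : x ^ j = 1) :
    symb (Function.update a q x) = 0 := by
  have h1 := symb_update_zpow a q x (j : ℤ)
  rw [zpow_natCast, hx, Pool.Agent.TH826.SX.symb_upd_one] at h1
  have hj' : (((j : ℤ)) : ℚ) ≠ 0 := by exact_mod_cast hj
  exact (smul_eq_zero.1 h1.symm).resolve_left hj'

/-- The symbols with an entry `∏ y_i^(m_i)` vanish if the `y_i` with `m_i ≠ 0` are other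
entries. -/
theorem symb_monomial (a : Fin N → Lˣ) (q : Fin N) (y : Fin n → Lˣ) (p : Fin n → Fin N)
    (m : Fin n → ℤ) (h : ∀ i, m i ≠ 0 → p i ≠ q ∧ a (p i) = y i) :
    symb (Function.update a q (mon y m)) = 0 := by
  classical
  have key : ∀ s : Finset (Fin n), symb (Function.update a q (∏ i ∈ s, y i ^ m i)) = 0 := by
    intro s
    induction s using Finset.induction_on with
    | empty => rw [Finset.prod_empty, Pool.Agent.TH826.SX.symb_upd_one]
    | insert j s hj ih =>
      rw [Finset.prod_insert hj, symb_update_mul, ih, add_zero, symb_update_zpow]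
      by_cases hm : m j = 0
      · rw [hm, Int.cast_zero, zero_smul]
      · obtain ⟨h1, h2⟩ := h j hm
        rw [Pool.Agent.TH826.SX.symb_self (Function.update a q (y j)) (i := p j) (j := q) h1
          (by rw [Function.update_self, Function.update_of_ne h1, h2]), smul_zero]
  exact key Finset.univ

/-- The entry `y` is replaced by `- α y^e / β`. -/
theorem symb_step (a : Fin N → Lˣ) (q : Fin N) {α β : Lˣ} {e : ℤ}
    (hα : symb (Function.update a q α) = 0) (hβ : symb (Function.update a q β) = 0) :
    (e : ℚ) • symb a = symb (Function.update a q (-(α * a q ^ e / β))) := by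
  rw [Pool.Agent.TH826.SX.symb_upd_neg, div_eq_mul_inv, symb_update_mul, symb_update_mul,
    Pool.Agent.TH826.SX.symb_upd_inv, hα, hβ, symb_update_zpow, Function.update_eq_self]
  simp

/-- The change of coordinates. -/
theorem exists_mono {p : Fin n → Fin N} (hp : Function.Injective p) {k : ℕ}
    {M : Fin n → Fin n → ℤ} (hdet : (Matrix.of M).det ≠ 0)
    (hM : ∀ i : Fin n, i.val < k → ∀ j : Fin n, k ≤ j.val → M i j = 0)
    (hM' : ∀ i : Fin n, k ≤ i.val → M i = Pi.single i 1) (y : Fin n → Lˣ) (a : Fin N → Lˣ)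
    (ha : ∀ i : Fin n, i.val < k → a (p i) = y i) :
    ∃ (b : Fin N → Lˣ) (c : ℚ), c ≠ 0 ∧ symb b = c • symb a ∧
      (∀ i : Fin n, i.val < k → b (p i) = mon y (M i)) ∧
      ∀ q, (∀ i : Fin n, i.val < k → p i ≠ q) → b q = a q := by
  refine ⟨Function.extend p (fun i => mon (fun j => a (p j)) (M i)) a,
    (((Matrix.of M).det : ℤ) : ℚ), by exact_mod_cast hdet, ?_, fun i hi => ?_, fun q hq => ?_⟩
  · rw [symb_mon a hp M, Int.cast_smul_eq_zsmul]
  · rw [hp.extend_apply]
    refine mon_congr fun j hj => ha j ?_
    by_contra hcon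
    exact hj (hM i hi j (not_lt.1 hcon))
  · by_cases h : ∃ i, p i = q
    · obtain ⟨i, rfl⟩ := h
      have hi : k ≤ i.val := by
        by_contra hcon
        exact hq i (not_le.1 hcon) rfl
      rw [hp.extend_apply, hM' i hi, mon_single]
    · rw [Function.extend_apply' _ _ _ h]

theorem lev_step (φ : K →+* L) (y : Fin n → Lˣ) (A B : LP K n) (i : Fin n) (e : ℤ) :
    lev φ y (A * AddMonoidAlgebra.single (Pi.single i e) 1 + B) =
      lev φ y A * ((y i ^ e : Lˣ) : L) + lev φ y B := by
  have hmon : ((mon y (Pi.single i e) : Lˣ) : L) = ((y i ^ e : Lˣ) : L) := by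
    have h1 : (Pi.single i e : Fin n → ℤ) = e • Pi.single i 1 := by
      rw [← Pi.single_smul, smul_eq_mul, mul_one]
    rw [h1, mon_smul, mon_single]
  rw [map_add, map_mul, lev_single, map_one, one_mul, hmon]

/-- For a Steinberg tower `T`, the symbols with the entries `z_0, ..., z_(k-1), T`, and the symbols
with the entries `z_0, ..., z_(k-1)` at the points with `T = 0` vanish. -/
theorem symb_tower (φ : K →+* L) {p : Fin n → Fin N} (hp : Function.Injective p)
    {k : ℕ} {T : LP K n} (hT : Tower k T) :
    ∀ (y : Fin n → Lˣ) (a : Fin N → Lˣ), (∀ i : Fin n, i.val < k → a (p i) = y i) →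
      (lev φ y T = 0 → symb a = 0) ∧
      ∀ q : Fin N, (∀ i : Fin n, i.val < k → p i ≠ q) → (a q : L) = lev φ y T → symb a = 0 := by
  classical
  have hupd : ∀ (k : ℕ) (y : Fin n → Lˣ) (a : Fin N → Lˣ), (∀ i : Fin n, i.val < k →
      a (p i) = y i) → ∀ (q : Fin N) (x : Lˣ), (∀ i : Fin n, i.val < k → p i ≠ q) →
      ∀ i : Fin n, i.val < k → Function.update a q x (p i) = y i := by
    intro k y a ha q x hq i hi
    rw [Function.update_of_ne (hq i hi), ha i hi]
  induction hT with
  | const k m ζ j hj hζ hm =>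
    intro y a ha
    have hφ : φ ζ ≠ 0 := by
      rw [map_ne_zero]
      rintro rfl
      rw [zero_pow hj] at hζ
      exact zero_ne_one hζ
    rw [lev_single]
    refine ⟨fun h0 => absurd h0 (mul_ne_zero hφ (Units.ne_zero _)), fun q hq haq => ?_⟩
    have e : a q = Units.mk0 (φ ζ) hφ * mon y m := Units.ext (by rw [haq, Units.val_mul]; rfl)
    rw [← Function.update_eq_self q a, e, symb_update_mul, symb_root a q _ hj, zero_add]
    · have h1 : ∀ i, m i ≠ 0 → i.val < k := by
        intro i hi
        by_contra hcon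
        exact hi (hm i (not_lt.1 hcon))
      exact symb_monomial a q y p m fun i hi => ⟨hq i (h1 i hi), ha i (h1 i hi)⟩
    · apply Units.ext
      rw [Units.val_pow_eq_pow_val, Units.val_mk0, ← map_pow, hζ, map_one, Units.val_one]
  | @mul k A B hA hB ihA ihB =>
    intro y a ha
    rw [map_mul]
    refine ⟨fun h0 => ?_, fun q hq haq => ?_⟩
    · rcases mul_eq_zero.1 h0 with h | h
      · exact (ihA y a ha).1 h
      · exact (ihB y a ha).1 h
    · have h0 : lev φ y A * lev φ y B ≠ 0 := by rw [← haq]; exact (a q).ne_zero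
      obtain ⟨hA0, hB0⟩ := mul_ne_zero_iff.1 h0
      have e : a q = Units.mk0 _ hA0 * Units.mk0 _ hB0 := Units.ext haq
      rw [← Function.update_eq_self q a, e, symb_update_mul,
        (ihA y _ (hupd k y a ha q _ hq)).2 q hq (by rw [Function.update_self]; rfl),
        (ihB y _ (hupd k y a ha q _ hq)).2 q hq (by rw [Function.update_self]; rfl), add_zero]
  | @quot k W Q hQ0 hQi hQ hT ihQ ihT =>
    intro y a ha
    have hmul : lev φ y (W * Q) = lev φ y W * lev φ y Q := map_mul _ _ _
    refine ⟨fun h0 => (ihT y a ha).1 (by rw [hmul, h0, zero_mul]), fun q hq haq => ?_⟩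
    by_cases hq0 : lev φ y Q = 0
    · exact (ihQ y a ha).1 hq0
    · have h1 : symb (Function.update a q (a q * Units.mk0 _ hq0)) = 0 :=
        (ihT y _ (hupd k y a ha q _ hq)).2 q hq
          (by rw [Function.update_self, Units.val_mul, haq, hmul]; rfl)
      rw [symb_update_mul, Function.update_eq_self,
        (ihQ y _ (hupd k y a ha q _ hq)).2 q hq (by rw [Function.update_self]; rfl),
        add_zero] at h1
      exact h1
  | @mono k T M hdet hM hM' hT ihT =>
    intro y a ha
    obtain ⟨b, c, hc, hb, hb1, hb2⟩ := exists_mono hp hdet hM hM' y a ha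
    rw [lev_subst]
    refine ⟨fun h0 => ?_, fun q hq haq => ?_⟩
    · have h1 := (ihT (fun i => mon y (M i)) b hb1).1 h0
      rw [hb] at h1
      exact (smul_eq_zero.1 h1).resolve_left hc
    · have h1 := (ihT (fun i => mon y (M i)) b hb1).2 q hq (by rw [hb2 q hq, haq])
      rw [hb] at h1
      exact (smul_eq_zero.1 h1).resolve_left hc
  | @lift k A hA ihA =>
    intro y a ha
    have h1 := ihA y a (fun i hi => ha i (Nat.lt_succ_of_lt hi))
    exact ⟨h1.1, fun q hq haq => h1.2 q (fun i hi => hq i (Nat.lt_succ_of_lt hi)) haq⟩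
  | @step k A B i hi e he hA hB ihA ihB =>
    intro y a ha
    have ha' : ∀ i : Fin n, i.val < k → a (p i) = y i :=
      fun i hi => ha i (Nat.lt_succ_of_lt hi)
    have hai : a (p i) = y i := ha i (by omega)
    have hpi : ∀ i' : Fin n, i'.val < k → p i' ≠ p i := by
      intro i' hi' h
      have := hp h
      subst this
      omega
    have he' : (e : ℚ) ≠ 0 := by exact_mod_cast he
    rw [lev_step]
    by_cases hA0 : lev φ y A = 0
    · rw [hA0, zero_mul, zero_add]
      exact ⟨fun _ => (ihA y a ha').1 hA0, fun q hq haq =>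
        (ihB y a ha').2 q (fun i hi => hq i (Nat.lt_succ_of_lt hi)) haq⟩
    by_cases hB0 : lev φ y B = 0
    · refine ⟨fun _ => (ihB y a ha').1 hB0, fun q hq haq => ?_⟩
      exact (ihB y a ha').1 hB0
    set α : Lˣ := Units.mk0 _ hA0 with hα
    set β : Lˣ := Units.mk0 _ hB0 with hβ
    have hval : ((α * y i ^ e / β : Lˣ) : L) = lev φ y A * ((y i ^ e : Lˣ) : L) / lev φ y B := by
      rw [Units.val_div_eq_div_val, Units.val_mul]
      rfl
    refine ⟨fun h0 => ?_, fun q hq haq => ?_⟩
    · have f1 : symb (Function.update a (p i) α) = 0 :=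
        (ihA y _ (hupd k y a ha' (p i) _ hpi)).2 (p i) hpi (by rw [Function.update_self]; rfl)
      have f2 : symb (Function.update a (p i) β) = 0 :=
        (ihB y _ (hupd k y a ha' (p i) _ hpi)).2 (p i) hpi (by rw [Function.update_self]; rfl)
      have f3 := symb_step a (p i) (e := e) f1 f2
      have f4 : -(α * a (p i) ^ e / β) = 1 := by
        apply Units.ext
        rw [hai, Units.val_neg, hval, Units.val_one, eq_neg_of_add_eq_zero_left h0, neg_div,
          neg_neg, div_self hB0]
      rw [f4, Pool.Agent.TH826.SX.symb_upd_one] at f3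
      exact (smul_eq_zero.1 f3).resolve_left he'
    · have hiq : p i ≠ q := hq i (by omega)
      have hq' : ∀ i : Fin n, i.val < k → p i ≠ q := fun i hi => hq i (Nat.lt_succ_of_lt hi)
      -- the entry `1 + γ`
      have hg0 : (1 : L) + ((α * y i ^ e / β : Lˣ) : L) ≠ 0 := by
        intro h0
        apply (a q).ne_zero
        rw [haq]
        have h1 : lev φ y A * ((y i ^ e : Lˣ) : L) + lev φ y B =
            (1 + ((α * y i ^ e / β : Lˣ) : L)) * lev φ y B := by
          rw [hval]
          field_simp
          ring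
        rw [h1, h0, zero_mul]
      set δ : Lˣ := Units.mk0 _ hg0 with hδ
      have e1 : a q = δ * β := by
        apply Units.ext
        rw [haq, Units.val_mul, hδ, Units.val_mk0, hval, hβ, Units.val_mk0]
        field_simp
        ring
      have e2 : symb (Function.update a q β) = 0 :=
        (ihB y _ (hupd k y a ha' q _ hq')).2 q hq' (by rw [Function.update_self]; rfl)
      rw [← Function.update_eq_self q a, e1, symb_update_mul, e2, add_zero]
      set b : Fin N → Lˣ := Function.update a q δ with hb
      have hb' : ∀ i : Fin n, i.val < k → b (p i) = y i := hupd k y a ha' q _ hq'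
      have hbi : b (p i) = y i := by rw [hb, Function.update_of_ne hiq, hai]
      have hbq : b q = δ := by rw [hb, Function.update_self]
      have f1 : symb (Function.update b (p i) α) = 0 :=
        (ihA y _ (hupd k y b hb' (p i) _ hpi)).2 (p i) hpi (by rw [Function.update_self]; rfl)
      have f2 : symb (Function.update b (p i) β) = 0 :=
        (ihB y _ (hupd k y b hb' (p i) _ hpi)).2 (p i) hpi (by rw [Function.update_self]; rfl)
      have f3 := symb_step b (p i) (e := e) f1 f2
      rw [hbi] at f3
      have f4 : symb (Function.update b (p i) (-(α * y i ^ e / β))) = 0 := by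
        refine symb_eq_zero' _ hiq ?_
        rw [Function.update_self, Function.update_of_ne (Ne.symm hiq), hbq, hδ, Units.val_mk0,
          Units.val_neg]
        ring
      rw [f4] at f3
      exact (smul_eq_zero.1 f3).resolve_left he'

/-- If a Steinberg tower is smaller than one of its monomials at the point `y`, then the symbols
which contain the entries `y` lie in the unit part. -/
theorem mem_unitPart_of_tower (φ : K →+* L) (v : Valuation L ℤᵐ⁰) {p : Fin n → Fin N}
    (hp : Function.Injective p) {k : ℕ} {T : LP K n} (hT : Tower k T) :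
    ∀ (y : Fin n → Lˣ) (a : Fin N → Lˣ), (∀ i : Fin n, i.val < k → a (p i) = y i) →
      ∀ m0 : Fin n → ℤ, T.coeff m0 ≠ 0 → v (lev φ y T) < v ((mon y m0 : Lˣ) : L) →
      symb a ∈ unitPart v N := by
  classical
  induction hT with
  | const k m ζ j hj hζ hm =>
    intro y a ha m0 hm0 hlt
    have h1 : m0 = m := by
      by_contra hne
      rw [AddMonoidAlgebra.coeff_single] at hm0
      exact hm0 (Finsupp.single_eq_of_ne hne)
    rw [lev_single, map_mul, val_root v hj (by rw [← map_pow, hζ, map_one]), one_mul, h1] at hlt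
    exact absurd hlt (lt_irrefl _)
  | @mul k A B hA hB ihA ihB =>
    intro y a ha m0 hm0 hlt
    obtain ⟨x, hx, y', hy', rfl⟩ := Finset.mem_add.1
      (AddMonoidAlgebra.support_coeff_mul_subset _ _ (Finsupp.mem_support_iff.2 hm0))
    rw [map_mul, map_mul, mon_add, Units.val_mul, map_mul] at hlt
    by_cases h1 : v (lev φ y A) < v ((mon y x : Lˣ) : L)
    · exact ihA y a ha x (Finsupp.mem_support_iff.1 hx) h1
    · refine ihB y a ha y' (Finsupp.mem_support_iff.1 hy') ?_
      by_contra h2
      exact absurd hlt (not_lt.2 (mul_le_mul' (not_lt.1 h1) (not_lt.1 h2)))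
  | @quot k W Q hQ0 hQi hQ hT ihQ ihT =>
    intro y a ha m0 hm0 hlt
    obtain ⟨m, hm, hlt'⟩ := small_mul φ v y hm0 hlt hQ0 hQi
    exact ihT y a ha m hm hlt'
  | @mono k T M hdet hM hM' hT ihT =>
    intro y a ha m0 hm0 hlt
    obtain ⟨b, c, hc, hb, hb1, -⟩ := exists_mono hp hdet hM hM' y a ha
    obtain ⟨x, hx, rfl⟩ := coeff_subst hm0
    rw [lev_subst, mon_subst] at hlt
    have h1 := ihT (fun i => mon y (M i)) b hb1 x hx hlt
    rw [hb] at h1
    have h2 := (unitPart v N).smul_mem c⁻¹ h1
    rwa [smul_smul, inv_mul_cancel₀ hc, one_smul] at h2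
  | @lift k A hA ihA =>
    intro y a ha m0 hm0 hlt
    exact ihA y a (fun i hi => ha i (Nat.lt_succ_of_lt hi)) m0 hm0 hlt
  | @step k A B i hi e he hA hB ihA ihB =>
    intro y a ha m0 hm0 hlt
    have ha' : ∀ i : Fin n, i.val < k → a (p i) = y i :=
      fun i hi => ha i (Nat.lt_succ_of_lt hi)
    have hai := ha i (by omega)
    have hmon : ((mon y (Pi.single i e) : Lˣ) : L) = ((y i ^ e : Lˣ) : L) := by
      have h1 : (Pi.single i e : Fin n → ℤ) = e • Pi.single i 1 := by
        rw [← Pi.single_smul, smul_eq_mul, mul_one]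
      rw [h1, mon_smul, mon_single]
    rw [lev_step] at hlt
    -- one of the two summands is larger than the sum
    have hsum : (v (lev φ y A * ((y i ^ e : Lˣ) : L) + lev φ y B) <
        v (lev φ y A * ((y i ^ e : Lˣ) : L)) ∨
        v (lev φ y A * ((y i ^ e : Lˣ) : L) + lev φ y B) < v (lev φ y B)) ∨
        symb a ∈ unitPart v N := by
      have hsupp : (A * AddMonoidAlgebra.single (Pi.single i e) 1).coeff m0 ≠ 0 ∨
          B.coeff m0 ≠ 0 := by
        by_contra hcon
        push Not at hcon
        apply hm0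
        rw [AddMonoidAlgebra.coeff_add, Finsupp.add_apply, hcon.1, hcon.2, add_zero]
      rcases hsupp with h1 | h1
      · obtain ⟨x, hx, y', hy', rfl⟩ := Finset.mem_add.1
          (AddMonoidAlgebra.support_coeff_mul_subset _ _ (Finsupp.mem_support_iff.2 h1))
        have hy'' : y' = Pi.single i e := by
          by_contra hne
          rw [Finsupp.mem_support_iff, AddMonoidAlgebra.coeff_single] at hy'
          exact hy' (Finsupp.single_eq_of_ne hne)
        rw [hy'', mon_add, Units.val_mul, map_mul v ((mon y x : Lˣ) : L), hmon] at hlt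
        by_cases h2 : v (lev φ y A) < v ((mon y x : Lˣ) : L)
        · exact Or.inr (ihA y a ha' x (Finsupp.mem_support_iff.1 hx) h2)
        · left; left
          rw [map_mul v (lev φ y A)]
          exact lt_of_lt_of_le hlt (mul_le_mul' (not_lt.1 h2) le_rfl)
      · by_cases h2 : v (lev φ y B) < v ((mon y m0 : Lˣ) : L)
        · exact Or.inr (ihB y a ha' m0 h1 h2)
        · exact Or.inl (Or.inr (lt_of_lt_of_le hlt (not_lt.1 h2)))
    rcases hsum with hsum | h
    swap
    · exact h
    -- both summands have the same value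
    have hlB : v (lev φ y A * ((y i ^ e : Lˣ) : L) + lev φ y B) < v (lev φ y B) := by
      rcases hsum with h1 | h1
      · have h2 : v (lev φ y B) = v (lev φ y A * ((y i ^ e : Lˣ) : L)) := by
          have e1 : lev φ y B = (lev φ y A * ((y i ^ e : Lˣ) : L) + lev φ y B) -
              lev φ y A * ((y i ^ e : Lˣ) : L) := by ring
          rw [e1, Valuation.map_sub_eq_of_lt_right v h1]
        rw [h2]
        exact h1
      · exact h1
    have hB0 : lev φ y B ≠ 0 := by
      intro h0
      rw [h0, map_zero] at hlB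
      exact absurd hlB (not_lt.2 zero_le)
    have hA0 : lev φ y A ≠ 0 := by
      intro h0
      rw [h0, zero_mul, zero_add] at hlB
      exact lt_irrefl _ hlB
    set α : Lˣ := Units.mk0 _ hA0 with hα
    set β : Lˣ := Units.mk0 _ hB0 with hβ
    have hval : ((α * y i ^ e / β : Lˣ) : L) = lev φ y A * ((y i ^ e : Lˣ) : L) / lev φ y B := by
      rw [Units.val_div_eq_div_val, Units.val_mul]
      rfl
    have hpi : ∀ i' : Fin n, i'.val < k → p i' ≠ p i := by
      intro i' hi' h
      have := hp h
      subst this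
      omega
    have hup : ∀ x : Lˣ, ∀ i' : Fin n, i'.val < k → Function.update a (p i) x (p i') = y i' := by
      intro x i' hi'
      rw [Function.update_of_ne (hpi i' hi'), ha' i' hi']
    have f1 : symb (Function.update a (p i) α) = 0 :=
      (symb_tower φ hp hA y _ (hup _)).2 (p i) hpi (by rw [Function.update_self]; rfl)
    have f2 : symb (Function.update a (p i) β) = 0 :=
      (symb_tower φ hp hB y _ (hup _)).2 (p i) hpi (by rw [Function.update_self]; rfl)
    have f3 := symb_step a (p i) (e := e) f1 f2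
    rw [hai] at f3
    have f4 : symb (Function.update a (p i) (-(α * y i ^ e / β))) ∈ unitPart v N := by
      refine mem_unitPart_of_oneUnit' v (p i) _ ?_
      rw [Function.update_self]
      have h5 : ((-(α * y i ^ e / β) : Lˣ) : L) - 1 =
          -((lev φ y A * ((y i ^ e : Lˣ) : L) + lev φ y B) / lev φ y B) := by
        rw [Units.val_neg, hval]
        field_simp
        ring
      rw [h5, Valuation.map_neg, map_div₀, div_lt_one₀]
      · exact hlB
      · rw [Valuation.pos_iff]
        exact hB0
    rw [← f3] at f4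
    have he' : (e : ℚ) ≠ 0 := by exact_mod_cast he
    have f5 := (unitPart v N).smul_mem ((e : ℚ)⁻¹) f4
    rwa [smul_smul, inv_mul_cancel₀ he', one_smul] at f5

end symb

section tame

variable {K : Type*} [Field K] {n : ℕ}

/-- If a divisor of a Steinberg tower is smaller than one of its monomials at the point `z`, then
the symbols which contain the entries `z` lie in the unit part. -/
theorem mem_unitPart_of_tameS {L : Type*} [Field L] (φ : K →+* L) (v : Valuation L ℤᵐ⁰) {N : ℕ}
    (a : Fin N → Lˣ) {p : Fin n → Fin N} (hp : Function.Injective p) {W : LP K n} (hW : TameS W)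
    {m0 : Fin n → ℤ} (hm0 : W.coeff m0 ≠ 0)
    (hlt : v (lev φ (fun j => a (p j)) W) < v ((mon (fun j => a (p j)) m0 : Lˣ) : L)) :
    symb a ∈ unitPart v N := by
  obtain ⟨Q, hQ0, hQ, hT⟩ := hW
  obtain ⟨m, hm, hlt'⟩ := small_mul φ v _ hm0 hlt hQ0 hQ
  exact mem_unitPart_of_tower φ v hp hT _ a (fun _ _ => rfl) m hm hlt'

end tame

end Pool.Agent.U374.St
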