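import Pool.Agent.N65.TU.Arr
import Pool.Agent.N65.TL.Unram
import Pool.Agent.U374.St.Tower
set_option autoImplicit false

/-!
The symbols `{z_0, ..., z_s, u_0, ..., u_d}` on the fibrations `W(z) = λ g ∏_e L_e ^ (w_e + 1)` are
unramified, for arbitrary arrangements and `λ = μ Δ ^ B`, if `W` divides a product of Steinberg
towers.
-/

namespace Pool.Agent.U374.St

open scoped WithZero

open Pool.Agent.TH826.MK

open Pool.Agent.TH826.GA (cm lf al be ku coe_ku)

open Pool.Agent.TH577.UA

open Pool.Agent.N65.TL

open Pool.Agent.N65.TU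

variable {K : Type*} [Field K] {s d m : ℕ} {W : LP K (s + 1)} {lam : K}
  {g : MvPolynomial (Fin (d + 1)) K} {w : Fin (m + 1) → ℕ} {c : Fin (m + 1) → Fin (d + 1) → K}
  {a : Fin (m + 1) → K} {mu : K}

/-- The symbols are unramified at all discrete valuations. -/
theorem sent_mem_unitPart (hWint : Interior W) (hWt : TameS W)
    (hlam : lam = mu * Del c ^ Bex g w) (hmu : IsIntegral ℤ mu)
    (hg : ∀ k, IsIntegral ℤ (g.coeff k)) (hc : ∀ e j, IsIntegral ℤ (c e j))
    (ha : ∀ e, IsIntegral ℤ (a e)) {L : Type*} [Field L]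
    (f : FOpen W (fPhi lam g w c a) →+* L) (v : Valuation L ℤᵐ⁰)
    {T : Fin (d + 1) → Fin (m + 1)} (hT : (cm c T).det ≠ 0) :
    symb (fun l => Units.map (f : FOpen W (fPhi lam g w c a) →* L) (sent W lam g w c a T l)) ∈
      unitPart v (s + (d + 1) + 1) := by
  classical
  set F : MvPolynomial (Fin (d + 1)) K →+* L := f.comp (fx W (fPhi lam g w c a)) with hF
  obtain ⟨n, hn, hD⟩ := exists_n (F.comp MvPolynomial.C) v (Del_ne (c := c)) (Del_int hc)
  -- the entries
  set A : Fin (s + (d + 1) + 1) → Lˣ := fun l =>
    Units.map (f : FOpen W (fPhi lam g w c a) →* L) (sent W lam g w c a T l) with hAdef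
  set z : Fin (s + 1) → Lˣ := fun i => Units.map (f : FOpen W (fPhi lam g w c a) →* L)
    (fz W (fPhi lam g w c a) i) with hz
  set y : Fin (d + 1) → Lˣ := fun k => Units.map (f : FOpen W (fPhi lam g w c a) →* L)
    (Units.map (fcst W (fPhi lam g w c a) : K →* FOpen W (fPhi lam g w c a)) (ku (kap c T k)) *
      fL W lam g w c a (T k)) with hy
  set b : Fin (m + 1) → Lˣ := fun e => Units.map (f : FOpen W (fPhi lam g w c a) →* L)
    (fL W lam g w c a e) with hb
  have hbv : ∀ e, (b e : L) = F (lf c a e) := fun e => rfl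
  have hyv : ∀ k, (y k : L) = (F.comp MvPolynomial.C) (kap c T k) * F (lf c a (T k)) := by
    intro k
    rw [hy]
    simp only [map_mul, Units.val_mul]
    congr 1
    show f (fcst W (fPhi lam g w c a) (ku (kap c T k) : K)) = _
    rw [coe_ku (kap_ne hT k)]
    rfl
  have hAz : ∀ i, A (esum s d (Sum.inl i)) = z i := by
    intro i
    simp only [hAdef]
    unfold sent
    rw [Equiv.symm_apply_apply, Sum.elim_inl]
  have hAy : ∀ k, A (esum s d (Sum.inr k)) = y k / b (hi c T k) := by
    intro k
    simp only [hAdef]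
    unfold sent
    rw [Equiv.symm_apply_apply, Sum.elim_inr]
    unfold fu
    rw [hy, hb]
    simp only [map_mul, map_div]
    rw [mul_div_assoc]
  change symb A ∈ unitPart v (s + (d + 1) + 1)
  rcases block_or_small (F.comp MvPolynomial.C) v hc ha hn hD hT (fun e => F (lf c a e))
    (fun e => F_lf F hT e) with hsmall | ⟨k0, hk0⟩
  · obtain ⟨h1, h2⟩ := bounds F v hc ha hn hD hT hsmall
    have hPhi := val_Phi_le F v hc ha hn hD hT hsmall hg w hmu
    rw [← hlam] at hPhi
    have hPhi' : v (F (fPhi lam g w c a)) ≤ WithZero.exp (-n) := hPhi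
    have hP1 : v (F (fPhi lam g w c a)) ≤ 1 := by
      refine hPhi'.trans ?_
      rw [← WithZero.exp_zero, WithZero.exp_le_exp]
      omega
    have heqn : lev (f.comp (fcst W (fPhi lam g w c a))) z W = F (fPhi lam g w c a) :=
      flau_eq W (fPhi lam g w c a) f
    by_cases hsm : ∃ m0, W.coeff m0 ≠ 0 ∧ v (F (fPhi lam g w c a)) < v ((mon z m0 : Lˣ) : L)
    · obtain ⟨m0, hm0, hlt⟩ := hsm
      have hzA : (fun j => A (esum s d (Sum.inl j))) = z := funext hAz
      refine mem_unitPart_of_tameS (f.comp (fcst W (fPhi lam g w c a))) v A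
        (p := fun i => esum s d (Sum.inl i)) (fun i j h =>
          Sum.inl_injective ((esum s d).injective h)) hWt hm0 ?_
      rw [hzA, heqn]
      exact hlt
    · push Not at hsm
      -- all `z_i` are units
      choose k hk using fun j => exists_ord v (z j)
      have hvm : ∀ m : Fin (s + 1) → ℤ, v ((mon z m : Lˣ) : L) =
          WithZero.exp (∑ j, k j * m j) := by
        intro m
        unfold mon
        rw [Units.coe_prod, map_prod]
        have h2 : ∀ t : Finset (Fin (s + 1)), ∏ j ∈ t, v ((z j ^ m j : Lˣ) : L) =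
            WithZero.exp (∑ j ∈ t, k j * m j) := by
          intro t
          induction t using Finset.induction_on with
          | empty => simp
          | insert j t hj ih =>
            rw [Finset.prod_insert hj, Finset.sum_insert hj, WithZero.exp_add, ih,
              Units.val_zpow_eq_zpow_val, map_zpow₀, hk, ← WithZero.exp_zsmul, smul_eq_mul,
              mul_comm (m j)]
        exact h2 Finset.univ
      have hk0 : k = 0 := by
        by_contra hne
        obtain ⟨m0, hm0, hpos⟩ := hWint k hne
        have h1 := (hsm m0 hm0).trans hP1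
        rw [hvm, ← WithZero.exp_zero, WithZero.exp_le_exp] at h1
        omega
      have hz1 : ∀ i, v (z i : L) = 1 := by
        intro i
        rw [hk i, hk0, Pi.zero_apply, WithZero.exp_zero]
      obtain ⟨m0, hm0, -⟩ := hWint (fun _ => 1) (fun h => by
        have := congrFun h 0
        simp at this)
      have hP2 : v (F (fPhi lam g w c a)) = 1 := by
        refine le_antisymm hP1 ?_
        have h1 := hsm m0 hm0
        rw [hvm, hk0] at h1
        simpa using h1
      have hn0 : n = 0 := by
        rw [hP2, ← WithZero.exp_zero, WithZero.exp_le_exp] at hPhi'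
        omega
      rw [hn0, zero_mul] at h1 h2
      have hgv := val_poly_le F v hg le_rfl h2
      rw [zero_mul, WithZero.exp_zero] at hgv
      simp only [WithZero.exp_zero] at h1
      have hlv : v (F (MvPolynomial.C lam)) ≤ 1 := by
        refine val_le_one_of_integral v (map_isIntegral_int (F.comp MvPolynomial.C) ?_)
        rw [hlam]
        exact hmu.mul ((Del_int hc).pow _)
      have hFP : v (F (fPhi lam g w c a)) = v (F (MvPolynomial.C lam)) * (v (F g) *
          ∏ e, v (F (lf c a e)) ^ (w e + 1)) := by
        unfold fPhi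
        simp only [map_mul, map_prod, map_pow]
      have hL1 := all_one v (fun e => F (lf c a e)) w hlv hgv h1 (hFP.symm.trans hP2)
      have hkapv : ∀ k, v ((F.comp MvPolynomial.C) (kap c T k)) = 1 := by
        intro k
        have h3 : v ((F.comp MvPolynomial.C) (kap c T k)) ≤ 1 := by
          have h4 := val_le_exp (F.comp MvPolynomial.C) v hD (x := kap c T k) (by
            unfold kap
            rw [div_eq_mul_inv, mul_left_comm]
            exact (det_int hc _).mul (Del_div hc hT))
          rwa [hn0, WithZero.exp_zero] at h4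
        have h5 := val_le_exp (F.comp MvPolynomial.C) v hD (Del_kap_inv hc hT k)
        rw [hn0, WithZero.exp_zero, map_inv₀, map_inv₀] at h5
        have h0 : 0 < v ((F.comp MvPolynomial.C) (kap c T k)) := by
          rw [Valuation.pos_iff]
          exact (map_ne_zero _).2 (kap_ne hT k)
        exact le_antisymm h3 ((inv_le_one₀ h0).1 h5)
      refine Submodule.subset_span ⟨A, fun l => ?_, rfl⟩
      obtain ⟨r, rfl⟩ := (esum s d).surjective l
      rcases r with i | k
      · rw [hAz]
        exact hz1 i
      · rw [hAy, Units.val_div_eq_div_val, map_div₀, hyv, hbv, map_mul, hkapv, hL1, hL1]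
        simp
  · -- a pole
    set emb : Fin (d + 1) ↪ Fin (s + (d + 1) + 1) :=
      ⟨fun k => esum s d (Sum.inr k), fun k l h =>
        Sum.inr_injective ((esum s d).injective h)⟩ with hemb
    set y' : Fin (s + (d + 1) + 1) → Lˣ := fun l =>
      Sum.elim (fun _ => (1 : Lˣ)) y ((esum s d).symm l) with hy'
    have hy'e : ∀ k, y' (emb k) = y k := by
      intro k
      show Sum.elim (fun _ => (1 : Lˣ)) y ((esum s d).symm (esum s d (Sum.inr k))) = _
      rw [Equiv.symm_apply_apply, Sum.elim_inr]
    refine mem_unitPart_of_block' v A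
      ((Finset.univ.filter fun k => hi c T k = hi c T k0).map emb) y' (b (hi c T k0))
      (fun l hl => ?_) (l := emb k0)
      (Finset.mem_map_of_mem _ (Finset.mem_filter.2 ⟨Finset.mem_univ _, rfl⟩)) ?_
    · obtain ⟨k, hk, rfl⟩ := Finset.mem_map.1 hl
      rw [hy'e, ← (Finset.mem_filter.1 hk).2]
      exact hAy k
    · rw [Finset.sum_map, hbv]
      simp only [hy'e]
      rw [Finset.sum_congr rfl fun k _ => hyv k, hyv]
      exact hk0

theorem sent_mem_unramified (hWint : Interior W) (hWt : TameS W)
    (hlam : lam = mu * Del c ^ Bex g w) (hmu : IsIntegral ℤ mu)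
    (hg : ∀ k, IsIntegral ℤ (g.coeff k)) (hc : ∀ e j, IsIntegral ℤ (c e j))
    (ha : ∀ e, IsIntegral ℤ (a e)) {L : Type*} [Field L]
    (f : FOpen W (fPhi lam g w c a) →+* L) {T : Fin (d + 1) → Fin (m + 1)}
    (hT : (cm c T).det ≠ 0) :
    KQ.map (s + (d + 1) + 1) f (symb (sent W lam g w c a T)) ∈
      Unramified L (s + (d + 1) + 1) := by
  rw [KQ.map_symb]
  unfold Unramified
  simp only [Submodule.mem_iInf]
  intro v _
  exact sent_mem_unitPart hWint hWt hlam hmu hg hc ha f v hT

end Pool.Agent.U374.St
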