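import Pool.Agent.N65.TL.Fam
import Pool.Agent.U374.St.Fib
set_option autoImplicit false

/-!
The fibrations `W(z) = λ g ∏_e L_e ^ (w_e + 1)` whose Laurent polynomial `W` divides a product of
Steinberg towers: the theorems.
-/

namespace Pool.Agent.U374.St

open Pool.Agent.TH826.MK (KQ symb Unramified Torus)

open Pool.Agent.N65.TL

variable {K : Type*} [Field K] {s d m : ℕ}

/-- The conditions on the family. -/
structure AdmissibleS (F : Fam K s d m) : Prop where
  /-- the origin is an interior point of the Newton polytope of `W` -/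
  interior : Interior F.W
  /-- `W` divides a product of Steinberg towers in monomials of the variables -/
  tame : TameS F.W
  /-- integral coefficients of the forms -/
  int_c : ∀ e j, IsIntegral ℤ (F.c e j)
  /-- integral coefficients of the forms -/
  int_a : ∀ e, IsIntegral ℤ (F.a e)
  /-- no form is a multiple of another one -/
  distinct : ∀ e e', e ≠ e' → ∀ κ : K, ¬ ((∀ j, F.c e j = κ * F.c e' j) ∧ F.a e = κ * F.a e')
  /-- `g` has integral coefficients -/
  g_int : ∀ k, IsIntegral ℤ (F.g.coeff k)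
  /-- `g` does not vanish at the vertices -/
  g_vtx : ∀ T : Fin (d + 1) → Fin (m + 1), (F.mat T).det ≠ 0 →
    MvPolynomial.eval (F.vertex T) F.g ≠ 0

variable {F : Fam K s d m} {lam : K}

theorem AdmissibleS.unram {mu : K} (hF : AdmissibleS F) (hmu : IsIntegral ℤ mu)
    (hlam : lam = mu * F.Del ^ F.Bex) : F.Unram lam :=
  fun _ _ f _ hdet => sent_mem_unramified (g := F.g) (w := F.w) (c := F.c) (a := F.a)
    hF.interior hF.tame hlam hmu hF.g_int hF.int_c hF.int_a f hdet

theorem AdmissibleS.exists_indep (σ : K →+* ℂ) (hF : AdmissibleS F) :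
    ∃ C : ℝ, ∀ lam : K, C ≤ ‖σ lam‖ → F.Indep lam σ := by
  obtain ⟨C, -, h⟩ := exists_toriF (g := F.g) (w := F.w) (c := F.c) (a := F.a) σ hF.interior
    hF.distinct hF.g_vtx
  refine ⟨C, fun lam hl => ?_⟩
  obtain ⟨Γ, h1, h2⟩ := h lam hl
  refine ⟨Γ, h1, ?_⟩
  intro h0
  apply h2
  rw [← h0]
  exact congrArg _ rfl

end Pool.Agent.U374.St
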