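import Pool.Agent.U374.St.Pure
import Pool.Agent.U374.St.Ex
set_option autoImplicit false

/-!
Toric hypersurfaces `W(z) = λ`, such that the face polynomials of `W` divide Steinberg towers: the
theorems.
-/

namespace Pool.Agent.U374.St

open Pool.Agent.TH826.MK

open Pool.Agent.N65.TL

variable {K : Type*} [Field K] {s n : ℕ}

/-- There is a torus of dimension `s` in the complex points over `σ` of the hypersurface
`W(z) = λ`, on which the regulator of the symbol `{z_0, ..., z_s}` is `r`. -/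
def HasRegulator (σ : K →+* ℂ) (W : LP K (s + 1)) (lam : K) (r : ℝ) : Prop :=
  ∃ Γ : Torus (HRing W lam) s, (∀ θ x, Γ.e θ (hcst W lam x) = σ x) ∧ Γ.reg (hsym W lam) = r

theorem tempered_of_tame {W : LP K n} (h : ∀ a : Fin n → ℤ, a ≠ 0 → Tame (face a W)) :
    Tempered W := fun a ha => tameS_of_tame (h a ha)

theorem exists_asymptotic (σ : K →+* ℂ) {W : LP K (s + 1)} (hW : Interior W) :
    ∃ c : ℝ, c ≠ 0 ∧ ∀ ε : ℝ, 0 < ε → ∃ C : ℝ, ∀ lam : K, C ≤ ‖σ lam‖ →
      ∃ r : ℝ, HasRegulator σ W lam r ∧ |r / Real.log ‖σ lam‖ - c| ≤ ε := by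
  obtain ⟨c, hc, h⟩ := exists_torusP σ hW
  refine ⟨c, hc, fun ε hε => ?_⟩
  obtain ⟨C, -, hC⟩ := h ε hε
  refine ⟨C, fun lam hlam => ?_⟩
  obtain ⟨Γ, h1, h2⟩ := hC lam hlam
  exact ⟨_, ⟨Γ, h1, rfl⟩, h2⟩

theorem finite_exceptions [NumberField K] {W : LP K (s + 1)} (hW : Interior W) :
    {lam : K | IsIntegral ℤ lam ∧
      ¬ ∃ (σ : K →+* ℂ) (r : ℝ), r ≠ 0 ∧ HasRegulator σ W lam r}.Finite := by
  classical
  choose c hc h using fun σ : K →+* ℂ => exists_asymptotic σ hW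
  choose C hC using fun σ : K →+* ℂ => h σ (|c σ| / 2) (by
    have := abs_pos.2 (hc σ)
    linarith)
  set B : ℝ := ∑ σ : K →+* ℂ, |C σ| with hB
  refine (NumberField.Embeddings.finite_of_norm_le K ℂ B).subset ?_
  rintro lam ⟨hint, hno⟩
  refine ⟨hint, fun σ => ?_⟩
  by_contra hcon
  push Not at hcon
  apply hno
  have h1 : C σ ≤ ‖σ lam‖ := by
    have h2 := Finset.single_le_sum (f := fun σ : K →+* ℂ => |C σ|) (fun σ _ => abs_nonneg _)
      (Finset.mem_univ σ)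
    have h3 := le_abs_self (C σ)
    have h4 : |C σ| ≤ B := h2
    linarith
  obtain ⟨r, hr, hr2⟩ := hC σ lam h1
  refine ⟨σ, r, ?_, hr⟩
  rintro rfl
  rw [zero_div, zero_sub, abs_neg] at hr2
  have := abs_pos.2 (hc σ)
  linarith

end Pool.Agent.U374.St
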