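import Pool.Agent.N65.TL.Tor
import Pool.Agent.N65.TL.Ring
import Pool.Agent.TH826.SX.Final
import Pool.Agent.U374.St.Tower
set_option autoImplicit false

/-!
Toric hypersurfaces `W(z) = λ`, such that the face polynomials of `W` divide Steinberg towers:
definitions, and the symbol `{z_0, ..., z_s}` is unramified.
-/

namespace Pool.Agent.U374.St

open scoped WithZero

open Pool.Agent.TH826.MK

open Pool.Agent.N65.TL

section defs

variable {K : Type*} [Field K] {n s : ℕ}

/-- The sum of the terms of `W` on which the functional `a` has its largest value. -/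
noncomputable def face (a : Fin n → ℤ) (W : LP K n) : LP K n :=
  open Classical in
    ∑ m ∈ W.coeff.support.filter
      (fun m => ∀ m', W.coeff m' ≠ 0 → ∑ i, a i * m' i ≤ ∑ i, a i * m i),
      AddMonoidAlgebra.single m (W.coeff m)

/-- The face polynomials of all proper faces of the Newton polytope divide Steinberg towers. -/
def Tempered (W : LP K n) : Prop := ∀ a : Fin n → ℤ, a ≠ 0 → TameS (face a W)

/-- The coordinate ring of the hypersurface `W(z) = λ` in the torus with the coordinates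
`z_0, ..., z_s`. -/
def HRing (W : LP K (s + 1)) (lam : K) : Type _ :=
  LP K (s + 1) ⧸ Ideal.span {W - AddMonoidAlgebra.single 0 lam}

variable (W : LP K (s + 1)) (lam : K)

noncomputable instance : CommRing (HRing W lam) :=
  Ideal.Quotient.commRing (Ideal.span {W - AddMonoidAlgebra.single 0 lam})

/-- The restriction of functions to the hypersurface. -/
noncomputable def hmk : LP K (s + 1) →+* HRing W lam :=
  Ideal.Quotient.mk (Ideal.span {W - AddMonoidAlgebra.single 0 lam})

/-- The constants as functions on the hypersurface. -/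
noncomputable def hcst : K →+* HRing W lam := (hmk W lam).comp AddMonoidAlgebra.singleZeroRingHom

/-- The units `z_i` of the coordinate ring. -/
noncomputable def hz (i : Fin (s + 1)) : (HRing W lam)ˣ :=
  Units.map (hmk W lam : LP K (s + 1) →* HRing W lam) (zlau i)

/-- The symbol `{z_0, ..., z_s}`. -/
noncomputable def hsym : KQ (HRing W lam) (s + 1) := symb (hz W lam)

/-- The images of the symbol `{z_0, ..., z_s}` in the Milnor K-theory of all fields `L` with a
homomorphism from the coordinate ring are unramified. -/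
def HUnram.{u, v} {K : Type u} [Field K] {s : ℕ} (W : LP K (s + 1)) (lam : K) : Prop :=
  ∀ (L : Type v) [Field L] (f : HRing W lam →+* L),
    KQ.map _ f (hsym W lam) ∈ Unramified L _

end defs

section unram

variable {K : Type*} [Field K] {s : ℕ} {W : LP K (s + 1)} {lam : K}

theorem hmk_eq : hmk W lam W = hcst W lam lam := by
  have h : hmk W lam (W - AddMonoidAlgebra.single 0 lam) = 0 :=
    Ideal.Quotient.eq_zero_iff_mem.2 (Ideal.subset_span (Set.mem_singleton _))
  rw [map_sub, sub_eq_zero] at h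
  exact h

theorem hlau_eq {L : Type*} [CommRing L] (f : HRing W lam →+* L) :
    lev (f.comp (hcst W lam)) (fun i => Units.map (f : HRing W lam →* L) (hz W lam i)) W =
      f (hcst W lam lam) := by
  rw [← hmk_eq]
  exact (hom_eq_lev (f.comp (hmk W lam)) W).symm

theorem sym_mem_unitPart (hWi : Integral W) (hWint : Interior W) (hWt : Tempered W)
    (hlam : IsIntegral ℤ lam) {L : Type*} [Field L] (f : HRing W lam →+* L)
    (v : Valuation L ℤᵐ⁰) :
    symb (fun i => Units.map (f : HRing W lam →* L) (hz W lam i)) ∈ unitPart v (s + 1) := by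
  classical
  set z : Fin (s + 1) → Lˣ := fun i => Units.map (f : HRing W lam →* L) (hz W lam i) with hz'
  set φ : K →+* L := f.comp (hcst W lam) with hφ
  have heq : lev φ z W = φ lam := hlau_eq f
  have hint : ∀ x : K, IsIntegral ℤ x → v (φ x) ≤ 1 := fun x hx =>
    val_le_one_of_integral v (map_isIntegral_int φ hx)
  choose k hk using fun j => exists_ord v (z j)
  have hvm : ∀ m : Fin (s + 1) → ℤ, v ((mon z m : Lˣ) : L) =
      WithZero.exp (∑ j, k j * m j) := by
    intro m
    unfold mon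
    rw [Units.coe_prod, map_prod]
    have h2 : ∀ t : Finset (Fin (s + 1)), ∏ j ∈ t, v ((z j ^ m j : Lˣ) : L) =
        WithZero.exp (∑ j ∈ t, k j * m j) := by
      intro t
      induction t using Finset.induction_on with
      | empty => simp
      | insert j t hj ih =>
        rw [Finset.prod_insert hj, Finset.sum_insert hj, WithZero.exp_add, ih,
          Units.val_zpow_eq_zpow_val, map_zpow₀, hk, ← WithZero.exp_zsmul, smul_eq_mul,
          mul_comm (m j)]
    exact h2 Finset.univ
  by_cases hk0 : k = 0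
  · refine Submodule.subset_span ⟨z, fun i => ?_, rfl⟩
    rw [hk i, hk0, Pi.zero_apply, WithZero.exp_zero]
  · obtain ⟨m1, hm1, hpos⟩ := hWint k hk0
    obtain ⟨m0, hm0, hmax⟩ := Finset.exists_max_image W.coeff.support
      (fun m => ∑ j, k j * m j) ⟨m1, Finsupp.mem_support_iff.2 hm1⟩
    set S := W.coeff.support.filter
      (fun m => ∀ m', W.coeff m' ≠ 0 → ∑ i, k i * m' i ≤ ∑ i, k i * m i) with hS
    have hm0S : m0 ∈ S := Finset.mem_filter.2 ⟨hm0, fun m' hm' =>
      hmax m' (Finsupp.mem_support_iff.2 hm')⟩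
    have hcoef : (face k W).coeff m0 ≠ 0 := by
      unfold face
      rw [AddMonoidAlgebra.coeff_sum, Finsupp.finsetSum_apply, Finset.sum_eq_single m0]
      · rw [AddMonoidAlgebra.coeff_single, Finsupp.single_eq_same]
        exact Finsupp.mem_support_iff.1 hm0
      · intro m _ hne
        rw [AddMonoidAlgebra.coeff_single]
        exact Finsupp.single_eq_of_ne (Ne.symm hne)
      · intro h
        exact absurd hm0S h
    refine mem_unitPart_of_tameS φ v z (p := id) Function.injective_id (hWt k hk0) hcoef ?_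
    show v (lev φ z (face k W)) < v ((mon z m0 : Lˣ) : L)
    have hface : lev φ z (face k W) = φ lam - ∑ m ∈ W.coeff.support.filter (fun m => ¬ ∀ m',
        W.coeff m' ≠ 0 → ∑ i, k i * m' i ≤ ∑ i, k i * m i),
        φ (W.coeff m) * ((mon z m : Lˣ) : L) := by
      rw [← heq, lev_eq φ z W, ← Finset.sum_filter_add_sum_filter_not W.coeff.support (fun m => ∀ m',
        W.coeff m' ≠ 0 → ∑ i, k i * m' i ≤ ∑ i, k i * m i), add_sub_cancel_right]
      unfold face
      rw [map_sum]
      exact Finset.sum_congr rfl fun m _ => lev_single _ _ _ _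
    rw [hface, hvm]
    refine (v.map_sub _ _).trans_lt (max_lt ?_ ?_)
    · refine (hint _ hlam).trans_lt ?_
      rw [← WithZero.exp_zero, WithZero.exp_lt_exp]
      exact hpos.trans_le (hmax m1 (Finsupp.mem_support_iff.2 hm1))
    · refine Valuation.map_sum_lt v (by exact WithZero.exp_ne_zero) fun m hm => ?_
      obtain ⟨hm, hnot⟩ := Finset.mem_filter.1 hm
      push Not at hnot
      obtain ⟨m', hm', hlt⟩ := hnot
      rw [map_mul, hvm]
      refine (mul_le_mul' (hint _ (hWi m)) le_rfl).trans_lt ?_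
      rw [one_mul, WithZero.exp_lt_exp]
      exact hlt.trans_le (hmax m' (Finsupp.mem_support_iff.2 hm'))

theorem sym_mem_unramified (hWi : Integral W) (hWint : Interior W) (hWt : Tempered W)
    (hlam : IsIntegral ℤ lam) : HUnram W lam := by
  intro L _ f
  unfold hsym
  rw [KQ.map_symb]
  unfold Unramified
  simp only [Submodule.mem_iInf]
  intro v _
  exact sym_mem_unitPart hWi hWint hWt hlam f v

end unram

section torus

variable {K : Type*} [Field K] {s : ℕ} {W : LP K (s + 1)} {lam : K} {σ : K →+* ℂ}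

/-- The complex points of the hypersurface. -/
structure HPt (σ : K →+* ℂ) (W : LP K (s + 1)) (lam : K) (z : Fin (s + 1) → ℂ) : Prop where
  ne : ∀ i, z i ≠ 0
  eq : ∑ m ∈ W.coeff.support, σ (W.coeff m) * ∏ i, z i ^ (m i) = σ lam

variable {z : Fin (s + 1) → ℂ}

/-- evaluation on the Laurent polynomials -/
noncomputable def HPt.ev0 (h : HPt σ W lam z) : LP K (s + 1) →+* ℂ :=
  lev σ fun i => Units.mk0 (z i) (h.ne i)

theorem HPt.ev0_eq (h : HPt σ W lam z) (P : LP K (s + 1)) :
    h.ev0 P = ∑ m ∈ P.coeff.support, σ (P.coeff m) * ∏ i, z i ^ (m i) := by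
  refine (lev_eq _ _ P).trans (Finset.sum_congr rfl fun m _ => ?_)
  congr 1
  unfold mon
  rw [Units.coe_prod]
  exact Finset.prod_congr rfl fun i _ => by rw [Units.val_zpow_eq_zpow_val, Units.val_mk0]

theorem HPt.ev0_eqn (h : HPt σ W lam z) :
    h.ev0 (W - AddMonoidAlgebra.single 0 lam) = 0 := by
  have h2 : h.ev0 (AddMonoidAlgebra.single 0 lam) = σ lam := by
    refine (lev_single _ _ 0 lam).trans ?_
    rw [mon_zero, Units.val_one, mul_one]
  rw [map_sub, h2, h.ev0_eq, h.eq, sub_self]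

/-- evaluation on the hypersurface -/
noncomputable def HPt.ev (h : HPt σ W lam z) : HRing W lam →+* ℂ :=
  Ideal.Quotient.lift (Ideal.span {W - AddMonoidAlgebra.single 0 lam}) h.ev0 (by
    intro p hp
    have hle : Ideal.span {W - AddMonoidAlgebra.single 0 lam} ≤ RingHom.ker h.ev0 := by
      rw [Ideal.span_le]
      rintro q rfl
      exact h.ev0_eqn
    exact hle hp)

theorem HPt.ev_mk (h : HPt σ W lam z) (P : LP K (s + 1)) : h.ev (hmk W lam P) = h.ev0 P :=
  Ideal.Quotient.lift_mk _ _ _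

theorem HPt.ev_cst (h : HPt σ W lam z) (u : K) : h.ev (hcst W lam u) = σ u := by
  unfold hcst
  rw [RingHom.comp_apply, h.ev_mk]
  refine (lev_single _ _ 0 u).trans ?_
  rw [mon_zero, Units.val_one, mul_one]

theorem HPt.ev_z (h : HPt σ W lam z) (i : Fin (s + 1)) :
    h.ev (hz W lam i : HRing W lam) = z i := by
  show h.ev (hmk W lam ((zlau i : (LP K (s + 1))ˣ) : LP K (s + 1))) = _
  rw [h.ev_mk]
  refine (lev_single _ _ (Pi.single i 1) 1).trans ?_
  rw [map_one, one_mul, mon_single, Units.val_mk0]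

theorem HPt.congr {z' : Fin (s + 1) → ℂ} (h : HPt σ W lam z) (h' : HPt σ W lam z')
    (hz : z = z') : h.ev = h'.ev := by
  subst hz
  rfl

variable {D : ℕ} {Z : Fin (s + 1) → (Fin D → ℝ) → ℂ}

theorem contDiff_ev (hZ : ∀ i, Good (Z i)) (h : ∀ θ, HPt σ W lam fun i => Z i θ)
    (b : HRing W lam) : ContDiff ℝ 2 fun θ => (h θ).ev b := by
  obtain ⟨P, rfl⟩ : ∃ P : LP K (s + 1), hmk W lam P = b := Ideal.Quotient.mk_surjective b
  have e : (fun θ => (h θ).ev (hmk W lam P)) = fun θ =>
      ∑ m ∈ P.coeff.support, σ (P.coeff m) * ∏ i, Z i θ ^ (m i) := by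
    funext θ
    exact ((h θ).ev_mk _).trans ((h θ).ev0_eq P)
  rw [e]
  exact ContDiff.sum fun m _ => contDiff_const.mul (contDiff_prod fun i _ => contDiff_zpow' (hZ i) _)

/-- a torus in the hypersurface -/
noncomputable def mkH (hZ : ∀ i, Good (Z i)) (h : ∀ θ, HPt σ W lam fun i => Z i θ)
    (hZp : ∀ i, Per (Z i)) : Torus (HRing W lam) D where
  e θ := (h θ).ev
  smooth b := contDiff_ev hZ h b
  periodic θ j := HPt.congr _ _ (funext fun i => hZp i θ j)

/-- The regulator of `{z_0, ..., z_s}` at a vertex of the Newton polytope. -/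
theorem exists_torusP (σ : K →+* ℂ) (hW : Interior W) :
    ∃ c : ℝ, c ≠ 0 ∧ ∀ ε : ℝ, 0 < ε → ∃ C : ℝ, 1 < C ∧ ∀ lam : K, C ≤ ‖σ lam‖ →
      ∃ Γ : Torus (HRing W lam) s, (∀ θ x, Γ.e θ (hcst W lam x) = σ x) ∧
        |Γ.reg (hsym W lam) / Real.log ‖σ lam‖ - c| ≤ ε := by
  classical
  have hpi := Real.pi_pos
  obtain ⟨al, v, hv, hpos, hmax⟩ := exists_vertex hW
  obtain ⟨i0, hi0⟩ : ∃ i0, v i0 ≠ 0 := by
    by_contra hcon
    push Not at hcon
    have h1 : dot al v = 0 := Finset.sum_eq_zero fun i _ => by rw [hcon i, mul_zero]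
    omega
  refine ⟨(2 * Real.pi) ^ s * (zmat al v i0).det, mul_ne_zero (by positivity)
    (det_zmat hpos hi0), fun ε hε => ?_⟩
  set k : ℕ := (dot al v).toNat with hk
  have hkz : (k : ℤ) = dot al v := Int.toNat_of_nonneg hpos.le
  have hk0 : 0 < k := by omega
  have hkR : (0 : ℝ) < k := by exact_mod_cast hk0
  have hkzR : ((dot al v : ℤ) : ℝ) = k := by
    rw [← hkz]
    simp
  have hσv : σ (W.coeff v) ≠ 0 := (map_ne_zero σ).2 hv
  obtain ⟨δ, hδ, hclose⟩ := Pool.Agent.TH826.SX.pairing_close (zmat al v i0) hε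
  obtain ⟨R, hR1, hzz⟩ := exists_z σ hv hpos hmax i0 (B := 0) (δ := δ / 2) le_rfl (by linarith)
  set A : ℝ := 1 + ∑ i, |(al i : ℝ)| with hA
  have hA1 : 1 ≤ A := by
    have : 0 ≤ ∑ i, |(al i : ℝ)| := Finset.sum_nonneg fun i _ => abs_nonneg _
    linarith
  have hAi : ∀ i, |(al i : ℝ)| ≤ A := by
    intro i
    have h1 := Finset.single_le_sum (f := fun i => |(al i : ℝ)|) (fun i _ => abs_nonneg _)
      (Finset.mem_univ i)
    have h2 : |(al i : ℝ)| ≤ ∑ i, |(al i : ℝ)| := h1
    linarith
  set C2 : ℝ := |Real.log ‖σ (W.coeff v)‖| with hC2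
  have hC20 : 0 ≤ C2 := abs_nonneg _
  set M : ℝ := 1 + k * (Real.log R + C2) + (δ / 2 + A * C2) * 4 / δ with hM
  have hlogR : 0 ≤ Real.log R := Real.log_nonneg hR1
  have hM1 : 0 ≤ (δ / 2 + A * C2) * 4 / δ := by positivity
  have hM2 : 0 ≤ k * (Real.log R + C2) := by positivity
  refine ⟨Real.exp M, by rw [Real.one_lt_exp_iff]; linarith, fun lam hlam => ?_⟩
  have hln : 0 < ‖σ lam‖ := (Real.exp_pos M).trans_le hlam
  have hl0 : σ lam ≠ 0 := norm_pos_iff.1 hln
  set t : ℝ := Real.log ‖σ lam‖ with ht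
  have htM : M ≤ t := by
    rw [ht, Real.le_log_iff_exp_le hln]
    exact hlam
  have htpos : 0 < t := by linarith
  have ht0 : t ≠ 0 := htpos.ne'
  obtain ⟨κ, hκ⟩ := IsAlgClosed.exists_pow_nat_eq (σ lam / σ (W.coeff v)) hk0
  have hκ0 : κ ≠ 0 := by
    rintro rfl
    rw [zero_pow hk0.ne'] at hκ
    exact (div_ne_zero hl0 hσv) hκ.symm
  have hlogκ : Real.log ‖κ‖ = (t - Real.log ‖σ (W.coeff v)‖) / k := by
    have h1 : (k : ℝ) * Real.log ‖κ‖ = t - Real.log ‖σ (W.coeff v)‖ := by
      rw [← Real.log_pow, ← norm_pow, hκ, norm_div, Real.log_div hln.ne'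
        (norm_ne_zero_iff.2 hσv)]
    rw [← h1]
    field_simp
  have hlogκ' : |Real.log ‖κ‖ - t / k| ≤ C2 := by
    rw [hlogκ]
    have h2 : (t - Real.log ‖σ (W.coeff v)‖) / k - t / k =
        -(Real.log ‖σ (W.coeff v)‖ / k) := by ring
    rw [h2, abs_neg, abs_div, abs_of_pos hkR]
    have h3 : (1 : ℝ) ≤ k := by exact_mod_cast hk0
    exact div_le_self (abs_nonneg _) h3
  have hκR : R ≤ ‖κ‖ := by
    have h1 := (abs_le.1 hlogκ').1
    have h2 : Real.log R ≤ Real.log ‖κ‖ := by
      have h3 : Real.log R + C2 ≤ t / k := by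
        rw [le_div_iff₀ hkR]
        linarith
      linarith
    exact (Real.log_le_log_iff (by linarith) (norm_pos_iff.2 hκ0)).1 h2
  obtain ⟨Z, hZg, hZp, hZlog, hZlw, hZeq⟩ := hzz s id (fun _ => κ)
    (good_const hκ0) (fun _ _ => rfl) (fun _ => hκR) (fun j θ => by
      rw [lw_const, norm_zero])
  have hPt : ∀ θ, HPt σ W lam fun i => Z i θ := fun θ =>
    { ne := fun i => (hZg i).ne_zero θ
      eq := by
        rw [hZeq θ, ← hk, hκ]
        field_simp }
  refine ⟨mkH hZg hPt hZp, fun θ x => (hPt θ).ev_cst x, ?_⟩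
  unfold hsym
  rw [Torus.reg_symb]
  have hzfn : ∀ i, (mkH hZg hPt hZp).fn (hz W lam i : HRing W lam) = Z i := by
    intro i
    funext θ
    exact (hPt θ).ev_z i
  refine hclose _ _ ht0 (fun l => Torus.good _ _) (fun l θ => ?_) (fun l j θ => ?_)
  · have e1 : zmat al v i0 l 0 = (al l : ℝ) / dot al v := rfl
    rw [e1, congrFun (hzfn l) θ, hkzR]
    have h1 := hZlog l θ
    have h3 : Real.log ‖Z l θ‖ / t - al l / k =
        ((Real.log ‖Z l θ‖ - al l * Real.log ‖κ‖) + al l * (Real.log ‖κ‖ - t / k)) / t := by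
      field_simp
      ring
    have h4 : |(Real.log ‖Z l θ‖ - al l * Real.log ‖κ‖) + al l * (Real.log ‖κ‖ - t / k)| ≤
        δ / 2 + A * C2 := by
      refine (abs_add_le _ _).trans (add_le_add h1 ?_)
      rw [abs_mul]
      exact mul_le_mul (hAi l) hlogκ' (abs_nonneg _) (by linarith)
    rw [h3, abs_div, abs_of_pos htpos, div_lt_iff₀ htpos]
    refine h4.trans_lt ?_
    have h5 : (δ / 2 + A * C2) * 4 / δ ≤ t := by linarith
    have h6 : (δ / 2 + A * C2) * 4 ≤ δ * t := by
      rw [div_le_iff₀ hδ] at h5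
      linarith
    have h7 : 0 < δ / 2 + A * C2 := by positivity
    linarith
  · have e1 : zmat al v i0 l j.succ = (bdir v i0 j l : ℝ) := rfl
    rw [e1, hzfn l]
    have h1 := hZlw l j θ
    have h2 : ∑ l', (if j = id l' then (bdir v i0 l' l : ℂ) else 0) = (bdir v i0 j l : ℂ) := by
      simp
    rw [h2, lw_const, mul_zero, zero_add] at h1
    refine lt_of_le_of_lt ?_ (show δ / 2 < δ by linarith)
    have e2 : (((bdir v i0 j l : ℤ) : ℝ) : ℂ) = ((bdir v i0 j l : ℤ) : ℂ) := by simp
    rw [e2]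
    exact h1

end torus

end Pool.Agent.U374.St
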